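import Pool.Agent.Lib.MP_032401_al_M.PSub

/-!
# MP_032401_al (project BFM): maximal elements
-/

set_option autoImplicit false

namespace Pool.Agent.Lib.MP_032401_al_M

open Subgroup

variable {G : Type*} [Group G] {p : ℕ}

theorem Acc_bound {f : ℕ → Subgroup G} (hf : Monotone f) {S : Set G} (hS : S.Finite)
    (h : ∀ x ∈ S, ∃ n, x ∈ f n) : ∃ n, ∀ x ∈ S, x ∈ f n := by
  classical
  choose! k hk using h
  refine ⟨hS.toFinset.sup k, fun x hx => hf ?_ (hk x hx)⟩
  exact Finset.le_sup (f := k) (hS.mem_toFinset.2 hx)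

/-- Proof. Otherwise every member `P ≥ P0` of `S` is properly contained in another member; by
dependent choice (recursion on `ℕ` with values in `{P // P ∈ S ∧ P0 ≤ P}`, or
`exists_seq_strictMono`-type lemmas / `wellFounded_gt` on the subtype) one gets a strictly
increasing sequence of finite `p`-subgroups, against `ACC G p`. -/
theorem ACC.exists_maximal (h : ACC G p) (S : Set (Subgroup G)) (hS : ∀ P ∈ S, PSub p P)
    {P0 : Subgroup G} (h0 : P0 ∈ S) : ∃ P ∈ S, P0 ≤ P ∧ ∀ Q ∈ S, P ≤ Q → Q = P := by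
  by_contra hcon
  push Not at hcon
  have hnx : ∀ P : {P : Subgroup G // P ∈ S ∧ P0 ≤ P},
      ∃ Q : {P : Subgroup G // P ∈ S ∧ P0 ≤ P}, P.1 ≤ Q.1 ∧ Q.1 ≠ P.1 := by
    rintro ⟨P, hP, hP0⟩
    obtain ⟨Q, hQ, hPQ, hne⟩ := hcon P hP hP0
    exact ⟨⟨Q, hQ, hP0.trans hPQ⟩, hPQ, hne⟩
  choose nx hle hne using hnx
  obtain ⟨n, hn⟩ := h (fun n => (nx^[n] ⟨P0, h0, le_rfl⟩).1) (fun n => hS _ (nx^[n] _).2.1)
    (monotone_nat_of_le_succ fun n => by
      show (nx^[n] ⟨P0, h0, le_rfl⟩).1 ≤ (nx^[n + 1] ⟨P0, h0, le_rfl⟩).1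
      rw [Function.iterate_succ_apply']
      exact hle _)
  have h1 := hn (n + 1) (Nat.le_succ n)
  simp only [Function.iterate_succ_apply'] at h1
  exact hne _ h1

/-- The hypothesis that all locally finite `p`-subgroups are finite implies `ACC G p`.
Proof. Let `f` be monotone with all `f n` finite `p`-subgroups, `U = ⨆ n, f n`, whose elements are
those of the `f n` (`Subgroup.mem_iSup_of_directed`). `U` consists of `p`-elements, and every
finite subset of `U` is contained in some `f n`, so it generates a finite subgroup. By hypothesis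
`U` is finite, so `U ≤ f n` for some `n`, and `f m = f n` for `m ≥ n`. -/
theorem ACC.of_locallyFinite (h : ∀ P : Subgroup G, (∀ x ∈ P, ∃ m : ℕ, x ^ p ^ m = 1) →
    (∀ S : Set G, S.Finite → S ⊆ P → ((Subgroup.closure S : Subgroup G) : Set G).Finite) →
    (P : Set G).Finite) : ACC G p := by
  intro f hf hmono
  have hmem : ∀ x, x ∈ (⨆ n, f n) ↔ ∃ n, x ∈ f n := fun x =>
    Subgroup.mem_iSup_of_directed hmono.directed_le
  have hfin : ((⨆ n, f n : Subgroup G) : Set G).Finite := by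
    refine h _ (fun x hx => ?_) (fun S hS hSU => ?_)
    · obtain ⟨n, hn⟩ := (hmem x).1 hx
      exact (hf n).2 x hn
    · obtain ⟨n, hn⟩ := Acc_bound hmono hS fun x hx => (hmem x).1 (hSU hx)
      exact (hf n).1.subset ((Subgroup.closure_le (f n)).2 hn)
  obtain ⟨n, hn⟩ := Acc_bound hmono hfin fun x hx => (hmem x).1 hx
  exact ⟨n, fun m hm => le_antisymm (fun x hx => hn x ((hmem x).2 ⟨m, hx⟩)) (hmono hm)⟩

end Pool.Agent.Lib.MP_032401_al_M
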