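import Pool.Agent.Lib.MP_032401_al_M.PSub

/-!
# MP_032401_al (project BFM): finite nilpotent groups
-/

set_option autoImplicit false

namespace Pool.Agent.Lib.MP_032401_al_M

open Subgroup

variable {F : Type*} [Group F]

/-- A `p`-element of a finite group all of whose Sylow `p`-subgroups are normal lies in each of
them. -/
private theorem Nil_mem [Finite F] {p : ℕ} (hp : p.Prime) (P : Sylow p F)
    (hP : (P : Subgroup F).Normal) {x : F} (hx : PElt p x) : x ∈ (P : Subgroup F) := by
  have hf : Fact p.Prime := ⟨hp⟩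
  have h1 : IsPGroup p (zpowers x) := (PSub.zpowers hp hx).isPGroup
  obtain ⟨Q, hQ⟩ := h1.exists_le_sylow
  have h2 : Subsingleton (Sylow p F) := (Sylow.unique_of_normal P hP).instSubsingleton
  have h3 : Q = P := Subsingleton.elim _ _
  rw [h3] at hQ
  exact hQ (mem_zpowers x)

/-- Proof. In a finite nilpotent group all Sylow subgroups are normal
(`Group.isNilpotent_of_finite_tfae`), so the Sylow `p`-subgroup `P` contains every `p`-element
(every `p`-subgroup is contained in a Sylow subgroup, all conjugate to `P`), and a `p`-element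
commutes with a `q`-element since `P ⊓ Q = ⊥`, both normal
(`Subgroup.commute_of_normal_of_disjoint`). -/
theorem commute_of_nilpotent [Finite F] (hF : Group.IsNilpotent F) {p q : ℕ} (hp : p.Prime)
    (hq : q.Prime) (hpq : p ≠ q) {x y : F} (hx : PElt p x) (hy : PElt q y) : x * y = y * x := by
  have hfp : Fact p.Prime := ⟨hp⟩
  have hfq : Fact q.Prime := ⟨hq⟩
  have hall := (Group.isNilpotent_of_finite_tfae (G := F)).out 0 3 rfl rfl |>.mp hF
  have P : Sylow p F := default
  have Q : Sylow q F := default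
  have hP := hall p hfp P
  have hQ := hall q hfq Q
  refine commute_of_normal_of_disjoint (P : Subgroup F) (Q : Subgroup F) hP hQ ?_ x y
    (Nil_mem hp P hP hx) (Nil_mem hq Q hQ hy)
  rw [Subgroup.disjoint_def]
  intro z hz1 hz2
  obtain ⟨m, hm⟩ := P.isPGroup' ⟨z, hz1⟩
  obtain ⟨n, hn⟩ := Q.isPGroup' ⟨z, hz2⟩
  exact PElt.eq_one hp hq hpq ⟨m, congrArg Subtype.val hm⟩ ⟨n, congrArg Subtype.val hn⟩

/-- Proof. As above, both elements lie in the normal Sylow `p`-subgroup. -/
theorem pelt_mul_of_nilpotent [Finite F] (hF : Group.IsNilpotent F) {p : ℕ} (hp : p.Prime)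
    {x y : F} (hx : PElt p x) (hy : PElt p y) : PElt p (x * y) := by
  have hfp : Fact p.Prime := ⟨hp⟩
  have hall := (Group.isNilpotent_of_finite_tfae (G := F)).out 0 3 rfl rfl |>.mp hF
  have P : Sylow p F := default
  have hP := hall p hfp P
  obtain ⟨m, hm⟩ := P.isPGroup' ⟨x * y, mul_mem (Nil_mem hp P hP hx) (Nil_mem hp P hP hy)⟩
  exact ⟨m, congrArg Subtype.val hm⟩

end Pool.Agent.Lib.MP_032401_al_M
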