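import Pool.Agent.Lib.MP_032401_al_M.CDefs
import Pool.Agent.Lib.MP_032401_al_M.Nil

/-!
# MP_032401_al (project CS): the Frattini argument
-/

set_option autoImplicit false

namespace Pool.Agent.Lib.MP_032401_al_M

open Subgroup

/-- in a finite group the `m`-part of an element -/
private theorem CCoreB_part {D : Type*} [Group D] [Finite D] {m : ℕ} (hm : m.Prime) (M : Subgroup D)
    (a s : D) (hN : M.Normal) (hs : PElt m s) (h : s⁻¹ * a ∈ M) :
    ∃ c : ℕ, PElt m (a ^ c) ∧ s⁻¹ * a ^ c ∈ M := by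
  obtain ⟨e, he⟩ := hs
  have hpos : 0 < orderOf a := orderOf_pos a
  obtain ⟨f, n, hn, hfn⟩ := Nat.exists_eq_pow_mul_and_not_dvd hpos.ne' m hm.ne_one
  have hcop : Nat.Coprime (m ^ e) n := Nat.Coprime.pow_left e ((hm.coprime_iff_not_dvd).2 hn)
  obtain ⟨c, hc1, hc2⟩ := Nat.chineseRemainder hcop 1 0
  refine ⟨c, ⟨f, ?_⟩, ?_⟩
  · rw [← pow_mul]
    apply orderOf_dvd_iff_pow_eq_one.1
    rw [hfn, mul_comm c]
    exact Nat.mul_dvd_mul_left _ ((Nat.modEq_zero_iff_dvd).1 hc2)
  · have h1 : (QuotientGroup.mk' M) a = (QuotientGroup.mk' M) s := by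
      have h2 : (QuotientGroup.mk' M) (s⁻¹ * a) = 1 := by
        rw [← MonoidHom.mem_ker, QuotientGroup.ker_mk']
        exact h
      rw [map_mul, map_inv, inv_mul_eq_one] at h2
      exact h2.symm
    rw [← QuotientGroup.ker_mk' M, MonoidHom.mem_ker, map_mul, map_inv, map_pow, h1, ← map_pow]
    have h3 : s ^ c = s := by
      have h4 : s ^ c = s ^ 1 := by
        rw [pow_eq_pow_iff_modEq]
        exact hc1.of_dvd (orderOf_dvd_of_pow_eq_one he)
      rw [h4, pow_one]
    rw [h3, inv_mul_cancel]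

/-- if `L / M` is a `k`-group then `L = M T` -/
private theorem CCoreB_sup {L : Type*} [Group L] [Finite L] {k : ℕ} (hk : k.Prime) (M : Subgroup L)
    [M.Normal] (hLM : ∀ x : L, ∃ j : ℕ, x ^ k ^ j ∈ M) (T : Sylow k L) :
    M ⊔ (T : Subgroup L) = ⊤ := by
  have hf : Fact k.Prime := ⟨hk⟩
  have h1 : IsPGroup k (L ⧸ M) := by
    intro x
    obtain ⟨y, rfl⟩ := QuotientGroup.mk'_surjective M x
    obtain ⟨j, hj⟩ := hLM y
    refine ⟨j, ?_⟩
    rw [← map_pow, ← MonoidHom.mem_ker, QuotientGroup.ker_mk']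
    exact hj
  obtain ⟨n, hn⟩ := IsPGroup.iff_card.1 h1
  have h2 : (M ⊔ (T : Subgroup L)).index ∣ k ^ n := by
    rw [← hn]
    exact index_dvd_of_le le_sup_left
  have h3 : ¬ k ∣ (M ⊔ (T : Subgroup L)).index := fun h =>
    T.not_dvd_index (h.trans (index_dvd_of_le le_sup_right))
  obtain ⟨i, -, hi⟩ := (Nat.dvd_prime_pow hk).1 h2
  rw [← index_eq_one, hi]
  rcases Nat.eq_zero_or_pos i with h0 | h0
  · rw [h0, pow_zero]
  · exact absurd (hi ▸ dvd_pow_self k h0.ne') h3

/-- Proof. Let `T` be a Sylow `k`-subgroup of `L` (mapped to `D`). (1) `L = M * T`: the index of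
`M ⊔ T` in `L` divides `|L : M|`, a power of `k`, and `|L : T|`, which is prime to `k`. (2) Frattini
argument (Mathlib: `Sylow.normalizer_sup_eq_top`): `D = L * N_D(T)`, so `D = M * N_D(T)` as
`T ≤ N_D(T)`. (3) Let `R` be a Sylow `m`-subgroup of `N_D(T)` (mapped to `D`). For `u ∈ R`,
`t ∈ T` we have `u t u⁻¹ t⁻¹ ∈ N ≤ M` by `hc` (`Y = T`). Since `L = M * T` and `M` is normal,
`u x u⁻¹ x⁻¹ ∈ M` for all `x ∈ L`. (4) `D = L * R`: the index of `L ⊔ R` in `D` is a power of `m`
(`D / L` is an `m`-group) and the index of `M ⊔ R` in `D = M * N_D(T)` divides `|N_D(T) : R|`,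
which is prime to `m`; hence `|D : L ⊔ R| = 1`. (5) `M ⊔ R` is normal in `D`: it is normalised by
`L`, since `x u x⁻¹ ∈ M * u` for `u ∈ R`, `x ∈ L` by (3), and by `R`. (6) The index of `M ⊔ R`
is prime to `m` (see (4)), and `M ⊔ R` is normal, so it contains all `m`-elements of `D`, in
particular `S`; so `M ⊔ R = ⊤`. (7) So `D / M` is an `m`-group (`M ⊔ R = M * R`), hence `L / M` is
an `m`-group and a `k`-group, `L = M`. Contradiction. -/
theorem core_frattini {D : Type*} [Group D] [Finite D] {m k : ℕ} (hm : m.Prime) (hk : k.Prime)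
    (hkm : k ≠ m) {S : Set D} (hS : ∀ s ∈ S, PElt m s) (hDS : Subgroup.closure S = ⊤)
    (N L M : Subgroup D) (hN : N.Normal) (hL : L.Normal) (hM : M.Normal) (hNM : N ≤ M)
    (hML : M ≤ L) (hne : M ≠ L) (hDL : ∀ d : D, ∃ j : ℕ, d ^ m ^ j ∈ L)
    (hLM : ∀ x ∈ L, ∃ j : ℕ, x ^ k ^ j ∈ M) (hc : Triv m N) : False := by
  have hfm : Fact m.Prime := ⟨hm⟩
  have hfk : Fact k.Prime := ⟨hk⟩
  have T : Sylow k L := default
  have hTT : PSub k ((T : Subgroup L).map L.subtype) := by
    refine ⟨Set.toFinite _, ?_⟩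
    rintro _ ⟨x, hx, rfl⟩
    obtain ⟨j, hj⟩ := T.isPGroup' ⟨x, hx⟩
    exact (show PElt k x from ⟨j, congrArg Subtype.val hj⟩).map L.subtype
  have hMT : M.subgroupOf L ⊔ (T : Subgroup L) = ⊤ := by
    have : (M.subgroupOf L).Normal := normal_subgroupOf
    refine CCoreB_sup hk (M.subgroupOf L) (fun x => ?_) T
    obtain ⟨j, hj⟩ := hLM x.1 x.2
    exact ⟨j, by rw [mem_subgroupOf]; exact hj⟩
  have hdec : ∀ x ∈ L, ∃ y ∈ M, ∃ t ∈ (T : Subgroup L).map L.subtype, x = y * t := by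
    intro x hx
    have : (M.subgroupOf L).Normal := normal_subgroupOf
    have h1 : (⟨x, hx⟩ : L) ∈ M.subgroupOf L ⊔ (T : Subgroup L) := by rw [hMT]; exact mem_top _
    rw [← SetLike.mem_coe, normal_mul] at h1
    obtain ⟨y, hy, t, ht, hyt⟩ := h1
    exact ⟨y, mem_subgroupOf.1 hy, t, ⟨t, ht, rfl⟩, (congrArg Subtype.val hyt).symm⟩
  have hfr := Sylow.normalizer_sup_eq_top T
  have hS2 : ∀ s ∈ S, ∀ x ∈ L, s * x * s⁻¹ * x⁻¹ ∈ M := by
    intro s hs x hx
    have h1 : s⁻¹ ∈ normalizer (((T : Subgroup L).map L.subtype : Subgroup D) : Set D) ⊔ L := by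
      rw [hfr]; exact mem_top _
    rw [← SetLike.mem_coe, mul_normal] at h1
    obtain ⟨b, hb, l, hl, hbl⟩ := h1
    obtain ⟨y, hy, t, ht, hyt⟩ := hdec l hl
    obtain ⟨a, ha, ha2⟩ : ∃ a ∈ normalizer (((T : Subgroup L).map L.subtype : Subgroup D) : Set D),
        s⁻¹ * a ∈ M := by
      refine ⟨(b * t)⁻¹, inv_mem (mul_mem hb (le_normalizer ht)), ?_⟩
      have h2 : s⁻¹ = b * (y * t) := by rw [← hyt]; exact hbl.symm
      rw [h2]
      have h3 : b * (y * t) * (b * t)⁻¹ = b * y * b⁻¹ := by group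
      rw [h3]
      exact hM.conj_mem y hy b
    obtain ⟨c, hc1, hc2⟩ := CCoreB_part hm M a s hM (hS s hs) ha2
    have hac : a ^ c ∈ normalizer (((T : Subgroup L).map L.subtype : Subgroup D) : Set D) :=
      pow_mem ha c
    obtain ⟨y2, hy2, t2, ht2, hx2⟩ := hdec x hx
    have h4 := hNM (hc k hk hkm (a ^ c) hc1 _ hTT hac t2 ht2)
    have e1 : (QuotientGroup.mk' M) (a ^ c) = (QuotientGroup.mk' M) s := by
      have h2 : (QuotientGroup.mk' M) (s⁻¹ * a ^ c) = 1 := by
        rw [← MonoidHom.mem_ker, QuotientGroup.ker_mk']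
        exact hc2
      rw [map_mul, map_inv, inv_mul_eq_one] at h2
      exact h2.symm
    have e2 : (QuotientGroup.mk' M) x = (QuotientGroup.mk' M) t2 := by
      have h2 : (QuotientGroup.mk' M) y2 = 1 := by
        rw [← MonoidHom.mem_ker, QuotientGroup.ker_mk']
        exact hy2
      rw [hx2, map_mul, h2, one_mul]
    rw [← QuotientGroup.ker_mk' M, MonoidHom.mem_ker] at h4 ⊢
    simp only [map_mul, map_inv] at h4 ⊢
    rw [e1] at h4
    rw [e2]
    exact h4
  -- the image of `L` is central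
  have hcen : (L.map (QuotientGroup.mk' M)) ≤ center (D ⧸ M) := by
    rintro _ ⟨x, hx, rfl⟩
    rw [mem_center_iff]
    intro g
    obtain ⟨d, rfl⟩ := QuotientGroup.mk'_surjective M g
    have h5 : d ∈ Subgroup.closure S := by rw [hDS]; exact mem_top _
    have h6 : Subgroup.closure S ≤ (centralizer {QuotientGroup.mk' M x}).comap
        (QuotientGroup.mk' M) := by
      rw [closure_le]
      intro s hs
      rw [SetLike.mem_coe, mem_comap, mem_centralizer_singleton_iff]
      have h7 := hS2 s hs x hx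
      rw [← QuotientGroup.ker_mk' M, MonoidHom.mem_ker] at h7
      simp only [map_mul, map_inv] at h7
      rw [mul_inv_eq_one, mul_inv_eq_iff_eq_mul] at h7
      exact h7
    have h8 := h6 h5
    rw [mem_comap, mem_centralizer_singleton_iff] at h8
    exact h8
  have hnorm : (L.map (QuotientGroup.mk' M)).Normal :=
    hL.map _ (QuotientGroup.mk'_surjective M)
  have hpq : IsPGroup m ((D ⧸ M) ⧸ L.map (QuotientGroup.mk' M)) := by
    intro z
    obtain ⟨w, rfl⟩ := QuotientGroup.mk'_surjective _ z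
    obtain ⟨d, rfl⟩ := QuotientGroup.mk'_surjective M w
    obtain ⟨j, hj⟩ := hDL d
    refine ⟨j, ?_⟩
    rw [← map_pow, ← map_pow, ← MonoidHom.mem_ker, QuotientGroup.ker_mk']
    exact ⟨_, hj, rfl⟩
  have hnil : Group.IsNilpotent (D ⧸ M) := by
    have h9 : Group.IsNilpotent ((D ⧸ M) ⧸ L.map (QuotientGroup.mk' M)) := hpq.isNilpotent
    refine Subgroup.isNilpotent_of_ker_le_center
      (QuotientGroup.mk' (L.map (QuotientGroup.mk' M))) ?_
    rw [QuotientGroup.ker_mk']
    exact hcen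
  have hall : ∀ d : D, PElt m (QuotientGroup.mk' M d) := by
    intro d
    have h5 : d ∈ Subgroup.closure S := by rw [hDS]; exact mem_top _
    induction h5 using closure_induction with
    | mem x hx => exact (hS x hx).map _
    | one => rw [map_one]; exact PElt.one m
    | mul x y _ _ hx hy => rw [map_mul]; exact pelt_mul_of_nilpotent hnil hm hx hy
    | inv x _ hx => rw [map_inv]; exact hx.inv
  apply hne
  refine le_antisymm hML fun x hx => ?_
  obtain ⟨j, hj⟩ := hLM x hx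
  have h10 : PElt k (QuotientGroup.mk' M x) := by
    refine ⟨j, ?_⟩
    rw [← map_pow, ← MonoidHom.mem_ker, QuotientGroup.ker_mk']
    exact hj
  have h11 := PElt.eq_one hk hm hkm h10 (hall x)
  rw [← MonoidHom.mem_ker, QuotientGroup.ker_mk'] at h11
  exact h11

end Pool.Agent.Lib.MP_032401_al_M
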