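import Pool.Agent.Lib.MP_032401_al_M.Syl

/-!
# MP_032401_al (project BFM): a factorisation with a Sylow subgroup
-/

set_option autoImplicit false

namespace Pool.Agent.Lib.MP_032401_al_M

open Subgroup

variable {G : Type*} [Group G] {k : ℕ}

/-- The same in a finite group. -/
theorem Fac_aux {D : Type*} [Group D] [Finite D] (hk : k.Prime) (W : Subgroup D) [W.Normal]
    (hp : ∀ d : D, ∃ m : ℕ, d ^ k ^ m ∈ W) (S : Sylow k D) : W ⊔ (S : Subgroup D) = ⊤ := by
  have hfact : Fact k.Prime := ⟨hk⟩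
  have h1 : IsPGroup k (D ⧸ W) := by
    intro q
    obtain ⟨d, rfl⟩ := QuotientGroup.mk_surjective q
    obtain ⟨m, hm⟩ := hp d
    exact ⟨m, by rw [← QuotientGroup.mk_pow, QuotientGroup.eq_one_iff]; exact hm⟩
  obtain ⟨n, hn⟩ := IsPGroup.iff_card.1 h1
  have h2 : (W ⊔ (S : Subgroup D)).index ∣ k ^ n := by
    rw [← hn, ← Subgroup.index_eq_card]
    exact Subgroup.index_dvd_of_le le_sup_left
  have h3 : (W ⊔ (S : Subgroup D)).index ∣ (S : Subgroup D).index :=
    Subgroup.index_dvd_of_le le_sup_right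
  have h4 : ¬ k ∣ (S : Subgroup D).index := S.not_dvd_index
  obtain ⟨j, _, hj⟩ := (Nat.dvd_prime_pow hk).1 h2
  rcases Nat.eq_zero_or_pos j with h0 | h0
  · rw [h0, pow_zero] at hj
    exact Subgroup.index_eq_one.1 hj
  · exfalso
    apply h4
    refine Dvd.dvd.trans ?_ h3
    rw [hj]
    exact dvd_pow_self k h0.ne'

/-- A factorisation: `W` normal in the finite group `D`, every element of `D` has a `k`-power
power in `W`, and `R` a Sylow `k`-subgroup. Proof. Work in the finite type `D` (`Sylow k D`,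
`IsSyl.exists_sylow`). Let `W' = W.subgroupOf D`, normal; `D ⧸ W'` is a `k`-group, so its order is
a power of `k`. The subgroup `W' ⊔ R'` has index dividing `|D : W'|` (a power of `k`) and
`|D : R'|` (prime to `k`), so it is `⊤`, and `W' ⊔ R' = W' * R'` as a set
(`Subgroup.mul_normal`, `Subgroup.normal_mul`, `Subgroup.mem_sup_of_normal_left`-type lemmas). -/
theorem factor (hk : k.Prime) {D W R : Subgroup G} (hD : (D : Set G).Finite) (hW : W ≤ D)
    (hn : D ≤ normalizer (W : Set G)) (hp : ∀ d ∈ D, ∃ m : ℕ, d ^ k ^ m ∈ W) (hR : IsSyl k D R) :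
    ∀ d ∈ D, ∃ w ∈ W, ∃ r ∈ R, d = w * r := by
  intro d hd
  have hfin : Finite D := hD.to_subtype
  obtain ⟨S, hS⟩ := hR.exists_sylow hD
  have hnor : (W.subgroupOf D).Normal := Subgroup.normal_subgroupOf_of_le_normalizer hn
  have h1 := Fac_aux hk (W.subgroupOf D) (fun x => by
    obtain ⟨m, hm⟩ := hp x.1 x.2
    exact ⟨m, hm⟩) S
  have h2 : (⟨d, hd⟩ : D) ∈ W.subgroupOf D ⊔ (S : Subgroup D) := by
    rw [h1]
    exact Subgroup.mem_top _
  obtain ⟨w, hw, r, hr, h3⟩ := (Subgroup.mem_sup_of_normal_left).1 h2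
  refine ⟨w.1, hw, r.1, ?_, ?_⟩
  · rw [← hS]
    exact ⟨r, hr, rfl⟩
  · exact (congrArg Subtype.val h3).symm

end Pool.Agent.Lib.MP_032401_al_M
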