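import Pool.Agent.Lib.MP_032401_al_M.CCoreA
import Pool.Agent.Lib.MP_032401_al_M.CCoreB
import Pool.Agent.Lib.MP_032401_al_M.Fac

/-!
# MP_032401_al (project CS): finite solvable groups generated by `m`-elements, modulo `ρ`
-/

set_option autoImplicit false

namespace Pool.Agent.Lib.MP_032401_al_M

open Subgroup

variable {G : Type*} [Group G]

private theorem CCore_norm {D : Subgroup G} {Y : Subgroup D} {u : D}
    (hu : u ∈ normalizer (Y : Set D)) : (u : G) ∈ normalizer (Y.map D.subtype : Set G) := by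
  rw [Subgroup.mem_normalizer_iff] at hu ⊢
  intro h
  constructor
  · rintro ⟨z, hz, rfl⟩
    exact ⟨u * z * u⁻¹, (hu z).1 hz, rfl⟩
  · rintro ⟨z, hz, hzh⟩
    have h1 : u * (u⁻¹ * z * u) * u⁻¹ = z := by group
    have h2 : u⁻¹ * z * u ∈ Y := (hu _).2 (by rw [h1]; exact hz)
    refine ⟨u⁻¹ * z * u, h2, ?_⟩
    have h3 : (z : G) = u * h * (u : G)⁻¹ := hzh
    change (u : G)⁻¹ * z * u = h
    rw [h3]
    group

private theorem CCore_triv {m : ℕ} {ρ D : Subgroup G} (hc : Triv m ρ) :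
    Triv m (ρ.subgroupOf D) := by
  intro k hk hkm u hu Y hY hn y hy
  have h1 : PSub k (Y.map D.subtype) := by
    refine ⟨?_, ?_⟩
    · rw [Subgroup.coe_map]
      exact hY.1.image _
    · rintro _ ⟨z, hz, rfl⟩
      exact (hY.2 z hz).map D.subtype
  exact hc k hk hkm (u : G) (hu.map D.subtype) (Y.map D.subtype) h1 (CCore_norm hn) (y : G)
    ⟨y, hy, rfl⟩

/-- Proof. Work in the finite solvable group (type) `D`, generated by the `m`-elements of `S`
(`closure` of the preimage of `S` is `⊤`), with the normal subgroup `N = ρ.subgroupOf D`.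
`Triv m N` holds in the type `D`: for `u : D` an `m`-element and `Y` a finite `k`-subgroup of `D`
normalised by `u` the image of `Y` in `G` is a finite `k`-subgroup normalised by the image of `u`.
If `D / N` is not an `m`-group, `core_section` and `core_frattini` give a contradiction. So every
`d ∈ D` has `d ^ m ^ j ∈ ρ ⊓ D` for some `j`, and `factor` (in `Fac.lean`, with
`W = ρ ⊓ D`) gives the result. -/
theorem core_rho {m : ℕ} (hm : m.Prime) (ρ : Subgroup G)
    (hρ : ∀ g : G, ∀ x ∈ ρ, g * x * g⁻¹ ∈ ρ) (hc : Triv m ρ) {D : Subgroup G}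
    (hD : (D : Set G).Finite) (hsol : Group.IsSolvable D) {S : Set G} (hS : ∀ s ∈ S, PElt m s)
    (hDS : Subgroup.closure S = D) {R : Subgroup G} (hR : IsSyl m D R) :
    ∀ d ∈ D, ∃ f ∈ ρ, ∃ r ∈ R, d = f * r := by
  have hfin : Finite D := hD.to_subtype
  have hN : (ρ.subgroupOf D).Normal := by
    refine ⟨fun x hx g => ?_⟩
    exact hρ (g : G) (x : G) hx
  have hS' : ∀ s ∈ (D.subtype ⁻¹' S), PElt m s := fun s hs =>
    PElt.of_map D.subtype_injective (hS _ hs)
  have hcl : Subgroup.closure (D.subtype ⁻¹' S) = ⊤ := by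
    subst hDS
    exact Subgroup.closure_closure_coe_preimage
  have hT : Triv m (ρ.subgroupOf D) := CCore_triv hc
  have hp : ∀ d : D, ∃ j : ℕ, d ^ m ^ j ∈ ρ.subgroupOf D := by
    by_contra h
    obtain ⟨L, M, k, hL, hM, hNM, hML, hne, hk, hkm, hDL, hLM⟩ := core_section hm _ hN h
    exact core_frattini hm hk hkm hS' hcl _ L M hN hL hM hNM hML hne hDL hLM hT
  have hn : D ≤ normalizer ((ρ ⊓ D : Subgroup G) : Set G) := by
    intro d hd
    rw [Subgroup.mem_normalizer_iff]
    intro h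
    constructor
    · rintro ⟨h1, h2⟩
      exact ⟨hρ d h h1, D.mul_mem (D.mul_mem hd h2) (D.inv_mem hd)⟩
    · rintro ⟨h1, h2⟩
      have h3 : d⁻¹ * (d * h * d⁻¹) * (d⁻¹)⁻¹ = h := by group
      refine ⟨?_, ?_⟩
      · have h4 := hρ d⁻¹ _ h1
        rwa [h3] at h4
      · have h4 := D.mul_mem (D.mul_mem (D.inv_mem hd) h2) (D.inv_mem (D.inv_mem hd))
        rwa [h3] at h4
  intro d hd
  obtain ⟨w, hw, r, hr, h⟩ := factor hm hD (inf_le_right : ρ ⊓ D ≤ D) hn (fun d hd => by
    obtain ⟨j, hj⟩ := hp ⟨d, hd⟩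
    exact ⟨j, hj, D.pow_mem hd _⟩) hR d hd
  exact ⟨w, hw.1, r, hr, h⟩

end Pool.Agent.Lib.MP_032401_al_M
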