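import Pool.Agent.Lib.MP_032401_al_M.CDefs

/-!
# MP_032401_al (project CS): a section of a finite solvable group
-/

set_option autoImplicit false

namespace Pool.Agent.Lib.MP_032401_al_M

open Subgroup
open scoped commutatorElement

/-- The elements of `L` whose order modulo `K` is prime to `k`. -/
private def CCoreA_M {D : Type*} [Group D] (L : Subgroup D) (N : Subgroup D) [L.Normal]
    [N.Normal] (k : ℕ) (hk : k.Prime) : Subgroup D where
  carrier := {x | x ∈ L ∧ ∃ n : ℕ, ¬ k ∣ n ∧ x ^ n ∈ ⁅L, L⁆ ⊔ N}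
  mul_mem' := by
    rintro x y ⟨hx, n, hn, hxn⟩ ⟨hy, n', hn', hyn⟩
    refine ⟨L.mul_mem hx hy, n * n', fun h => ?_, ?_⟩
    · rcases (hk.dvd_mul).1 h with h | h
      · exact hn h
      · exact hn' h
    · rw [← QuotientGroup.eq_one_iff] at hxn hyn ⊢
      have hc : Commute ((x : D) : D ⧸ (⁅L, L⁆ ⊔ N)) ((y : D) : D ⧸ (⁅L, L⁆ ⊔ N)) := by
        rw [← commutatorElement_eq_one_iff_commute]
        have h1 : ⁅x, y⁆ ∈ ⁅L, L⁆ ⊔ N :=
          (le_sup_left : ⁅L, L⁆ ≤ ⁅L, L⁆ ⊔ N) (commutator_mem_commutator hx hy)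
        exact (QuotientGroup.eq_one_iff _).2 h1
      rw [QuotientGroup.mk_pow] at hxn hyn ⊢
      rw [QuotientGroup.mk_mul, hc.mul_pow, pow_mul, hxn, one_pow, one_mul, mul_comm n n',
        pow_mul, hyn, one_pow]
  one_mem' := ⟨L.one_mem, 1, hk.one_lt.ne' ∘ Nat.dvd_one.1, by
    rw [one_pow]
    exact Subgroup.one_mem _⟩
  inv_mem' := by
    rintro x ⟨hx, n, hn, hxn⟩
    refine ⟨L.inv_mem hx, n, hn, ?_⟩
    rw [inv_pow]
    exact Subgroup.inv_mem _ hxn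

private theorem CCoreA_mem {D : Type*} [Group D] {L N : Subgroup D} [L.Normal] [N.Normal] {k : ℕ}
    {hk : k.Prime} {x : D} : x ∈ CCoreA_M L N k hk ↔
      x ∈ L ∧ ∃ n : ℕ, ¬ k ∣ n ∧ x ^ n ∈ ⁅L, L⁆ ⊔ N := Iff.rfl

private theorem CCoreA_normal {D : Type*} [Group D] (L N : Subgroup D) [hL : L.Normal]
    [hN : N.Normal] (k : ℕ) (hk : k.Prime) : (CCoreA_M L N k hk).Normal := by
  refine ⟨fun x hx g => ?_⟩
  obtain ⟨hx, n, hn, hxn⟩ := hx
  refine ⟨hL.conj_mem x hx g, n, hn, ?_⟩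
  rw [conj_pow]
  have hK : (⁅L, L⁆ ⊔ N).Normal := inferInstance
  exact hK.conj_mem _ hxn g

private theorem CCoreA_pow {D : Type*} [Group D] [Finite D] {L N : Subgroup D} [L.Normal]
    [N.Normal] {k : ℕ} (hk : k.Prime) {x : D} (hx : x ∈ L) :
    ∃ j : ℕ, x ^ k ^ j ∈ CCoreA_M L N k hk := by
  obtain ⟨e, n', h1, h2⟩ := Nat.exists_eq_pow_mul_and_not_dvd
    (orderOf_pos x).ne' k hk.one_lt.ne'
  refine ⟨e, L.pow_mem hx _, n', h1, ?_⟩
  rw [← pow_mul, ← h2, pow_orderOf_eq_one]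
  exact Subgroup.one_mem _

/-- If the finite solvable group `D` modulo `N` is not an `m`-group, there are normal subgroups
`N ≤ M < L` and a prime `k ≠ m` such that `D / L` is an `m`-group and `L / M` is a `k`-group.

Proof. Let `L` be a normal subgroup of `D` of least order with `N ≤ L` and `D / L` an `m`-group
(`∀ d, ∃ j, d ^ m ^ j ∈ L`; `⊤` is one). `L ≠ N`, since `D / N` is not an `m`-group. `L` is
solvable, and so is `L / N`, so `K = ⁅L, L⁆ ⊔ N ≠ L` (otherwise `L / N` is perfect and solvable,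
so trivial: e.g. `Group.IsSolvable` of `L ⧸ N.subgroupOf L`, `Group.IsSolvable.commutator_lt_top_of_nontrivial`),
`K` is normal in `D`, and `L / K` is abelian. For a prime `k` let
`M k = {x ∈ L | ∃ n, ¬ k ∣ n ∧ x ^ n ∈ K}`: it is a normal subgroup of `D` (`L / K` is abelian)
with `K ≤ M k ≤ L`, and `L / M k` is a `k`-group (write the order of `x` modulo `K` as
`k ^ j * n`, `¬ k ∣ n`; then `(x ^ k ^ j) ^ n ∈ K`). If `M k = L` for all primes `k` then
`L / K` has no elements of prime order (Cauchy), so `L = K`. So `M k ≠ L` for some prime `k`, and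
`k ≠ m`: otherwise `D / M m` would be an `m`-group (`d ^ m ^ j ∈ L`, `(d ^ m ^ j) ^ m ^ i ∈ M m`),
against the minimality of `L`. Take `M = M k`. -/
theorem core_section {D : Type*} [Group D] [Finite D] [Group.IsSolvable D] {m : ℕ} (hm : m.Prime)
    (N : Subgroup D) (hN : N.Normal) (h : ¬ ∀ d : D, ∃ j : ℕ, d ^ m ^ j ∈ N) :
    ∃ (L M : Subgroup D) (k : ℕ), L.Normal ∧ M.Normal ∧ N ≤ M ∧ M ≤ L ∧ M ≠ L ∧ k.Prime ∧
      k ≠ m ∧ (∀ d : D, ∃ j : ℕ, d ^ m ^ j ∈ L) ∧ (∀ x ∈ L, ∃ j : ℕ, x ^ k ^ j ∈ M) := by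
  obtain ⟨L, ⟨hLn, hNL, hLp⟩, hmin⟩ := (measure fun L : Subgroup D => Nat.card L).wf.has_min
    {L : Subgroup D | L.Normal ∧ N ≤ L ∧ ∀ d : D, ∃ j : ℕ, d ^ m ^ j ∈ L}
    ⟨⊤, inferInstance, le_top, fun d => ⟨0, mem_top _⟩⟩
  have hKL : ⁅L, L⁆ ⊔ N ≤ L := sup_le L.commutator_le_self hNL
  have hKne : ⁅L, L⁆ ⊔ N ≠ L := by
    intro hK
    have h1 : ⁅L.map (QuotientGroup.mk' N), L.map (QuotientGroup.mk' N)⁆ =
        L.map (QuotientGroup.mk' N) := by
      rw [← map_commutator]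
      conv_rhs => rw [← hK, Subgroup.map_sup]
      have h2 : N.map (QuotientGroup.mk' N) = ⊥ := by
        rw [Subgroup.map_eq_bot_iff, QuotientGroup.ker_mk']
      rw [h2, sup_bot_eq]
    have h3 : L.map (QuotientGroup.mk' N) = ⊥ := by
      by_contra h4
      exact (Group.IsSolvable.commutator_lt_of_ne_bot h4).ne h1
    rw [Subgroup.map_eq_bot_iff, QuotientGroup.ker_mk'] at h3
    apply h
    intro d
    obtain ⟨j, hj⟩ := hLp d
    exact ⟨j, h3 hj⟩
  have hex : ∃ (k : ℕ) (hk : k.Prime), CCoreA_M L N k hk ≠ L := by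
    by_contra hcon
    push Not at hcon
    apply hKne
    refine le_antisymm hKL fun x hx => ?_
    rw [← QuotientGroup.eq_one_iff, ← orderOf_eq_one_iff]
    by_contra ho
    obtain ⟨k, hk, hkd⟩ := Nat.exists_prime_and_dvd ho
    have h1 := hcon k hk
    rw [← h1] at hx
    obtain ⟨-, n, hn, hxn⟩ := hx
    apply hn
    refine hkd.trans ?_
    rw [orderOf_dvd_iff_pow_eq_one, ← QuotientGroup.mk_pow, QuotientGroup.eq_one_iff]
    exact hxn
  obtain ⟨k, hk, hne⟩ := hex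
  have hMle : CCoreA_M L N k hk ≤ L := fun x hx => hx.1
  have hKM : ⁅L, L⁆ ⊔ N ≤ CCoreA_M L N k hk := fun x hx =>
    ⟨hKL hx, 1, hk.one_lt.ne' ∘ Nat.dvd_one.1, by rwa [pow_one]⟩
  have hMn := CCoreA_normal L N k hk
  refine ⟨L, CCoreA_M L N k hk, k, hLn, hMn, le_sup_right.trans hKM, hMle, hne, hk, ?_, hLp,
    fun x hx => CCoreA_pow hk hx⟩
  rintro rfl
  refine hmin (CCoreA_M L N k hk) ⟨hMn, le_sup_right.trans hKM, fun d => ?_⟩ ?_
  · obtain ⟨j, hj⟩ := hLp d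
    obtain ⟨i, hi⟩ := CCoreA_pow (N := N) hk hj
    refine ⟨j + i, ?_⟩
    rw [pow_add, pow_mul]
    exact hi
  · change Nat.card _ < Nat.card _
    have h1 := lt_of_le_of_ne hMle hne
    by_contra h2
    rw [not_lt] at h2
    have := Subgroup.eq_of_le_of_card_ge hMle h2
    exact hne this

end Pool.Agent.Lib.MP_032401_al_M
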