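import Pool.Agent.Lib.MP_032401_al_M.PSub

/-!
# MP_032401_al (project BFM): conjugate subgroups
-/

set_option autoImplicit false

namespace Pool.Agent.Lib.MP_032401_al_M

open Subgroup

variable {G : Type*} [Group G] {p : ℕ}

/-- the conjugate `w⁻¹ P w` -/
def cj (w : G) (P : Subgroup G) : Subgroup G := P.comap (MulAut.conj w).toMonoidHom

theorem mem_cj {w t : G} {P : Subgroup G} : t ∈ cj w P ↔ w * t * w⁻¹ ∈ P := Iff.rfl

theorem cj_mono (w : G) {P Q : Subgroup G} (h : P ≤ Q) : cj w P ≤ cj w Q := fun _ hx => h hx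

theorem cj_cj_inv (w : G) (P : Subgroup G) : cj w (cj w⁻¹ P) = P := by
  ext t
  rw [mem_cj, mem_cj]
  have h : w⁻¹ * (w * t * w⁻¹) * w⁻¹⁻¹ = t := by group
  rw [h]

theorem cj_inv_cj (w : G) (P : Subgroup G) : cj w⁻¹ (cj w P) = P := by
  ext t
  rw [mem_cj, mem_cj]
  have h : w * (w⁻¹ * t * w⁻¹⁻¹) * w⁻¹ = t := by group
  rw [h]

theorem PSub.cj {P : Subgroup G} (hP : PSub p P) (w : G) : PSub p (cj w P) := by
  refine ⟨?_, ?_⟩
  · exact hP.1.preimage (f := fun t : G => w * t * w⁻¹) (fun a _ b _ h => by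
      have h' : w * a * w⁻¹ = w * b * w⁻¹ := h
      exact mul_left_cancel (mul_right_cancel h'))
  · intro t ht
    have h := (hP.2 _ (mem_cj.1 ht)).conj w⁻¹
    have h2 : w⁻¹ * (w * t * w⁻¹) * w⁻¹⁻¹ = t := by group
    rwa [h2] at h

end Pool.Agent.Lib.MP_032401_al_M
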