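import Pool.Agent.Lib.MP_032401_al_M.PSub

/-!
# MP_032401_al (project BFM): locally finite subgroups and the locally finite radical
-/

set_option autoImplicit false

namespace Pool.Agent.Lib.MP_032401_al_M

open Subgroup

variable {G : Type*} [Group G]

/-- every finite subset of `K` generates a finite subgroup -/
def LF (K : Subgroup G) : Prop :=
  ∀ S : Set G, S.Finite → S ⊆ K → ((closure S : Subgroup G) : Set G).Finite

theorem LF.mono {A B : Subgroup G} (hB : LF B) (h : A ≤ B) : LF A :=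
  fun S hS hSA => hB S hS fun _ hx => h (hSA hx)

theorem LF.of_finite {A : Subgroup G} (hA : (A : Set G).Finite) : LF A :=
  fun _ _ hSA => hA.subset ((closure_le A).2 hSA)

theorem LF.sup {A B : Subgroup G} (hA : LF A) (hB : LF B) (hN : B ≤ normalizer (A : Set G)) :
    LF (A ⊔ B) := by
  intro S hS hSAB
  have hdec : ∀ x : G, ∃ a b : G, x ∈ A ⊔ B → a ∈ A ∧ b ∈ B ∧ a * b = x := by
    intro x
    by_cases hx : x ∈ A ⊔ B
    · have hx' : x ∈ ((A ⊔ B : Subgroup G) : Set G) := hx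
      rw [Subgroup.coe_mul_of_right_le_normalizer_left A B hN] at hx'
      obtain ⟨a, ha, b, hb, h1⟩ := hx'
      exact ⟨a, b, fun _ => ⟨ha, hb, h1⟩⟩
    · exact ⟨1, 1, fun h => absurd h hx⟩
  choose a b hab using hdec
  have hTf := hB (b '' S) (hS.image b) (by
    rintro _ ⟨x, hx, rfl⟩
    exact (hab x (hSAB hx)).2.1)
  have hTB : closure (b '' S) ≤ B := by
    rw [closure_le]
    rintro _ ⟨x, hx, rfl⟩
    exact (hab x (hSAB hx)).2.1
  set T := closure (b '' S) with hT
  let E : Set G := {z | ∃ g ∈ T, ∃ x ∈ S, g * a x * g⁻¹ = z}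
  have hEf : E.Finite := by
    refine (Set.Finite.image (fun z : G × G => z.1 * a z.2 * z.1⁻¹) (hTf.prod hS)).subset ?_
    rintro z ⟨g, hg, x, hx, rfl⟩
    exact ⟨(g, x), ⟨hg, hx⟩, rfl⟩
  have hEA : E ⊆ A := by
    rintro _ ⟨g, hg, x, hx, rfl⟩
    exact (mem_normalizer_iff.1 (hN (hTB hg)) _).1 (hab x (hSAB hx)).1
  have hA'f := hA E hEf hEA
  have hTN : T ≤ normalizer ((closure E : Subgroup G) : Set G) := by
    rw [Subgroup.le_normalizer_closure_iff]
    rintro k hk _ ⟨g, hg, x, hx, rfl⟩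
    exact subset_closure ⟨k * g, mul_mem hk hg, x, hx, by group⟩
  refine (sup_finite hA'f hTf hTN).subset ?_
  have h1 : closure S ≤ closure E ⊔ T := by
    rw [closure_le]
    intro x hx
    have h2 : a x ∈ closure E := subset_closure ⟨1, one_mem _, x, hx, by group⟩
    have h3 : b x ∈ T := subset_closure ⟨x, hx, rfl⟩
    have h4 : a x * b x ∈ closure E ⊔ T :=
      mul_mem ((le_sup_left : _ ≤ closure E ⊔ T) h2) ((le_sup_right : _ ≤ closure E ⊔ T) h3)
    rw [(hab x (hSAB hx)).2.2] at h4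
    exact h4
  exact h1

/-- a finite subset of `closure S` is contained in `closure T` for a finite `T ⊆ S` -/
theorem exists_finite_subset {S : Set G} {X : Set G} (hX : X.Finite) (h : X ⊆ closure S) :
    ∃ T : Set G, T.Finite ∧ T ⊆ S ∧ X ⊆ closure T := by
  have h1 : ∀ x ∈ closure S, ∃ T : Set G, T.Finite ∧ T ⊆ S ∧ x ∈ closure T := by
    intro x hx
    induction hx using closure_induction with
    | mem z hz => exact ⟨{z}, Set.finite_singleton z, by simpa using hz, subset_closure rfl⟩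
    | one => exact ⟨∅, Set.finite_empty, Set.empty_subset S, one_mem _⟩
    | mul x y _ _ hx hy =>
      obtain ⟨T, h1, h2, h3⟩ := hx
      obtain ⟨T', h4, h5, h6⟩ := hy
      exact ⟨T ∪ T', h1.union h4, Set.union_subset h2 h5,
        mul_mem (closure_mono Set.subset_union_left h3) (closure_mono Set.subset_union_right h6)⟩
    | inv x _ hx =>
      obtain ⟨T, h1, h2, h3⟩ := hx
      exact ⟨T, h1, h2, inv_mem h3⟩
  induction X, hX using Set.Finite.induction_on with
  | empty => exact ⟨∅, Set.finite_empty, Set.empty_subset S, Set.empty_subset _⟩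
  | @insert a s _ _ ih =>
    obtain ⟨T, h2, h3, h4⟩ := ih fun x hx => h (Set.mem_insert_of_mem a hx)
    obtain ⟨T', h5, h6, h7⟩ := h1 a (h (Set.mem_insert a s))
    refine ⟨T ∪ T', h2.union h5, Set.union_subset h3 h6, ?_⟩
    rintro x (rfl | hx)
    · exact closure_mono Set.subset_union_right h7
    · exact closure_mono Set.subset_union_left (h4 hx)

theorem LF.of_closure {S : Set G}
    (h : ∀ T : Set G, T.Finite → T ⊆ S → ((closure T : Subgroup G) : Set G).Finite) :
    LF (closure S) := by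
  intro X hX hXS
  obtain ⟨T, h1, h2, h3⟩ := exists_finite_subset hX hXS
  exact (h T h1 h2).subset ((closure_le _).2 h3)

/-! ### the radical of a subgroup -/

theorem sup_normalizer {A B K : Subgroup G} (hA : K ≤ normalizer (A : Set G))
    (hB : K ≤ normalizer (B : Set G)) : K ≤ normalizer ((A ⊔ B : Subgroup G) : Set G) := by
  rw [Subgroup.le_normalizer_iff]
  intro k hk x hx
  have h1 : A ⊔ B ≤ (A ⊔ B).comap (MulAut.conj k).toMonoidHom := by
    refine sup_le (fun y hy => ?_) (fun y hy => ?_)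
    · exact (le_sup_left : A ≤ A ⊔ B) ((mem_normalizer_iff.1 (hA hk) y).1 hy)
    · exact (le_sup_right : B ≤ A ⊔ B) ((mem_normalizer_iff.1 (hB hk) y).1 hy)
  exact h1 hx

/-- the locally finite radical of `K` -/
def rad (K : Subgroup G) : Subgroup G where
  carrier := {x | ∃ V : Subgroup G, V ≤ K ∧ K ≤ normalizer (V : Set G) ∧ LF V ∧ x ∈ V}
  one_mem' := ⟨⊥, bot_le, by rw [normalizer_eq_top]; exact le_top, LF.of_finite (by simp),
    one_mem _⟩
  mul_mem' := by
    rintro x y ⟨V, h1, h2, h3, h4⟩ ⟨W, h5, h6, h7, h8⟩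
    exact ⟨V ⊔ W, sup_le h1 h5, sup_normalizer h2 h6, h3.sup h7 (h5.trans h2),
      mul_mem ((le_sup_left : V ≤ V ⊔ W) h4) ((le_sup_right : W ≤ V ⊔ W) h8)⟩
  inv_mem' := by
    rintro x ⟨V, h1, h2, h3, h4⟩
    exact ⟨V, h1, h2, h3, inv_mem h4⟩

theorem mem_rad {K : Subgroup G} {x : G} : x ∈ rad K ↔
    ∃ V : Subgroup G, V ≤ K ∧ K ≤ normalizer (V : Set G) ∧ LF V ∧ x ∈ V := Iff.rfl

theorem rad_le (K : Subgroup G) : rad K ≤ K := by
  rintro x ⟨V, h1, _, _, h4⟩
  exact h1 h4

theorem le_normalizer_rad (K : Subgroup G) : K ≤ normalizer ((rad K : Subgroup G) : Set G) := by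
  rw [Subgroup.le_normalizer_iff]
  rintro k hk x ⟨V, h1, h2, h3, h4⟩
  exact ⟨V, h1, h2, h3, (mem_normalizer_iff.1 (h2 hk) x).1 h4⟩

theorem LF_rad (K : Subgroup G) : LF (rad K) := by
  have h1 : ∀ S : Set G, S.Finite → S ⊆ rad K →
      ∃ V : Subgroup G, V ≤ K ∧ K ≤ normalizer (V : Set G) ∧ LF V ∧ S ⊆ V := by
    intro S hS
    induction S, hS using Set.Finite.induction_on with
    | empty =>
      intro _
      exact ⟨⊥, bot_le, by rw [normalizer_eq_top]; exact le_top, LF.of_finite (by simp),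
        Set.empty_subset _⟩
    | @insert a s _ _ ih =>
      intro h
      obtain ⟨V, h1, h2, h3, h4⟩ := ih fun x hx => h (Set.mem_insert_of_mem a hx)
      obtain ⟨W, h5, h6, h7, h8⟩ := h (Set.mem_insert a s)
      refine ⟨V ⊔ W, sup_le h1 h5, sup_normalizer h2 h6, h3.sup h7 (h5.trans h2), ?_⟩
      rintro x (rfl | hx)
      · exact (le_sup_right : W ≤ V ⊔ W) h8
      · exact (le_sup_left : V ≤ V ⊔ W) (h4 hx)
  intro S hS hSK
  obtain ⟨V, _, _, h3, h4⟩ := h1 S hS hSK
  exact h3 S hS h4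

/-- conjugates of locally finite subgroups are locally finite -/
theorem LF.conj {V : Subgroup G} (hV : LF V) (g : G) :
    LF (V.map (MulAut.conj g).toMonoidHom) := by
  intro S hS hSV
  have h1 : S = (MulAut.conj g).toMonoidHom '' ((MulAut.conj g).symm '' S) := by
    ext x
    constructor
    · intro hx
      exact ⟨(MulAut.conj g).symm x, ⟨x, hx, rfl⟩, (MulAut.conj g).apply_symm_apply x⟩
    · rintro ⟨_, ⟨y, hy, rfl⟩, rfl⟩
      have h2 : (MulAut.conj g).toMonoidHom ((MulAut.conj g).symm y) = y :=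
        (MulAut.conj g).apply_symm_apply y
      rw [h2]
      exact hy
  rw [h1, ← MonoidHom.map_closure, Subgroup.coe_map]
  refine Set.Finite.image _ (hV _ (hS.image _) ?_)
  rintro _ ⟨y, hy, rfl⟩
  obtain ⟨v, hv, hvy⟩ := hSV hy
  rw [← hvy]
  have h2 : (MulAut.conj g).symm ((MulAut.conj g).toMonoidHom v) = v :=
    (MulAut.conj g).symm_apply_apply v
  rw [h2]
  exact hv

/-- the radical of a normal subgroup is contained in the radical -/
theorem rad_le_rad {K : Subgroup G} (hK : ∀ g : G, ∀ k ∈ K, g * k * g⁻¹ ∈ K) :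
    rad K ≤ rad (⊤ : Subgroup G) := by
  intro x hx
  refine ⟨rad K, le_top, ?_, LF_rad K, hx⟩
  rw [Subgroup.le_normalizer_iff]
  rintro g _ y ⟨V, h1, h2, h3, h4⟩
  refine ⟨V.map (MulAut.conj g).toMonoidHom, ?_, ?_, h3.conj g, ⟨y, h4, rfl⟩⟩
  · rintro _ ⟨v, hv, rfl⟩
    exact hK g v (h1 hv)
  · rw [Subgroup.le_normalizer_iff]
    rintro k hk _ ⟨v, hv, rfl⟩
    have h5 : g⁻¹ * k * g ∈ K := by
      have h6 := hK g⁻¹ k hk
      rw [inv_inv] at h6
      exact h6
    refine ⟨(g⁻¹ * k * g) * v * (g⁻¹ * k * g)⁻¹, (mem_normalizer_iff.1 (h2 h5) v).1 hv, ?_⟩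
    show g * ((g⁻¹ * k * g) * v * (g⁻¹ * k * g)⁻¹) * g⁻¹ = k * (g * v * g⁻¹) * k⁻¹
    group


/-- the locally finite radical is normal -/
theorem rad_conj {x : G} (hx : x ∈ rad (⊤ : Subgroup G)) (g : G) :
    g * x * g⁻¹ ∈ rad (⊤ : Subgroup G) :=
  (mem_normalizer_iff.1 (le_normalizer_rad (⊤ : Subgroup G) (Subgroup.mem_top g)) x).1 hx

/-- a normal locally finite subgroup is contained in the radical -/
theorem le_rad {V : Subgroup G} (hV : LF V) (hn : ∀ g : G, ∀ v ∈ V, g * v * g⁻¹ ∈ V) :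
    V ≤ rad (⊤ : Subgroup G) := by
  intro x hx
  refine ⟨V, le_top, ?_, hV, hx⟩
  rw [Subgroup.le_normalizer_iff]
  exact fun g _ v hv => hn g v hv

end Pool.Agent.Lib.MP_032401_al_M
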