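import Pool.Agent.Lib.MP_032401_al_M.PSub
import Pool.Agent.Lib.MP_032401_al_M.LFc
import Pool.Agent.Lib.MP_032401_al_M.Cj

/-!
# MP_032401_al (project CS): conjugacy biprimitively finite groups, definitions
-/

set_option autoImplicit false

namespace Pool.Agent.Lib.MP_032401_al_M

/-- conjugacy biprimitively finite groups -/
def CBF (G : Type*) [Group G] : Prop :=
  ∀ H : Subgroup G, (H : Set G).Finite →
    ∀ x g : G, x ∈ Subgroup.normalizer (H : Set G) → g ∈ Subgroup.normalizer (H : Set G) →
      (∃ p : ℕ, p.Prime ∧ x ∉ H ∧ x ^ p ∈ H) →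
      ((Subgroup.closure ((H : Set G) ∪ {x, g * x * g⁻¹}) : Subgroup G) : Set G).Finite

/-- every finite subgroup is solvable -/
def Sol (G : Type*) [Group G] : Prop := ∀ F : Subgroup G, (F : Set G).Finite → Group.IsSolvable F

/-- the class of groups considered in project CS -/
structure CCls (G : Type*) [Group G] : Prop where
  per : ∀ g : G, IsOfFinOrder g
  cbf : CBF G
  sol : Sol G
  acc : ∀ p : ℕ, p.Prime → ACC G p

/-- `m`-elements act trivially modulo the subgroup `ρ` on the finite `k`-subgroups which they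
normalise, for all primes `k ≠ m` -/
def Triv {G : Type*} [Group G] (m : ℕ) (ρ : Subgroup G) : Prop :=
  ∀ k : ℕ, k.Prime → k ≠ m → ∀ u : G, PElt m u → ∀ Y : Subgroup G, PSub k Y →
    u ∈ Subgroup.normalizer (Y : Set G) → ∀ y ∈ Y, u * y * u⁻¹ * y⁻¹ ∈ ρ

end Pool.Agent.Lib.MP_032401_al_M
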