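import Pool.Agent.Lib.MP_032401_al_M.PSub

/-!
# MP_032401_al (project BFM): Sylow subgroups of finite subgroups
-/

set_option autoImplicit false

namespace Pool.Agent.Lib.MP_032401_al_M

open Subgroup

variable {G : Type*} [Group G] {p : ℕ}

theorem Syl_subgroupOf {D P : Subgroup G} (hP : ∀ x ∈ P, PElt p x) :
    IsPGroup p (P.subgroupOf D) := by
  rintro ⟨x, hx⟩
  obtain ⟨m, hm⟩ := hP x.1 hx
  exact ⟨m, Subtype.ext (Subtype.ext (by simpa using hm))⟩

theorem Syl_map {D : Subgroup G} (hD : (D : Set G).Finite) {Q : Subgroup D} (hQ : IsPGroup p Q) :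
    PSub p (Q.map D.subtype) := by
  refine ⟨hD.subset (map_subtype_le Q), ?_⟩
  rintro _ ⟨x, hx, rfl⟩
  obtain ⟨m, hm⟩ := hQ ⟨x, hx⟩
  refine ⟨m, ?_⟩
  have h1 := congrArg (fun z : Q => ((z : D) : G)) hm
  simpa using h1

/-- Proof. `D` is finite: take a `p`-subgroup of `D` containing `P` with the largest number of
elements. Or: `IsPGroup.exists_le_sylow` in `D` and map to `G`. -/
theorem exists_syl {D P : Subgroup G} (hD : (D : Set G).Finite) (hP : PSub p P) (hPD : P ≤ D) :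
    ∃ R : Subgroup G, P ≤ R ∧ IsSyl p D R := by
  obtain ⟨Q, hQ⟩ := (Syl_subgroupOf (D := D) hP.2).exists_le_sylow
  refine ⟨(Q : Subgroup D).map D.subtype, fun x hx => ?_, map_subtype_le _,
    Syl_map hD Q.isPGroup', fun Q2 hQ2D hQ2 hle => ?_⟩
  · exact ⟨⟨x, hPD hx⟩, hQ hx, rfl⟩
  · have h1 : Q2.subgroupOf D = Q := by
      refine Q.is_maximal' (Syl_subgroupOf hQ2.2) fun x hx => ?_
      exact hle ⟨x, hx, rfl⟩
    rw [← h1, map_subgroupOf_eq_of_le hQ2D]

/-- Proof. `R.subgroupOf D` is a maximal `p`-subgroup of `D`. -/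
theorem IsSyl.exists_sylow {D R : Subgroup G} (hD : (D : Set G).Finite) (hR : IsSyl p D R) :
    ∃ S : Sylow p D, (S : Subgroup D).map D.subtype = R := by
  refine ⟨{ toSubgroup := R.subgroupOf D
            isPGroup' := Syl_subgroupOf hR.2.1.2
            is_maximal' := ?_ }, map_subgroupOf_eq_of_le hR.1⟩
  intro Q hQ hle
  have h1 : Q.map D.subtype = R := by
    refine hR.2.2 _ (map_subtype_le _) (Syl_map hD hQ) fun x hx => ?_
    exact ⟨⟨x, hR.1 hx⟩, hle hx, rfl⟩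
  refine le_antisymm (fun x hx => ?_) hle
  have h2 : (x : G) ∈ Q.map D.subtype := ⟨x, hx, rfl⟩
  rw [h1] at h2
  exact h2

/-- Proof. `P` is contained in a Sylow `p`-subgroup of `D`, which is conjugate to `R`
(`MulAction.exists_smul_eq` for `Sylow p D`, transported with `IsSyl.exists_sylow`). -/
theorem IsSyl.conj_mem (hp : p.Prime) {D R P : Subgroup G} (hD : (D : Set G).Finite)
    (hR : IsSyl p D R) (hP : PSub p P) (hPD : P ≤ D) :
    ∃ d ∈ D, ∀ x ∈ P, d * x * d⁻¹ ∈ R := by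
  have hfact : Fact p.Prime := ⟨hp⟩
  have hfin : Finite D := hD.to_subtype
  obtain ⟨R2, hPR, hR2⟩ := exists_syl hD hP hPD
  obtain ⟨S1, hS1⟩ := hR.exists_sylow hD
  obtain ⟨S2, hS2⟩ := hR2.exists_sylow hD
  obtain ⟨m, hm⟩ := MulAction.exists_smul_eq D S2 S1
  refine ⟨m.1, m.2, fun x hx => ?_⟩
  have h1 : x ∈ (S2 : Subgroup D).map D.subtype := by
    rw [hS2]
    exact hPR hx
  obtain ⟨y, hy, rfl⟩ := h1
  have h2 : MulAut.conj m • y ∈ ((m • S2 : Sylow p D) : Subgroup D) := by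
    rw [Sylow.coe_subgroup_smul]
    exact Subgroup.smul_mem_pointwise_smul _ _ _ hy
  rw [hm] at h2
  rw [← hS1]
  exact ⟨_, h2, rfl⟩

end Pool.Agent.Lib.MP_032401_al_M
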