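import Pool.Agent.Lib.MP_032401_al_M.CDefs
import Pool.Agent.Lib.MP_032401_al_M.Syl

/-!
# MP_032401_al (project CS): the Frattini argument for the radical
-/

set_option autoImplicit false

namespace Pool.Agent.Lib.MP_032401_al_M

open Subgroup

variable {G : Type*} [Group G]

/-- Let `S` be a maximal finite `m`-subgroup of `G`, `ρ` a normal locally finite subgroup and
`L = S ⊓ ρ`. Then `G = ρ N_G(L)`.

Proof. Let `g : G` and `Q = g L g⁻¹` (`cj g⁻¹ L`), a finite `m`-subgroup of `ρ`. `ρ ⊔ S` is locally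
finite (`LF.sup`), so `F = S ⊔ Q`, the closure of the finite set `S ∪ Q`, is finite. `S` is a Sylow
`m`-subgroup of `F` (it is maximal in `G`). `N = F ⊓ ρ` is normal in `F`, and `L = S ⊓ N` is a Sylow
`m`-subgroup of `N`: if `P` is a finite `m`-subgroup with `L ≤ P ≤ N`, then there is `d ∈ F` with
`d P d⁻¹ ≤ S` (`IsSyl.conj_mem`), and `d P d⁻¹ ≤ N`, so `d P d⁻¹ ≤ L`; comparing the numbers of
elements, `P = L`. So, again by `IsSyl.conj_mem` (for `N`), there is `f ∈ N` with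
`f Q f⁻¹ ≤ L`, i.e. `(f g) L (f g)⁻¹ ≤ L`; as `L` is finite, `f g` normalises `L`
(`mem_normalizer_of_finite`). So `g = f⁻¹ (f g)`. -/
theorem frattini_rad {m : ℕ} (hm : m.Prime) (ρ : Subgroup G)
    (hρ : ∀ g : G, ∀ x ∈ ρ, g * x * g⁻¹ ∈ ρ) (hLF : LF ρ) {S : Subgroup G} (hS : PSub m S)
    (hSm : ∀ Q : Subgroup G, PSub m Q → S ≤ Q → Q = S) (g : G) :
    ∃ f ∈ ρ, ∃ n ∈ normalizer ((S ⊓ ρ : Subgroup G) : Set G), g = f * n := by
  obtain ⟨L, hLd⟩ : ∃ L : Subgroup G, L = S ⊓ ρ := ⟨_, rfl⟩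
  have hLS : L ≤ S := by rw [hLd]; exact inf_le_left
  have hLρ : L ≤ ρ := by rw [hLd]; exact inf_le_right
  have hL : PSub m L := hS.mono hLS
  have hQ : PSub m (cj g⁻¹ L) := hL.cj g⁻¹
  have hQρ : cj g⁻¹ L ≤ ρ := by
    intro t ht
    have h1 := hρ g _ (hLρ (mem_cj.1 ht))
    have h2 : g * (g⁻¹ * t * g⁻¹⁻¹) * g⁻¹ = t := by group
    rwa [h2] at h1
  have hSN : S ≤ normalizer (ρ : Set G) := by
    rw [Subgroup.le_normalizer_iff]
    exact fun s _ x hx => hρ s x hx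
  have hsup : LF (ρ ⊔ S) := hLF.sup (LF.of_finite hS.1) hSN
  have hFfin : ((closure ((S : Set G) ∪ (cj g⁻¹ L : Subgroup G)) : Subgroup G) : Set G).Finite := by
    refine hsup _ (hS.1.union hQ.1) ?_
    rintro x (hx | hx)
    · exact (le_sup_right : S ≤ ρ ⊔ S) hx
    · exact (le_sup_left : ρ ≤ ρ ⊔ S) (hQρ hx)
  obtain ⟨F, hFd⟩ : ∃ F : Subgroup G,
      F = closure ((S : Set G) ∪ (cj g⁻¹ L : Subgroup G)) := ⟨_, rfl⟩
  rw [← hFd] at hFfin
  have hSF : S ≤ F := by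
    rw [hFd]
    exact fun x hx => subset_closure (Or.inl hx)
  have hQF : cj g⁻¹ L ≤ F := by
    rw [hFd]
    exact fun x hx => subset_closure (Or.inr hx)
  have hSyl : IsSyl m F S := ⟨hSF, hS, fun Q _ hQ hle => hSm Q hQ hle⟩
  have hNfin : ((F ⊓ ρ : Subgroup G) : Set G).Finite := hFfin.subset fun x hx => hx.1
  have hSylL : IsSyl m (F ⊓ ρ) L := by
    refine ⟨le_inf (hLS.trans hSF) hLρ, hL, fun P hPN hP hLP => ?_⟩
    obtain ⟨d, _, hd⟩ := hSyl.conj_mem hm hFfin hP (hPN.trans inf_le_left)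
    have hmap : ∀ x ∈ (P : Set G), d * x * d⁻¹ ∈ (L : Set G) := by
      intro x hx
      have h1 : d * x * d⁻¹ ∈ S ⊓ ρ := ⟨hd x hx, hρ d x (hPN hx).2⟩
      rw [← hLd] at h1
      exact h1
    have hcard : (P : Set G).ncard ≤ (L : Set G).ncard :=
      Set.ncard_le_ncard_of_injOn (fun x => d * x * d⁻¹) hmap
        (fun a _ b _ h => mul_left_cancel (mul_right_cancel h)) hL.1
    have h2 : (L : Set G) = P := Set.eq_of_subset_of_ncard_le hLP hcard hP.1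
    exact (SetLike.coe_injective h2).symm
  obtain ⟨f, hf, hfQ⟩ := hSylL.conj_mem hm hNfin hQ (le_inf hQF hQρ)
  refine ⟨f⁻¹, inv_mem hf.2, f * g, ?_, by group⟩
  rw [← hLd]
  refine mem_normalizer_of_finite hL.1 fun t ht => ?_
  have h1 : g * t * g⁻¹ ∈ cj g⁻¹ L := by
    rw [mem_cj]
    have h2 : g⁻¹ * (g * t * g⁻¹) * g⁻¹⁻¹ = t := by group
    rw [h2]
    exact ht
  have h3 := hfQ _ h1
  have h4 : f * g * t * (f * g)⁻¹ = f * (g * t * g⁻¹) * f⁻¹ := by group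
  rw [h4]
  exact h3

end Pool.Agent.Lib.MP_032401_al_M
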