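import Pool.Agent.Lib.MP_032401_al_M.PSub

/-!
# MP_032401_al (project BFM): several commuting operators
-/

set_option autoImplicit false

namespace Pool.Agent.Lib.MP_032401_al_M

open Subgroup

variable {G : Type*} [Group G]

/-- If `g` commutes with `y`, then conjugation by `g` preserves `CC k y`. -/
theorem CC_conj {k : ℕ} {y g v : G} (hg : g * y = y * g) (hv : v ∈ CC k y) :
    g * v * g⁻¹ ∈ CC k y := by
  obtain ⟨h1, ⟨c, hc⟩, h3⟩ := hv
  have hy : g * y * g⁻¹ = y := by rw [hg]; group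
  have hyi : g * y⁻¹ * g⁻¹ = y⁻¹ := by
    have h4 := congrArg (fun z => z⁻¹) hy
    simp only [mul_inv_rev, inv_inv] at h4
    rw [← mul_assoc] at h4
    exact h4
  refine ⟨by rw [conj_pow, h1]; group, ⟨c, ?_⟩, fun h => h3 ?_⟩
  · rw [conj_pow, ← hc]
    calc y * (g * v * g⁻¹) * y⁻¹
        = (g * y * g⁻¹) * (g * v * g⁻¹) * (g * y⁻¹ * g⁻¹) := by rw [hy, hyi]
      _ = g * (y * v * y⁻¹) * g⁻¹ := by group
  · calc y * v = g⁻¹ * ((g * y * g⁻¹) * (g * v * g⁻¹)) * g := by group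
      _ = g⁻¹ * (g * v * g⁻¹ * y) * g := by rw [hy, h]
      _ = g⁻¹ * (g * v * g⁻¹ * (g * y * g⁻¹)) * g := by rw [hy]
      _ = v * y := by group

/-- If conjugation by `g` and by `g⁻¹` maps `Y` into `Y`, then conjugation by `g` preserves
`CY k Y`. -/
theorem CY_conj {k : ℕ} {Y : Set G} {g v : G} (hg : ∀ y ∈ Y, g⁻¹ * y * g ∈ Y)
    (hg' : ∀ y ∈ Y, g * y * g⁻¹ ∈ Y) (hv : v ∈ CY k Y) : g * v * g⁻¹ ∈ CY k Y := by
  obtain ⟨h1, h2, y0, hy0, h3⟩ := hv
  refine ⟨by rw [conj_pow, h1]; group, fun y hy => ?_, g * y0 * g⁻¹, hg' y0 hy0, fun h => h3 ?_⟩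
  · obtain ⟨c, hc⟩ := h2 _ (hg y hy)
    refine ⟨c, ?_⟩
    rw [conj_pow, ← hc]
    group
  · calc y0 * v = g⁻¹ * (g * y0 * g⁻¹ * (g * v * g⁻¹)) * g := by group
      _ = g⁻¹ * (g * v * g⁻¹ * (g * y0 * g⁻¹)) * g := by rw [h]
      _ = v * y0 := by group

private theorem CH_mem {k : ℕ} {Y : Set G} {y v : G} (hy : y ∈ Y) (hv : v ∈ CY k Y)
    (h : y * v ≠ v * y) : v ∈ CC k y :=
  ⟨hv.1, hv.2.1 y hy, h⟩

private theorem CH_norm {k : ℕ} {Y : Set G} {y : G} (hy : y ∈ Y) :
    Subgroup.closure (CY k Y) ≤ normalizer ((Subgroup.closure (CC k y) : Subgroup G) : Set G) := by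
  rw [closure_le]
  intro v hv
  by_cases h : y * v = v * y
  · have h1 : v⁻¹ * y = y * v⁻¹ := by
      calc v⁻¹ * y = v⁻¹ * (y * v) * v⁻¹ := by group
        _ = v⁻¹ * (v * y) * v⁻¹ := by rw [h]
        _ = y * v⁻¹ := by group
    refine mem_normalizer_closure' (fun s hs => CC_conj h.symm hs) fun s hs => ?_
    have h2 := CC_conj h1 hs
    rwa [inv_inv] at h2
  · exact le_normalizer (subset_closure (CH_mem hy hv h))

private theorem CH_sup {A B : Subgroup G} {g : G} (hA : g ∈ normalizer (A : Set G))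
    (hB : g ∈ normalizer (B : Set G)) : g ∈ normalizer ((A ⊔ B : Subgroup G) : Set G) := by
  rw [mem_normalizer_iff_map_conj_eq] at hA hB ⊢
  rw [Subgroup.map_sup, hA, hB]

private theorem CH_inf {A B : Subgroup G} {g : G} (hA : g ∈ A) (hB : g ∈ normalizer (B : Set G)) :
    g ∈ normalizer ((A ⊓ B : Subgroup G) : Set G) := by
  rw [mem_normalizer_iff]
  intro h
  rw [mem_inf, mem_inf, mem_normalizer_iff.mp hB h]
  refine and_congr_left fun _ => ⟨fun h1 => A.mul_mem (A.mul_mem hA h1) (A.inv_mem hA),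
    fun h1 => ?_⟩
  have h2 := A.mul_mem (A.mul_mem (A.inv_mem hA) h1) hA
  have h3 : g⁻¹ * (g * h * g⁻¹) * g = h := by group
  rwa [h3] at h2

/-- Proof. Let `Γ = closure (CY k Y)`. For `y ∈ Y` and `v ∈ CY k Y`, `v` normalises
`C y = closure (CC k y)`: if `y * v ≠ v * y` then `v ∈ CC k y`, and otherwise conjugation by `v`
and `v⁻¹` preserves `CC k y` (`CC_conj`, `mem_normalizer_closure'`). So `Γ` normalises all
`Γ ⊓ C y`, which are finite `k`-subgroups. By induction over the finite set `Y`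
(`Set.Finite.induction_on`) for every finite `Y' ⊆ Y` there is a finite `k`-subgroup `U ≤ Γ`
normalised by `Γ` and containing `Γ ⊓ C y` for all `y ∈ Y'` (`PSub.sup`). For `Y' = Y` it contains
`CY k Y`, since `v ∈ CY k Y` lies in `CC k y ⊆ C y` for some `y`. So `Γ = U`. -/
theorem ch {k : ℕ} (hk : k.Prime) {Y : Set G} (hY : Y.Finite)
    (h : ∀ y ∈ Y, PSub k (Subgroup.closure (CC k y))) :
    PSub k (Subgroup.closure (CY k Y)) := by
  have key : ∀ Y' : Set G, Y'.Finite → Y' ⊆ Y → ∃ U : Subgroup G, PSub k U ∧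
      U ≤ Subgroup.closure (CY k Y) ∧ Subgroup.closure (CY k Y) ≤ normalizer (U : Set G) ∧
      ∀ y ∈ Y', Subgroup.closure (CY k Y) ⊓ Subgroup.closure (CC k y) ≤ U := by
    intro Y' hY'
    induction Y', hY' using Set.Finite.induction_on with
    | empty =>
      intro _
      refine ⟨⊥, PSub.bot k, bot_le, ?_, fun y hy => absurd hy (Set.notMem_empty y)⟩
      intro g _
      rw [mem_normalizer_iff]
      intro h
      rw [mem_bot, mem_bot]
      constructor
      · intro h1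
        rw [h1]
        group
      · intro h1
        calc h = g⁻¹ * (g * h * g⁻¹) * g := by group
          _ = 1 := by rw [h1]; group
    | @insert y Y' _ _ ih =>
      intro hsub
      obtain ⟨U, hU1, hU2, hU3, hU4⟩ := ih ((Set.subset_insert _ _).trans hsub)
      have hy : y ∈ Y := hsub (Set.mem_insert y Y')
      refine ⟨(Subgroup.closure (CY k Y) ⊓ Subgroup.closure (CC k y)) ⊔ U, ?_, ?_, ?_, ?_⟩
      · exact PSub.sup hk ((h y hy).mono inf_le_right) hU1 (inf_le_left.trans hU3)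
      · exact sup_le inf_le_left hU2
      · exact fun g hg => CH_sup (CH_inf hg (CH_norm hy hg)) (hU3 hg)
      · rintro z (rfl | hz)
        · exact le_sup_left
        · exact (hU4 z hz).trans le_sup_right
  obtain ⟨U, hU1, hU2, hU3, hU4⟩ := key Y hY subset_rfl
  refine hU1.mono ?_
  rw [closure_le]
  intro v hv
  obtain ⟨y, hy, hyv⟩ := hv.2.2
  exact hU4 y hy ⟨subset_closure hv, subset_closure (CH_mem hy hv hyv)⟩

end Pool.Agent.Lib.MP_032401_al_M
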