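import Pool.Agent.Lib.MP_032401_al_M.PSub

/-!
# MP_032401_al (project BFM): primary parts of an element of finite order
-/

set_option autoImplicit false

namespace Pool.Agent.Lib.MP_032401_al_M

open Subgroup

variable {G : Type*} [Group G]

/-- Proof. Write `orderOf w = j ^ k * m` with `j ∤ m` (`Nat.exists_eq_pow_mul_and_not_dvd`), choose
by the Chinese remainder theorem `a ≡ 1 mod j ^ k`, `a ≡ 0 mod m` and `b ≡ 0 mod j ^ k`,
`b ≡ 1 mod m`. Then `a + b ≡ 1 mod orderOf w`, `(w ^ a) ^ j ^ k = 1`, `(w ^ b) ^ m = 1`.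
(Compare `decomp` in `Pool/Agent/Lib/MP_032401_al/Spart.lean`, which may be copied.) -/
theorem exists_split {w : G} (hw : IsOfFinOrder w) {j : ℕ} (hj : j.Prime) :
    ∃ a b : ℕ, w = w ^ a * w ^ b ∧ PElt j (w ^ a) ∧ ¬ j ∣ orderOf (w ^ b) := by
  obtain ⟨k, m, hm, hkm⟩ := Nat.exists_eq_pow_mul_and_not_dvd
    (n := orderOf w) ((orderOf_pos_iff.2 hw).ne') j hj.one_lt.ne'
  have hcop : Nat.Coprime (j ^ k) m := Nat.Coprime.pow_left k ((hj.coprime_iff_not_dvd).2 hm)
  obtain ⟨i, hi1, hi2⟩ := Nat.chineseRemainder hcop 1 0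
  have hmi : m ∣ i := (Nat.modEq_zero_iff_dvd).1 hi2
  have hn : w ^ (j ^ k * m) = 1 := by rw [← hkm]; exact pow_orderOf_eq_one w
  have e1 : (w ^ i) ^ j ^ k = 1 := by
    obtain ⟨c, rfl⟩ := hmi
    rw [← pow_mul, mul_comm (m * c), ← mul_assoc, pow_mul, hn, one_pow]
  have e2 : (w * (w ^ i)⁻¹) ^ m = 1 := by
    have hc : Commute w (w ^ i)⁻¹ := ((Commute.refl w).pow_right i).inv_right
    rw [hc.mul_pow, inv_pow, ← pow_mul, mul_inv_eq_one]
    rw [pow_eq_pow_iff_modEq, hkm]
    have h1 : i * m ≡ 1 * m [MOD j ^ k * m] := Nat.ModEq.mul_right' m hi1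
    rw [one_mul] at h1
    exact h1.symm
  have hpos : 0 < orderOf w := orderOf_pos_iff.2 hw
  have hxinv : w ^ (orderOf w - 1) = w⁻¹ := by
    rw [eq_inv_iff_mul_eq_one, ← pow_succ, Nat.sub_add_cancel hpos, pow_orderOf_eq_one]
  obtain ⟨l, hl⟩ : ∃ l : ℕ, w ^ l = w * (w ^ i)⁻¹ := by
    refine ⟨1 + (orderOf w - 1) * i, ?_⟩
    rw [pow_add, pow_one, pow_mul, hxinv, inv_pow]
  refine ⟨i, l, ?_, ⟨k, e1⟩, ?_⟩
  · rw [hl]
    have hc : Commute w (w ^ i)⁻¹ := ((Commute.refl w).pow_right i).inv_right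
    rw [hc.eq, mul_inv_cancel_left]
  · rw [hl]
    exact fun h => hm (h.trans (orderOf_dvd_of_pow_eq_one e2))

/-- If all powers of `x` which are elements of prime power order lie in `C`, then `x ∈ C`.
Proof. Strong induction on `orderOf x`: if `orderOf x = 1` it is clear. Otherwise take a prime
`j ∣ orderOf x` and `x = x ^ a * x ^ b` as in `exists_split`; `x ^ a ∈ C` by hypothesis, and
`orderOf (x ^ b)` divides `orderOf x` and is different from it, so that induction applies to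
`x ^ b`. -/
theorem mem_of_parts {x : G} (hx : IsOfFinOrder x) (C : Subgroup G)
    (h : ∀ j : ℕ, j.Prime → ∀ s : ℕ, PElt j (x ^ s) → x ^ s ∈ C) : x ∈ C := by
  induction hn : orderOf x using Nat.strong_induction_on generalizing x with
  | _ n ih =>
    by_cases h1 : orderOf x = 1
    · rw [orderOf_eq_one_iff.1 h1]
      exact C.one_mem
    · obtain ⟨j, hj, hjx⟩ := Nat.exists_prime_and_dvd h1
      obtain ⟨a, b, hab, ha, hb⟩ := exists_split hx hj
      rw [hab]
      refine C.mul_mem (h j hj a ha) ?_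
      have hdvd : orderOf (x ^ b) ∣ orderOf x := orderOf_pow_dvd b
      have hlt : orderOf (x ^ b) < n := by
        rw [← hn]
        refine lt_of_le_of_ne (Nat.le_of_dvd (orderOf_pos_iff.2 hx) hdvd) fun h2 => hb ?_
        rw [h2]
        exact hjx
      refine ih _ hlt (x := x ^ b) hx.pow (fun j' hj' s hs => ?_) rfl
      rw [← pow_mul] at hs ⊢
      exact h j' hj' (b * s) hs

/-- Lifting of `q`-elements. If `f u` is a `q`-element, some power of `u` is a `q`-element with
the same image. Proof. With `exists_split`, `u = u ^ a * u ^ b`, `u ^ a` a `q`-element and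
`q ∤ orderOf (u ^ b)`. Then `f (u ^ b) = (f u) ^ b` is a `q`-element, of order dividing
`orderOf (u ^ b)`, so it is `1` (`PElt.eq_one_of_pow`), and `f u = f (u ^ a)`. -/
theorem exists_lift {H : Type*} [Group H] (f : G →* H) {u : G} (hu : IsOfFinOrder u) {q : ℕ}
    (hq : q.Prime) (h : PElt q (f u)) : ∃ s : ℕ, PElt q (u ^ s) ∧ f (u ^ s) = f u := by
  obtain ⟨a, b, hab, ha, hb⟩ := exists_split hu hq
  refine ⟨a, ha, ?_⟩
  have h1 : f (u ^ b) = 1 := by
    have h2 : PElt q (f (u ^ b)) := by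
      rw [map_pow]
      exact h.pow b
    refine h2.eq_one_of_pow hq hb ?_
    rw [← map_pow, pow_orderOf_eq_one, map_one]
  conv_rhs => rw [hab, map_mul, h1, mul_one]

end Pool.Agent.Lib.MP_032401_al_M
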