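import Pool.Agent.Lib.MP_032401_al_M.CStepB
import Pool.Agent.Lib.MP_032401_al_M.Parts
import Pool.Agent.Lib.MP_032401_al_M.Acc

/-!
# MP_032401_al (project CS): the main theorem
-/

set_option autoImplicit false

namespace Pool.Agent.Lib.MP_032401_al_M

open Subgroup

theorem main_cbf (G : Type) [Group G] (hper : ∀ g : G, IsOfFinOrder g) (hcbf : CBF G)
    (hsol : Sol G)
    (hfin : ∀ p : ℕ, p.Prime → ∀ P : Subgroup G, (∀ x ∈ P, ∃ m : ℕ, x ^ p ^ m = 1) →
      (∀ S : Set G, S.Finite → S ⊆ P → ((Subgroup.closure S : Subgroup G) : Set G).Finite) →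
      (P : Set G).Finite)
    (hch : ¬ ∃ f : ℕ → ℕ, ∀ i : ℕ, (f i).Prime ∧ f (i + 1) ≠ f i ∧ Act G (f i) (f (i + 1)))
    (S : Finset G) : ((Subgroup.closure (S : Set G) : Subgroup G) : Set G).Finite := by
  have hG : CCls G := ⟨hper, hcbf, hsol, fun p hp => ACC.of_locallyFinite (hfin p hp)⟩
  have hall : ∀ m : ℕ, m.Prime → ∀ a : G, PElt m a → a ∈ rad (⊤ : Subgroup G) := by
    by_contra hcon
    push Not at hcon
    obtain ⟨m0, hm0, a0, ha0, hna0⟩ := hcon
    let B : Type := {m : ℕ // m.Prime ∧ ∃ a : G, PElt m a ∧ a ∉ rad (⊤ : Subgroup G)}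
    have hstep : ∀ b : B, ∃ c : B, c.1 ≠ b.1 ∧ Act G b.1 c.1 := by
      rintro ⟨m, hm, a, ha, hna⟩
      by_contra hcon2
      push Not at hcon2
      apply hna
      refine mem_rad_of_act hG hm ?_ ha
      intro k hk hkm hact y hy
      by_contra hny
      exact hcon2 ⟨k, hk, y, hy, hny⟩ hkm hact
    choose nxt hnxt using hstep
    let s : ℕ → B := fun n => Nat.rec ⟨m0, hm0, a0, ha0, hna0⟩ (fun _ b => nxt b) n
    exact hch ⟨fun i => (s i).1, fun i => ⟨(s i).2.1, (hnxt (s i)).1, (hnxt (s i)).2⟩⟩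
  have hLF : LF (⊤ : Subgroup G) := by
    refine (LF_rad (⊤ : Subgroup G)).mono fun x _ => ?_
    exact mem_of_parts (hG.per x) _ fun j hj t ht => hall j hj _ ht
  exact hLF (S : Set G) S.finite_toSet (fun x _ => Subgroup.mem_top x)

end Pool.Agent.Lib.MP_032401_al_M
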