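import Pool.Agent.Lib.MP_032401_al_M.QAcc
import Pool.Agent.Lib.MP_032401_al_M.Parts

/-!
# MP_032401_al (project BFM): factor groups by finite normal subgroups, part 4
-/

set_option autoImplicit false

namespace Pool.Agent.Lib.MP_032401_al_M

open Subgroup

variable {G : Type*} [Group G]

/-- powers of `y * x` modulo a subgroup normalised by `x` -/
private theorem QAct_pow {H : Type*} [Group H] {Y : Subgroup H} {x y : H} (hy : y ∈ Y)
    (hx : x ∈ normalizer (Y : Set H)) (n : ℕ) : (y * x) ^ n * (x ^ n)⁻¹ ∈ Y := by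
  induction n with
  | zero => simp
  | succ n ih =>
    have h1 : x ^ n ∈ normalizer (Y : Set H) := pow_mem hx n
    have h2 : x ^ n * y * (x ^ n)⁻¹ ∈ Y := (mem_normalizer_iff.1 h1 y).1 hy
    have h3 : (y * x) ^ (n + 1) * (x ^ (n + 1))⁻¹ =
        ((y * x) ^ n * (x ^ n)⁻¹) * (x ^ n * y * (x ^ n)⁻¹) := by
      rw [pow_succ (y * x) n, pow_succ x n]
      group
    rw [h3]
    exact Y.mul_mem ih h2

/-- an element is in a subgroup if a power of it is, and the exponent is prime to its order -/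
private theorem QAct_mem {H : Type*} [Group H] {Y : Subgroup H} {x : H} {m n : ℕ}
    (hm : x ^ m = 1) (hc : Nat.Coprime n m) (h : x ^ n ∈ Y) : x ∈ Y := by
  have h1 : IsCoprime (n : ℤ) (m : ℤ) := Nat.isCoprime_iff_coprime.2 hc
  obtain ⟨a, b, hab⟩ := h1
  have h2 : x = (x ^ n) ^ a := by
    conv_lhs => rw [← zpow_one x, ← hab, zpow_add, mul_comm b, zpow_mul x (m : ℤ),
      zpow_natCast, hm, one_zpow, mul_one, mul_comm a, zpow_mul, zpow_natCast]
  rw [h2]
  exact Y.zpow_mem h a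

/-- Proof. Let `π : G → G ⧸ O`, `Yb` a finite `k`-subgroup of `G ⧸ O` and `ub` a `q`-element
normalising, but not centralising it. Choose `u` with `π u = ub`. Let `L` be the preimage of `Yb`
(finite) and `Y` a Sylow `k`-subgroup of `L` (`exists_syl`), so `π Y = Yb` (`IsSyl.map_eq`). `u`
normalises `L`, so `u Y u⁻¹` is a `k`-subgroup of `L`, and by `IsSyl.conj_mem` there is `g ∈ L`
with `g (u Y u⁻¹) g⁻¹ ≤ Y`; so `w = g * u` normalises `Y` (`mem_normalizer_of_finite`).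
`π w = yb * ub` with `yb = π g ∈ Yb`. By `exists_split` `w = w ^ a * w ^ b`, with `w ^ a` a
`q`-element and `¬ q ∣ orderOf (w ^ b)`. `w ^ a` normalises `Y`. Claim: `w ^ a` does not centralise
`Y`; this gives `Act G q k`.

Suppose that `w ^ a` centralises `Y`; then `z = π (w ^ a)` centralises `π Y = Yb`. Modulo `Yb`
(`ub` normalises `Yb`): `π w ∈ Yb * ub`, so `(π w) ^ q ^ n ∈ Yb` for some `n`; hence
`(π w ^ b) ^ q ^ n ∈ Yb`, and as the order of `π w ^ b` is prime to `q`, `π w ^ b` is a power of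
`(π w ^ b) ^ q ^ n`, so it is in `Yb`. Therefore `ub = yb⁻¹ * π w = yb⁻¹ * z * π (w ^ b) = y1 * z`
with `y1 = yb⁻¹ * π (w ^ b) ∈ Yb` (`z` centralises `Yb`). `y1` and `z` commute, `ub` and `z` are
`q`-elements, so for large `n` `1 = ub ^ q ^ n = y1 ^ q ^ n * z ^ q ^ n = y1 ^ q ^ n`, so
`y1 = 1` (`PElt.eq_one`: `y1` is a `k`-element, `q ≠ k`). So `ub = z` centralises `Yb`:
contradiction. -/
theorem act_lift (hper : ∀ g : G, IsOfFinOrder g) (O : Subgroup G) [O.Normal]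
    (hO : (O : Set G).Finite) {q k : ℕ} (hq : q.Prime) (hk : k.Prime) (hqk : q ≠ k)
    (h : Act (G ⧸ O) q k) : Act G q k := by
  obtain ⟨Yb, ub, hYb, hub, hnorm, y0, hy0, hne⟩ := h
  obtain ⟨u, hu⟩ := QuotientGroup.mk'_surjective O ub
  set π := QuotientGroup.mk' O with hπ
  have hLf := comap_finite O hO Yb hYb.1
  obtain ⟨Y, -, hY⟩ := exists_syl (p := k) hLf (PSub.bot k) bot_le
  have hYm : Y.map π = Yb := IsSyl.map_eq hk O hO hYb hY
  have hPL : Y.map (MulAut.conj u).toMonoidHom ≤ Yb.comap π := by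
    rintro _ ⟨y, hy, rfl⟩
    rw [mem_comap]
    change π (u * y * u⁻¹) ∈ Yb
    rw [map_mul, map_mul, map_inv, hu]
    exact (mem_normalizer_iff.1 hnorm _).1 (hY.1 hy)
  obtain ⟨g, hgL, hg⟩ := hY.conj_mem hk hLf (hY.2.1.conj u) hPL
  have hgY : ∀ t ∈ Y, (g * u) * t * (g * u)⁻¹ ∈ Y := by
    intro t ht
    have h1 := hg (u * t * u⁻¹) ⟨t, ht, rfl⟩
    have h2 : (g * u) * t * (g * u)⁻¹ = g * (u * t * u⁻¹) * g⁻¹ := by group
    rw [h2]
    exact h1
  have hwn : g * u ∈ normalizer (Y : Set G) := mem_normalizer_of_finite hY.2.1.1 hgY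
  obtain ⟨a, b, hab, hwa, hwb⟩ := exists_split (hper (g * u)) hq
  set w := g * u with hw
  refine ⟨Y, w ^ a, hY.2.1, hwa, pow_mem hwn a, ?_⟩
  by_contra hcon
  push Not at hcon
  have hz : ∀ y ∈ Yb, π (w ^ a) * y = y * π (w ^ a) := by
    intro y hy
    rw [← hYm] at hy
    obtain ⟨y', hy', rfl⟩ := hy
    rw [← map_mul, ← map_mul, hcon y' hy']
  have hgb : π g ∈ Yb := hgL
  have hπw : π w = π g * ub := by rw [hw, map_mul, hu]
  obtain ⟨n, hn⟩ := hub
  have h1 : (π w) ^ q ^ n ∈ Yb := by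
    have h2 := QAct_pow hgb hnorm (q ^ n)
    rw [hn, inv_one, mul_one, ← hπw] at h2
    exact h2
  have hx : π (w ^ b) ∈ Yb := by
    refine QAct_mem (m := orderOf (w ^ b)) (n := q ^ n) ?_ ?_ ?_
    · rw [← map_pow, pow_orderOf_eq_one, map_one]
    · exact Nat.Coprime.pow_left n ((hq.coprime_iff_not_dvd).2 hwb)
    · rw [map_pow, ← pow_mul, mul_comm, pow_mul]
      exact Yb.pow_mem h1 b
  have hub2 : ub = ((π g)⁻¹ * π (w ^ b)) * π (w ^ a) := by
    have h2 : π g * ub = π (w ^ a) * π (w ^ b) := by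
      rw [← hπw, ← map_mul, ← hab]
    rw [mul_assoc, ← hz _ hx, ← h2, inv_mul_cancel_left]
  have hy1 : (π g)⁻¹ * π (w ^ b) ∈ Yb := Yb.mul_mem (Yb.inv_mem hgb) hx
  have hzq : PElt q (π (w ^ a)) := hwa.map π
  have hc1 : π (w ^ a) * ((π g)⁻¹ * π (w ^ b)) = ((π g)⁻¹ * π (w ^ b)) * π (w ^ a) := hz _ hy1
  have hy1q : PElt q ((π g)⁻¹ * π (w ^ b)) := by
    have h2 : (π g)⁻¹ * π (w ^ b) = ub * (π (w ^ a))⁻¹ := by
      rw [hub2, mul_inv_cancel_right]
    rw [h2]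
    refine PElt.mul ⟨n, hn⟩ hzq.inv ?_
    have h3 : Commute ub (π (w ^ a)) := by
      change ub * π (w ^ a) = π (w ^ a) * ub
      rw [hub2, ← mul_assoc (π (w ^ a)), hc1]
    exact h3.inv_right
  have hy11 : (π g)⁻¹ * π (w ^ b) = 1 := PElt.eq_one hq hk hqk hy1q (hYb.2 _ hy1)
  rw [hy11, one_mul] at hub2
  apply hne
  rw [hub2]
  exact hz y0 hy0

end Pool.Agent.Lib.MP_032401_al_M
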