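import Pool.Agent.Lib.MP_032401_al_M.CDefs
import Pool.Agent.Lib.MP_032401_al_M.QAct

/-!
# MP_032401_al (project CS): factor groups by finite normal subgroups
-/

set_option autoImplicit false

namespace Pool.Agent.Lib.MP_032401_al_M

open Subgroup

variable {G : Type*} [Group G]

/-- Proof. As `BF.quot` in `QBF.lean`. -/
theorem CBF.quot (h : CBF G) (O : Subgroup G) [O.Normal] (hO : (O : Set G).Finite) :
    CBF (G ⧸ O) := by
  intro H hH x g hx hg hxp
  obtain ⟨p, hp, hxH, hxp⟩ := hxp
  have hf := QuotientGroup.mk'_surjective O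
  obtain ⟨x, rfl⟩ := hf x
  obtain ⟨g, rfl⟩ := hf g
  have h1 := h (H.comap (QuotientGroup.mk' O)) (comap_finite O hO H hH) x g
    (Subgroup.le_normalizer_comap _ hx) (Subgroup.le_normalizer_comap _ hg)
    ⟨p, hp, hxH, by rw [Subgroup.mem_comap, map_pow]; exact hxp⟩
  have h2 : QuotientGroup.mk' O '' (((H.comap (QuotientGroup.mk' O) : Subgroup G) : Set G) ∪
      {x, g * x * g⁻¹}) = (H : Set (G ⧸ O)) ∪ {QuotientGroup.mk' O x,
        QuotientGroup.mk' O g * QuotientGroup.mk' O x * (QuotientGroup.mk' O g)⁻¹} := by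
    rw [Set.image_union, Set.image_pair, Subgroup.coe_comap, Set.image_preimage_eq _ hf, map_mul,
      map_mul, map_inv]
  rw [← h2, ← MonoidHom.map_closure, Subgroup.coe_map]
  exact h1.image _

/-- Proof. `cbf`: `CBF.quot`; `acc`: `ACC.quot`; `per`: clear; `sol`: the preimage of a finite
subgroup `F` of `G ⧸ O` is finite (`comap_finite`), so solvable, and maps onto `F`
(`Group.isSolvable_of_surjective`, `MonoidHom.subgroupComap`). -/
theorem CCls.quot (hG : CCls G) (O : Subgroup G) [O.Normal] (hO : (O : Set G).Finite) :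
    CCls (G ⧸ O) where
  per g := by
    obtain ⟨g, rfl⟩ := QuotientGroup.mk'_surjective O g
    exact (QuotientGroup.mk' O).isOfFinOrder (hG.per g)
  cbf := hG.cbf.quot O hO
  sol F hF := by
    have h1 : Group.IsSolvable (F.comap (QuotientGroup.mk' O)) :=
      hG.sol _ (comap_finite O hO F hF)
    exact Group.isSolvable_of_surjective
      ((QuotientGroup.mk' O).subgroupComap_surjective_of_surjective F
        (QuotientGroup.mk'_surjective O))
  acc p hp := (hG.acc p hp).quot hp O hO

end Pool.Agent.Lib.MP_032401_al_M
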