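import Pool.Agent.Lib.MP_032401_al_M.Nrm

/-!
# MP_032401_al (project BFM): an element of a class normalising an intersection
-/

set_option autoImplicit false

namespace Pool.Agent.Lib.MP_032401_al_M

open Subgroup

variable {G : Type*} [Group G] {p : ℕ}

/-- Let `Q` be a finite `p`-subgroup, `S` a set invariant under conjugation by `Q`, and
`E = closure (S ∩ E) ≤ Q`. If some element of `S ∩ Q` is not in `E`, one of them normalises `E`.

Proof. Let `N1 = Q ⊓ normalizer E` and `N2 = Q ⊓ normalizer N1` (so `E ≤ N1 ≤ N2`). If `N1 = Q`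
then any element of `S ∩ Q` not in `E` works. Otherwise `N2 ≠ N1` (`PSub.exists_mem_normalizer`
for `N1 ≤ Q`): take `g ∈ Q` normalising `N1`, `g ∉ N1`. So `g` does not normalise `E`
(`g ∈ Q` and `g ∉ N1`). Since `E` is finite, there is `e ∈ E` with `g e g⁻¹ ∉ E`
(`mem_normalizer_of_finite`), and since `E = closure (S ∩ E)` there is `s ∈ S ∩ E` with
`y = g s g⁻¹ ∉ E` (otherwise `g E g⁻¹ ⊆ E`). Then `y ∈ S`, `y ∈ Q`, and `y ∈ g N1 g⁻¹ = N1`, so
`y` normalises `E`. -/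
theorem exists_normalizing (hp : p.Prime) {Q : Subgroup G} (hQ : PSub p Q) (S : Set G)
    (hS : ∀ g ∈ Q, ∀ s ∈ S, g * s * g⁻¹ ∈ S) {E : Subgroup G} (hE : E ≤ Q)
    (hES : E ≤ Subgroup.closure (S ∩ (E : Set G))) (h : ∃ s ∈ S, s ∈ Q ∧ s ∉ E) :
    ∃ y ∈ S, y ∈ Q ∧ y ∉ E ∧ y ∈ normalizer (E : Set G) := by
  obtain ⟨s0, hs0S, hs0Q, hs0E⟩ := h
  by_cases hN : Q ⊓ normalizer (E : Set G) = Q
  · refine ⟨s0, hs0S, hs0Q, hs0E, ?_⟩
    rw [← hN] at hs0Q
    exact hs0Q.2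
  · obtain ⟨g, hgQ, hgN, hgn⟩ := PSub.exists_mem_normalizer hp hQ
      (inf_le_left : Q ⊓ normalizer (E : Set G) ≤ Q) hN
    have h1 : ¬ ∀ t ∈ E, g * t * g⁻¹ ∈ E := fun h2 =>
      hgN ⟨hgQ, mem_normalizer_of_finite (hQ.1.subset hE) h2⟩
    have h2 : ∃ s ∈ S ∩ (E : Set G), g * s * g⁻¹ ∉ E := by
      by_contra hcon
      apply h1
      have h3 : Subgroup.closure (S ∩ (E : Set G)) ≤ E.comap (MulAut.conj g).toMonoidHom := by
        rw [closure_le]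
        intro s hs
        by_contra h4
        exact hcon ⟨s, hs, h4⟩
      exact fun t ht => h3 (hES ht)
    obtain ⟨s, ⟨hsS, hsE⟩, hy⟩ := h2
    have h3 : s ∈ Q ⊓ normalizer (E : Set G) := ⟨hE hsE, le_normalizer hsE⟩
    have h4 : g * s * g⁻¹ ∈ Q ⊓ normalizer (E : Set G) := (mem_normalizer_iff.1 hgn s).1 h3
    exact ⟨g * s * g⁻¹, hS g hgQ s hsS, h4.1, hy, h4.2⟩

end Pool.Agent.Lib.MP_032401_al_M
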