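import Pool.Agent.Lib.MP_032401_al_M.Acc

/-!
# MP_032401_al (project BFM): bad pairs of maximal members of a family of finite `k`-subgroups
-/

set_option autoImplicit false

namespace Pool.Agent.Lib.MP_032401_al_M

open Subgroup

variable {G : Type*} [Group G]

/-- Let `F` be a nonempty family of finite `k`-subgroups and `E` an equivalence-like property: `bad`
a symmetric relation on the maximal members of `F`, `¬ bad P P`. If some pair of maximal members
is bad there is a bad pair `P1`, `P2` for which `I P1 P2` is maximal, where `I` is a function with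
`PSub` values. Only `ACC` is used: apply `ACC.exists_maximal` to the set of all `I P1 P2`, `P1`,
`P2` maximal members of `F` with `bad P1 P2`. -/
theorem exists_bad {k : ℕ} (hacc : ACC G k) (M : Set (Subgroup G))
    (bad : Subgroup G → Subgroup G → Prop) (I : Subgroup G → Subgroup G → Subgroup G)
    (hI : ∀ P ∈ M, ∀ Q ∈ M, PSub k (I P Q)) {P Q : Subgroup G} (hP : P ∈ M) (hQ : Q ∈ M)
    (h : bad P Q) :
    ∃ P1 ∈ M, ∃ P2 ∈ M, bad P1 P2 ∧
      ∀ Q1 ∈ M, ∀ Q2 ∈ M, I P1 P2 ≤ I Q1 Q2 → bad Q1 Q2 → I Q1 Q2 = I P1 P2 := by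
  obtain ⟨J, ⟨P1, h1, P2, h2, hb, rfl⟩, -, hmax⟩ := hacc.exists_maximal
    {J | ∃ P1 ∈ M, ∃ P2 ∈ M, bad P1 P2 ∧ I P1 P2 = J} (by
      rintro _ ⟨P1, h1, P2, h2, _, rfl⟩
      exact hI P1 h1 P2 h2) (P0 := I P Q) ⟨P, hP, Q, hQ, h, rfl⟩
  exact ⟨P1, h1, P2, h2, hb, fun Q1 hQ1 Q2 hQ2 hle hbad =>
    hmax _ ⟨Q1, hQ1, Q2, hQ2, hbad, rfl⟩ hle⟩

end Pool.Agent.Lib.MP_032401_al_M
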