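import Pool.Agent.Lib.MP_032401_al_M.CCore
import Pool.Agent.Lib.MP_032401_al_M.SSm
import Pool.Agent.Lib.MP_032401_al_M.NC
import Pool.Agent.Lib.MP_032401_al_M.Syl

/-!
# MP_032401_al (project CS): elements of prime order, comparison of two maximal subgroups
-/

set_option autoImplicit false

namespace Pool.Agent.Lib.MP_032401_al_M

open Subgroup

variable {G : Type*} [Group G]

/-- the finite `m`-subgroups generated by conjugates of `a` -/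
def CE (m : ℕ) (a : G) (E : Subgroup G) : Prop :=
  PSub m E ∧ E ≤ Subgroup.closure ({z : G | ∃ g : G, z = g * a * g⁻¹} ∩ (E : Set G))

/-- the conjugates of `a` -/
def CStepA_X (a : G) : Set G := {z : G | ∃ g : G, z = g * a * g⁻¹}

theorem CStepA_conj {a : G} (g : G) {s : G} (hs : s ∈ CStepA_X a) :
    g * s * g⁻¹ ∈ CStepA_X a := by
  obtain ⟨h, rfl⟩ := hs
  exact ⟨g * h, by group⟩

theorem CStepA_pow {m : ℕ} {a s : G} (ha : a ^ m = 1) (hs : s ∈ CStepA_X a) : s ^ m = 1 := by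
  obtain ⟨h, rfl⟩ := hs
  rw [conj_pow, ha, mul_one, mul_inv_cancel]

theorem CStepA_ne {a s : G} (ha1 : a ≠ 1) (hs : s ∈ CStepA_X a) : s ≠ 1 := by
  obtain ⟨h, rfl⟩ := hs
  intro h1
  apply ha1
  have h2 : a = h⁻¹ * (h * a * h⁻¹) * h := by group
  rw [h2, h1]
  group

theorem CStepA_rel {a s t : G} (hs : s ∈ CStepA_X a) (ht : t ∈ CStepA_X a) :
    ∃ g : G, t = g * s * g⁻¹ := by
  obtain ⟨h, rfl⟩ := hs
  obtain ⟨h', rfl⟩ := ht
  exact ⟨h' * h⁻¹, by group⟩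

theorem CStepA_cj {m : ℕ} {a : G} {E : Subgroup G} (hE : CE m a E) (w : G) :
    CE m a (cj w E) := by
  refine ⟨hE.1.cj w, fun t ht => ?_⟩
  have h1 : Subgroup.closure (CStepA_X a ∩ (E : Set G)) ≤
      cj w⁻¹ (Subgroup.closure (CStepA_X a ∩ ((cj w E : Subgroup G) : Set G))) := by
    rw [closure_le]
    intro s hs
    refine subset_closure ⟨CStepA_conj w⁻¹ hs.1, ?_⟩
    have h2 : w * (w⁻¹ * s * w⁻¹⁻¹) * w⁻¹ = s := by group
    change w⁻¹ * s * w⁻¹⁻¹ ∈ cj w E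
    rw [mem_cj, h2]
    exact hs.2
  have h2 := h1 (hE.2 (mem_cj.1 ht))
  rw [mem_cj] at h2
  have h3 : w⁻¹ * (w * t * w⁻¹) * w⁻¹⁻¹ = t := by group
  rwa [h3] at h2

/-- the maximal members -/
def CStepA_M (m : ℕ) (a : G) : Set (Subgroup G) :=
  {E | CE m a E ∧ ∀ Q : Subgroup G, CE m a Q → E ≤ Q → Q = E}

theorem CStepA_M_cj {m : ℕ} {a : G} {E : Subgroup G} (hE : E ∈ CStepA_M m a) (w : G) :
    cj w E ∈ CStepA_M m a := by
  refine ⟨CStepA_cj hE.1 w, fun Q hQ hle => ?_⟩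
  have h1 : cj w⁻¹ Q = E := by
    refine hE.2 _ (CStepA_cj hQ w⁻¹) ?_
    have h2 := cj_mono w⁻¹ hle
    rwa [cj_inv_cj] at h2
  rw [← h1, cj_cj_inv]

/-- an element of the class which normalises the intersection -/
theorem CStepA_y {m : ℕ} (hm : m.Prime) {a : G} {P Q I : Subgroup G} (hP : P ∈ CStepA_M m a)
    (hQ : Q ∈ CStepA_M m a) (hne : P ≠ Q) (hIP : I ≤ P) (hIQ : I ≤ Q)
    (hII : I ≤ Subgroup.closure (CStepA_X a ∩ (I : Set G))) :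
    ∃ y ∈ CStepA_X a, y ∈ P ∧ y ∉ I ∧ y ∈ normalizer (I : Set G) := by
  refine exists_normalizing hm hP.1.1 (CStepA_X a) (fun g _ s hs => CStepA_conj g hs) hIP hII ?_
  by_contra hcon
  push Not at hcon
  apply hne
  refine (hP.2 Q hQ.1 ?_).symm
  refine hP.1.2.trans ((?_ : _ ≤ I).trans hIQ)
  rw [closure_le]
  exact fun s hs => hcon s hs.1 hs.2

/-- Proof. Let `X = {z | ∃ g, z = g a g⁻¹}`, invariant under conjugation by all of `G`, and let `M`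
be the set of the maximal members of `{E | CE m a E}` (by `ACC.exists_maximal` every member is
contained in a maximal one). Suppose `ρ ⊔ E1 ≠ ρ ⊔ E2` for some `E1`, `E2` in `M`. By `exists_bad`
(`bad P Q := ρ ⊔ P ≠ ρ ⊔ Q`, `I P Q := closure (X ∩ P ∩ Q) ≤ P`) we may take `E1`, `E2` with
`I = I E1 E2` maximal.

(1) `E1 ≠ E2`. Some `s ∈ X ∩ E1` is not in `I` (otherwise `E1 ≤ closure (X ∩ E1) ≤ I ≤ E2`, so
`E1 = E2` by maximality of `E1`). By `exists_normalizing` (`Q = E1`, `E = I`) there is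
`y1 ∈ X ∩ E1`, `y1 ∉ I`, normalising `I`. In the same way `y2 ∈ X ∩ E2`.

(2) `y1 ^ m = 1`, `y1 ≠ 1`, and `y2 = g y1 g⁻¹` for some `g`, so `U = closure {y1, y2}` is finite by
`CBF` for `H = ⊥`, and it normalises `I`. So `D = I ⊔ U` is finite (`sup_finite`), solvable, and
generated by elements of `X` (`X ∩ E1 ∩ E2`, `y1`, `y2`), which are `m`-elements.

(3) `R0 = closure (I ∪ {y1})` is a finite `m`-subgroup (`PSub.closure_insert`), contained in `E1`;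
take a Sylow `m`-subgroup `R ≥ R0` of `D` (`exists_syl`). `closure (X ∩ R)` satisfies `CE`, and
contains `R0`; let `E3 ≥ closure (X ∩ R)` be in `M`. `I ≤ I E1 E3` and `y1 ∈ I E1 E3`, `y1 ∉ I`,
so by maximality the pair `(E1, E3)` is not bad: `ρ ⊔ E1 = ρ ⊔ E3`.

(4) `T0 = closure (I ∪ {y2})` is a finite `m`-subgroup of `D`, so there is `d ∈ D` with
`d T0 d⁻¹ ⊆ R` (`IsSyl.conj_mem`), and `d⁻¹ = f * r`, `f ∈ ρ`, `r ∈ R` (`core_rho`); so
`f⁻¹ T0 f = r (d T0 d⁻¹) r⁻¹ ⊆ R`. As `T0` is generated by elements of `X`,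
`f⁻¹ T0 f ≤ closure (X ∩ R) ≤ E3`. So `T0 ≤ E4 = f E3 f⁻¹` (`cj f⁻¹ E3`), again in `M`, and
`I E2 E4` contains `I` and `y2 ∉ I`, so `ρ ⊔ E2 = ρ ⊔ E4`. Finally `ρ ⊔ E4 = ρ ⊔ E3`, because
`f ∈ ρ` and `ρ` is normal. So `ρ ⊔ E1 = ρ ⊔ E2`: contradiction. -/
theorem ce_two (hG : CCls G) {m : ℕ} (hm : m.Prime) (ρ : Subgroup G)
    (hρ : ∀ g : G, ∀ x ∈ ρ, g * x * g⁻¹ ∈ ρ) (hc : Triv m ρ) {a : G} (ha : a ^ m = 1)
    (ha1 : a ≠ 1) {E1 E2 : Subgroup G} (h1 : CE m a E1)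
    (h1' : ∀ Q : Subgroup G, CE m a Q → E1 ≤ Q → Q = E1) (h2 : CE m a E2)
    (h2' : ∀ Q : Subgroup G, CE m a Q → E2 ≤ Q → Q = E2) : ρ ⊔ E1 = ρ ⊔ E2 := by
  have hXe : ∀ s ∈ CStepA_X a, PElt m s := fun s hs => PElt.of_pow_eq_one (CStepA_pow ha hs)
  have hmax : ∀ E0 : Subgroup G, CE m a E0 → ∃ E ∈ CStepA_M m a, E0 ≤ E := by
    intro E0 h0
    obtain ⟨P, hP, hle, hmx⟩ := (hG.acc m hm).exists_maximal {E | CE m a E}
      (fun P hP => hP.1) (P0 := E0) h0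
    exact ⟨P, ⟨hP, hmx⟩, hle⟩
  by_contra hbad0
  obtain ⟨I, hIdef⟩ : ∃ I : Subgroup G → Subgroup G → Subgroup G, ∀ P Q, I P Q =
      Subgroup.closure (CStepA_X a ∩ ((P : Set G) ∩ (Q : Set G))) := ⟨_, fun _ _ => rfl⟩
  have hI1 : ∀ P Q, I P Q ≤ P := by
    intro P Q
    rw [hIdef, closure_le]
    exact fun s hs => hs.2.1
  have hI2 : ∀ P Q, I P Q ≤ Q := by
    intro P Q
    rw [hIdef, closure_le]
    exact fun s hs => hs.2.2
  have hmemI : ∀ P Q : Subgroup G, ∀ s ∈ CStepA_X a, s ∈ P → s ∈ Q → s ∈ I P Q := by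
    intro P Q s hs h1 h2
    rw [hIdef]
    exact subset_closure ⟨hs, h1, h2⟩
  have hII : ∀ P Q, I P Q ≤ Subgroup.closure (CStepA_X a ∩ ((I P Q : Subgroup G) : Set G)) := by
    intro P Q
    conv_lhs => rw [hIdef]
    exact closure_mono fun s hs => ⟨hs.1, hmemI P Q s hs.1 hs.2.1 hs.2.2⟩
  obtain ⟨P1, hP1, P2, hP2, hbad, hmaxI⟩ := exists_bad (hG.acc m hm) (CStepA_M m a)
    (fun P Q => ρ ⊔ P ≠ ρ ⊔ Q) I (fun P hP Q _ => hP.1.1.mono (hI1 P Q))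
    (P := E1) (Q := E2) ⟨h1, h1'⟩ ⟨h2, h2'⟩ hbad0
  have hne : P1 ≠ P2 := by
    rintro rfl
    exact hbad rfl
  obtain ⟨y1, hy1X, hy1P, hy1I, hy1n⟩ := CStepA_y hm hP1 hP2 hne (hI1 P1 P2) (hI2 P1 P2)
    (hII P1 P2)
  obtain ⟨y2, hy2X, hy2P, hy2I, hy2n⟩ := CStepA_y hm hP2 hP1 hne.symm (hI2 P1 P2) (hI1 P1 P2)
    (hII P1 P2)
  have hIs : PSub m (I P1 P2) := hP1.1.1.mono (hI1 P1 P2)
  -- the finite group generated by the two elements
  obtain ⟨g, hg⟩ := CStepA_rel hy1X hy2X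
  have hU : ((Subgroup.closure {y1, y2} : Subgroup G) : Set G).Finite := by
    have hnb : ∀ x : G, x ∈ normalizer ((⊥ : Subgroup G) : Set G) := by
      intro x
      refine mem_normalizer_of_finite (by simp) fun t ht => ?_
      rw [mem_bot] at ht ⊢
      rw [ht]
      group
    have h3 := hG.cbf ⊥ (by simp) y1 g (hnb y1) (hnb g) ⟨m, hm, by
      rw [mem_bot]
      exact CStepA_ne ha1 hy1X, by
      rw [mem_bot]
      exact CStepA_pow ha hy1X⟩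
    rw [← hg] at h3
    refine h3.subset ?_
    exact closure_mono Set.subset_union_right
  have hUn : Subgroup.closure {y1, y2} ≤ normalizer ((I P1 P2 : Subgroup G) : Set G) := by
    rw [closure_le]
    rintro s (hs | hs)
    · rw [hs]
      exact hy1n
    · rw [Set.mem_singleton_iff] at hs
      rw [hs]
      exact hy2n
  obtain ⟨D, hDdef⟩ : ∃ D : Subgroup G, D = I P1 P2 ⊔ Subgroup.closure {y1, y2} := ⟨_, rfl⟩
  have hD : (D : Set G).Finite := by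
    rw [hDdef]
    exact sup_finite hIs.1 hU hUn
  have hsol := hG.sol D hD
  have hDS : Subgroup.closure (CStepA_X a ∩ ((P1 : Set G) ∩ (P2 : Set G)) ∪ {y1, y2}) = D := by
    rw [hDdef, hIdef, Subgroup.closure_union]
  have hIT : I P1 P2 ≤ D := by
    rw [hDdef]
    exact le_sup_left
  have hyU1 : y1 ∈ D := by
    rw [hDdef]
    exact (le_sup_right : Subgroup.closure {y1, y2} ≤ _) (subset_closure (Set.mem_insert _ _))
  have hyU2 : y2 ∈ D := by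
    rw [hDdef]
    exact (le_sup_right : Subgroup.closure {y1, y2} ≤ _)
      (subset_closure (Set.mem_insert_of_mem _ rfl))
  have hS : ∀ s ∈ CStepA_X a ∩ ((P1 : Set G) ∩ (P2 : Set G)) ∪ {y1, y2}, PElt m s := by
    rintro s (hs | hs | hs)
    · exact hXe s hs.1
    · rw [hs]
      exact hXe y1 hy1X
    · rw [Set.mem_singleton_iff] at hs
      rw [hs]
      exact hXe y2 hy2X
  have hle0 : ∀ y : G, y ∈ D → Subgroup.closure ((I P1 P2 : Set G) ∪ {y}) ≤ D := by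
    intro y hy
    rw [closure_le]
    rintro s (hs | hs)
    · exact hIT hs
    · rw [Set.mem_singleton_iff] at hs
      rw [hs]
      exact hy
  obtain ⟨R, hR0, hR⟩ := exists_syl hD (PSub.closure_insert hm hIs (hXe y1 hy1X) hy1n)
    (hle0 y1 hyU1)
  have hCR : Subgroup.closure (CStepA_X a ∩ (R : Set G)) ≤ R := by
    rw [closure_le]
    exact fun s hs => hs.2
  have hC : CE m a (Subgroup.closure (CStepA_X a ∩ (R : Set G))) := by
    refine ⟨hR.2.1.mono hCR, closure_mono fun s hs => ⟨hs.1, subset_closure hs⟩⟩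
  obtain ⟨E3, hE3, hCE3⟩ := hmax _ hC
  have hXR : ∀ s ∈ CStepA_X a, s ∈ R → s ∈ E3 := fun s hs hsR => hCE3 (subset_closure ⟨hs, hsR⟩)
  have hcmp : ∀ P Q : Subgroup G, P ∈ CStepA_M m a → Q ∈ CStepA_M m a →
      (∀ s ∈ CStepA_X a, s ∈ P1 → s ∈ P2 → s ∈ P ∧ s ∈ Q) →
      (∃ y ∈ CStepA_X a, y ∈ P ∧ y ∈ Q ∧ y ∉ I P1 P2) → ρ ⊔ P = ρ ⊔ Q := by
    rintro P Q hP hQ hle ⟨y, hyX, hyP, hyQ, hyI⟩
    by_contra hb
    have h3 := hmaxI P hP Q hQ (by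
      conv_lhs => rw [hIdef]
      rw [closure_le]
      exact fun s hs => hmemI P Q s hs.1 (hle s hs.1 hs.2.1 hs.2.2).1
        (hle s hs.1 hs.2.1 hs.2.2).2) hb
    apply hyI
    rw [← h3]
    exact hmemI P Q y hyX hyP hyQ
  have hA : ρ ⊔ P1 = ρ ⊔ E3 := by
    refine hcmp P1 E3 hP1 hE3 (fun s hs hs1 hs2 => ⟨hs1, hXR s hs (hR0 (subset_closure
      (Or.inl (hmemI P1 P2 s hs hs1 hs2))))⟩) ⟨y1, hy1X, hy1P, hXR y1 hy1X (hR0
        (subset_closure (Or.inr rfl))), hy1I⟩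
  -- the second Sylow argument
  obtain ⟨d, hd, hdR⟩ := IsSyl.conj_mem hm hD hR (PSub.closure_insert hm hIs (hXe y2 hy2X) hy2n)
    (hle0 y2 hyU2)
  obtain ⟨f, hf, r, hr, hfr⟩ := core_rho hm ρ hρ hc hD hsol hS hDS hR d⁻¹ (D.inv_mem hd)
  have hconj : ∀ x ∈ Subgroup.closure ((I P1 P2 : Set G) ∪ {y2}), f⁻¹ * x * f⁻¹⁻¹ ∈ R := by
    intro x hx
    have h3 : f⁻¹ * x * f⁻¹⁻¹ = r * (d * x * d⁻¹) * r⁻¹ := by
      have h4 : f = d⁻¹ * r⁻¹ := by rw [hfr]; group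
      rw [h4]
      group
    rw [h3]
    exact R.mul_mem (R.mul_mem hr (hdR x hx)) (R.inv_mem hr)
  have hE4 : cj f⁻¹ E3 ∈ CStepA_M m a := CStepA_M_cj hE3 f⁻¹
  have hmem4 : ∀ s ∈ CStepA_X a, s ∈ Subgroup.closure ((I P1 P2 : Set G) ∪ {y2}) →
      s ∈ cj f⁻¹ E3 := by
    intro s hs hsT
    rw [mem_cj]
    exact hXR _ (CStepA_conj f⁻¹ hs) (hconj s hsT)
  have hB : ρ ⊔ P2 = ρ ⊔ cj f⁻¹ E3 := by
    refine hcmp P2 (cj f⁻¹ E3) hP2 hE4 (fun s hs hs1 hs2 => ⟨hs2, hmem4 s hs (subset_closure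
      (Or.inl (hmemI P1 P2 s hs hs1 hs2)))⟩) ⟨y2, hy2X, hy2P, hmem4 y2 hy2X
        (subset_closure (Or.inr rfl)), hy2I⟩
  have hE : ρ ⊔ cj f⁻¹ E3 = ρ ⊔ E3 := by
    refine le_antisymm (sup_le le_sup_left fun t ht => ?_) (sup_le le_sup_left fun t ht => ?_)
    · rw [mem_cj] at ht
      have h3 : t = f * (f⁻¹ * t * f⁻¹⁻¹) * f⁻¹ := by group
      rw [h3]
      have hf' : f ∈ ρ ⊔ E3 := (le_sup_left : ρ ≤ ρ ⊔ E3) hf
      exact mul_mem (mul_mem hf' ((le_sup_right : E3 ≤ ρ ⊔ E3) ht)) (inv_mem hf')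
    · have hf' : f ∈ ρ ⊔ cj f⁻¹ E3 := (le_sup_left : ρ ≤ ρ ⊔ cj f⁻¹ E3) hf
      have h4 : f * t * f⁻¹ ∈ cj f⁻¹ E3 := by
        rw [mem_cj]
        have h5 : f⁻¹ * (f * t * f⁻¹) * f⁻¹⁻¹ = t := by group
        rwa [h5]
      have h3 : t = f⁻¹ * (f * t * f⁻¹) * f := by group
      rw [h3]
      exact mul_mem (mul_mem (inv_mem hf') ((le_sup_right : cj f⁻¹ E3 ≤ ρ ⊔ cj f⁻¹ E3) h4)) hf'
  exact hbad (by rw [hA, hB, hE])

end Pool.Agent.Lib.MP_032401_al_M
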