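import Pool.Agent.Lib.MP_032401_al_M.CStepA

/-!
# MP_032401_al (project CS): elements of prime order are in the radical
-/

set_option autoImplicit false

namespace Pool.Agent.Lib.MP_032401_al_M

open Subgroup

variable {G : Type*} [Group G]

private theorem CStepA2_cj {m : ℕ} {a : G} {E : Subgroup G} (hE : CE m a E) (w : G) :
    CE m a (cj w E) := by
  refine ⟨hE.1.cj w, ?_⟩
  intro x hx
  have h1 : Subgroup.closure ({z : G | ∃ g : G, z = g * a * g⁻¹} ∩ (E : Set G)) ≤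
      cj w⁻¹ (Subgroup.closure ({z : G | ∃ g : G, z = g * a * g⁻¹} ∩ (cj w E : Set G))) := by
    rw [Subgroup.closure_le]
    rintro z ⟨⟨g, rfl⟩, hzE⟩
    refine Subgroup.subset_closure ⟨⟨w⁻¹ * g, ?_⟩, ?_⟩
    · change w⁻¹ * (g * a * g⁻¹) * w⁻¹⁻¹ = _
      group
    · change w * (w⁻¹ * (g * a * g⁻¹) * w⁻¹⁻¹) * w⁻¹ ∈ E
      have h2 : w * (w⁻¹ * (g * a * g⁻¹) * w⁻¹⁻¹) * w⁻¹ = g * a * g⁻¹ := by group
      rw [h2]
      exact hzE
  have h2 := h1 (hE.2 (mem_cj.1 hx))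
  rw [mem_cj] at h2
  have h3 : w⁻¹ * (w * x * w⁻¹) * w⁻¹⁻¹ = x := by group
  rwa [h3] at h2

/-- Proof. As `Fin_mem_rad` in `Fin.lean`. If `a = 1` clear. `zpowers a` satisfies `CE m a`; let
`E ≥ zpowers a` be a maximal member of `{E | CE m a E}` (`ACC.exists_maximal`). For `g : G` the
conjugate `cj g⁻¹ E = g E g⁻¹` is again maximal (`CE` is invariant under conjugation), so
`ρ ⊔ E = ρ ⊔ g E g⁻¹` by `ce_two` (`ρ = rad ⊤`). So `V = ρ ⊔ E` is normal, and locally finite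
(`LF.sup`, `LF_rad`, `LF.of_finite`), so it is contained in `rad ⊤` (`le_rad`), and `a ∈ V`. -/
theorem prime_mem_rad (hG : CCls G) {m : ℕ} (hm : m.Prime)
    (hc : Triv m (rad (⊤ : Subgroup G))) {a : G} (ha : a ^ m = 1) :
    a ∈ rad (⊤ : Subgroup G) := by
  by_cases ha1 : a = 1
  · rw [ha1]
    exact Subgroup.one_mem _
  have hρ : ∀ g : G, ∀ x ∈ rad (⊤ : Subgroup G), g * x * g⁻¹ ∈ rad (⊤ : Subgroup G) :=
    fun g x hx => rad_conj hx g
  have h0 : CE m a (Subgroup.zpowers a) := by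
    refine ⟨PSub.zpowers hm (PElt.of_pow_eq_one ha), ?_⟩
    rw [Subgroup.zpowers_le]
    exact Subgroup.subset_closure ⟨⟨1, by group⟩, Subgroup.mem_zpowers a⟩
  obtain ⟨S, hS, hxS, hSm⟩ := (hG.acc m hm).exists_maximal {E | CE m a E} (fun E hE => hE.1)
    (P0 := Subgroup.zpowers a) h0
  have hSn : ∀ g : G, ∀ s ∈ S, g * s * g⁻¹ ∈ rad (⊤ : Subgroup G) ⊔ S := by
    intro g s hs
    have h1 : ∀ Q : Subgroup G, CE m a Q → cj g⁻¹ S ≤ Q → Q = cj g⁻¹ S := by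
      intro Q hQ hle
      have h2 : cj g Q = S := by
        refine hSm _ (CStepA2_cj hQ g) ?_
        have h3 := cj_mono g hle
        rwa [cj_cj_inv] at h3
      rw [← h2, cj_inv_cj]
    have h2 := ce_two hG hm (rad (⊤ : Subgroup G)) hρ hc ha ha1 (CStepA2_cj hS g⁻¹) h1 hS hSm
    rw [← h2]
    refine (le_sup_right : cj g⁻¹ S ≤ _) ?_
    rw [mem_cj]
    have h3 : g⁻¹ * (g * s * g⁻¹) * g⁻¹⁻¹ = s := by group
    rwa [h3]
  have hLF : LF (rad (⊤ : Subgroup G) ⊔ S) :=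
    (LF_rad _).sup (LF.of_finite hS.1.1) (le_top.trans (le_normalizer_rad (⊤ : Subgroup G)))
  have hn : ∀ g : G, ∀ v ∈ rad (⊤ : Subgroup G) ⊔ S, g * v * g⁻¹ ∈ rad (⊤ : Subgroup G) ⊔ S := by
    intro g
    have h1 : rad (⊤ : Subgroup G) ⊔ S ≤
        (rad (⊤ : Subgroup G) ⊔ S).comap (MulAut.conj g).toMonoidHom := by
      refine sup_le (fun v hv => ?_) (fun v hv => hSn g v hv)
      exact (le_sup_left : rad (⊤ : Subgroup G) ≤ _) (hρ g v hv)
    exact fun v hv => h1 hv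
  exact le_rad hLF hn ((le_sup_right : S ≤ _) (hxS (Subgroup.mem_zpowers a)))

end Pool.Agent.Lib.MP_032401_al_M
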