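import Pool.Agent.Lib.MP_032401_al_M.CDefs

/-!
# MP_032401_al (project CS): subgroups
-/

set_option autoImplicit false

namespace Pool.Agent.Lib.MP_032401_al_M

open Subgroup

variable {G : Type*} [Group G]

private theorem CSub_norm {K : Subgroup G} {H : Subgroup K} {x : K}
    (hx : x ∈ normalizer (H : Set K)) :
    (x : G) ∈ normalizer ((H.map K.subtype : Subgroup G) : Set G) :=
  Subgroup.le_normalizer_map K.subtype ⟨x, hx, rfl⟩

private theorem CSub_cbf (h : CBF G) (K : Subgroup G) : CBF K := by
  intro H hH x g hx hg hxp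
  obtain ⟨p, hp, hxH, hxp⟩ := hxp
  have hinj : Function.Injective K.subtype := K.subtype_injective
  have hHf : ((H.map K.subtype : Subgroup G) : Set G).Finite := by
    rw [Subgroup.coe_map]
    exact hH.image _
  have h1 := h (H.map K.subtype) hHf x g (CSub_norm hx) (CSub_norm hg) ⟨p, hp, ?_, ?_⟩
  · have h2 : K.subtype '' ((H : Set K) ∪ {x, g * x * g⁻¹}) =
        ((H.map K.subtype : Subgroup G) : Set G) ∪ {(x : G), (g : G) * x * (g : G)⁻¹} := by
      rw [Set.image_union, Set.image_pair, Subgroup.coe_map]
      rfl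
    rw [← h2, ← MonoidHom.map_closure, Subgroup.coe_map] at h1
    exact h1.of_finite_image hinj.injOn
  · rintro ⟨y, hy, hyx⟩
    have h3 : y = x := hinj hyx
    exact hxH (h3 ▸ hy)
  · exact ⟨x ^ p, hxp, by simp⟩

private theorem CSub_sol (h : Sol G) (K : Subgroup G) : Sol K := by
  intro F hF
  have hFf : ((F.map K.subtype : Subgroup G) : Set G).Finite := by
    rw [Subgroup.coe_map]
    exact hF.image _
  have h1 : Group.IsSolvable (F.map K.subtype : Subgroup G) := h _ hFf
  let e := F.equivMapOfInjective K.subtype K.subtype_injective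
  exact Group.isSolvable_of_surjective (f := e.symm.toMonoidHom) e.symm.surjective

/-- Proof. Compare `Cls.of_injective` in `Pool/Agent/Lib/MP_032401_al/Basic.lean`: map everything
to `G` with `K.subtype`. For `ACC`: a monotone sequence of finite `p`-subgroups of `K` maps to one
of `G`, and `Subgroup.map` of an injective map is injective. `Sol`: a finite subgroup `F` of `K` is
isomorphic to its image in `G` (`Group.isSolvable_of_isSolvable_injective`). -/
theorem CCls.sub (hG : CCls G) (K : Subgroup G) : CCls K where
  per g := by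
    have h1 := hG.per (g : G)
    exact Submonoid.isOfFinOrder_coe.1 h1
  cbf := CSub_cbf hG.cbf K
  sol := CSub_sol hG.sol K
  acc p hp := by
    intro f hf hmono
    obtain ⟨n, hn⟩ := hG.acc p hp (fun n => (f n).map K.subtype) (fun n => (hf n).map _)
      (fun a b hab => Subgroup.map_mono (hmono hab))
    exact ⟨n, fun m hm => Subgroup.map_injective K.subtype_injective (hn m hm)⟩

/-- Proof. Map `Y` and `u` to `G`. -/
theorem Act.of_sub {K : Subgroup G} {q k : ℕ} (h : Act K q k) : Act G q k := by
  obtain ⟨Y, u, hY, hu, hn, y, hy, hne⟩ := h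
  refine ⟨Y.map K.subtype, u, hY.map _, hu.map K.subtype, CSub_norm hn, y, ⟨y, hy, rfl⟩,
    fun h => hne ?_⟩
  exact Subtype.ext h

end Pool.Agent.Lib.MP_032401_al_M
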