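import Pool.Agent.Lib.MP_032401_al_M.CStepA2
import Pool.Agent.Lib.MP_032401_al_M.CSub
import Pool.Agent.Lib.MP_032401_al_M.CQuot
import Pool.Agent.Lib.MP_032401_al_M.CFrat

/-!
# MP_032401_al (project CS): all `m`-elements are in the radical
-/

set_option autoImplicit false

namespace Pool.Agent.Lib.MP_032401_al_M

open Subgroup

variable {G : Type*} [Group G]

theorem LF.map {H : Type*} [Group H] (f : G →* H) {A : Subgroup G} (hA : LF A) :
    LF (A.map f) := by
  classical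
  intro S hS hSA
  have h1 : ∀ x : H, ∃ a : G, x ∈ S → a ∈ A ∧ f a = x := by
    intro x
    by_cases hx : x ∈ S
    · obtain ⟨a, ha, hax⟩ := hSA hx
      exact ⟨a, fun _ => ⟨ha, hax⟩⟩
    · exact ⟨1, fun h => absurd h hx⟩
  choose a ha using h1
  have h2 := hA (a '' S) (hS.image a) (by
    rintro _ ⟨x, hx, rfl⟩
    exact (ha x hx).1)
  refine (h2.image f).subset ?_
  have h3 : closure S ≤ (closure (a '' S)).map f := by
    rw [closure_le]
    intro x hx
    exact ⟨a x, subset_closure ⟨x, hx, rfl⟩, (ha x hx).2⟩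
  exact h3

theorem LF.comap_inj {H : Type*} [Group H] (f : G →* H) (hf : Function.Injective f)
    {A : Subgroup H} (hA : LF A) : LF (A.comap f) := by
  intro S hS hSA
  have h1 := hA (f '' S) (hS.image f) (by
    rintro _ ⟨x, hx, rfl⟩
    exact hSA hx)
  refine (h1.preimage hf.injOn).subset ?_
  have h2 : closure S ≤ (closure (f '' S)).comap f := by
    rw [closure_le]
    intro x hx
    exact subset_closure ⟨x, hx, rfl⟩
  exact h2

theorem LF.comap_quot (O : Subgroup G) [O.Normal] (hO : (O : Set G).Finite)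
    {A : Subgroup (G ⧸ O)} (hA : LF A) : LF (A.comap (QuotientGroup.mk' O)) := by
  intro S hS hSA
  have h1 := hA (QuotientGroup.mk' O '' S) (hS.image _) (by
    rintro _ ⟨x, hx, rfl⟩
    exact hSA hx)
  refine (comap_finite O hO _ h1).subset ?_
  have h2 : closure S ≤ (closure (QuotientGroup.mk' O '' S)).comap (QuotientGroup.mk' O) := by
    rw [closure_le]
    intro x hx
    exact subset_closure ⟨x, hx, rfl⟩
  exact h2

/-- the inductive step -/
theorem mem_rad_of_act (hG : CCls G) {m : ℕ} (hm : m.Prime)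
    (h : ∀ k : ℕ, k.Prime → k ≠ m → Act G m k → ∀ y : G, PElt k y → y ∈ rad (⊤ : Subgroup G))
    {a : G} (ha : PElt m a) : a ∈ rad (⊤ : Subgroup G) := by
  classical
  by_contra hna
  have hρ : ∀ g : G, ∀ x ∈ rad (⊤ : Subgroup G), g * x * g⁻¹ ∈ rad (⊤ : Subgroup G) :=
    fun g x hx => rad_conj hx g
  -- an element of order `m` modulo the radical
  obtain ⟨b, hb, hnb, hbm⟩ : ∃ b : G, PElt m b ∧ b ∉ rad (⊤ : Subgroup G) ∧
      b ^ m ∈ rad (⊤ : Subgroup G) := by
    obtain ⟨n, hn⟩ := ha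
    have hex : ∃ j : ℕ, a ^ m ^ j ∈ rad (⊤ : Subgroup G) := ⟨n, by rw [hn]; exact one_mem _⟩
    have hj := Nat.find_spec hex
    have hj0 : Nat.find hex ≠ 0 := by
      intro h0
      rw [h0, pow_zero, pow_one] at hj
      exact hna hj
    obtain ⟨i, hi⟩ := Nat.exists_eq_succ_of_ne_zero hj0
    refine ⟨a ^ m ^ i, PElt.pow ⟨n, hn⟩ _, ?_, ?_⟩
    · exact Nat.find_min hex (by omega)
    · rw [hi, Nat.succ_eq_add_one, pow_succ, pow_mul] at hj
      exact hj
  obtain ⟨S, hS, hbS, hSm⟩ := (hG.acc m hm).exists_maximal {P | PSub m P} (fun P hP => hP)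
    (P0 := Subgroup.zpowers b) (PSub.zpowers hm hb)
  have hSm' : ∀ Q : Subgroup G, PSub m Q → S ≤ Q → Q = S := hSm
  have hbS' : b ∈ S := hbS (mem_zpowers b)
  have hfrat := frattini_rad hm (rad (⊤ : Subgroup G)) hρ (LF_rad _) hS hSm'
  set L : Subgroup G := S ⊓ rad (⊤ : Subgroup G) with hL
  have hLf : PSub m L := PSub.mono hS inf_le_left
  set N : Subgroup G := normalizer (L : Set G) with hN
  have hLN : L ≤ N := le_normalizer
  have hbN : b ∈ N := by
    refine mem_normalizer_of_finite hLf.1 fun t ht => ⟨?_, hρ b t ht.2⟩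
    exact S.mul_mem (S.mul_mem hbS' ht.1) (S.inv_mem hbS')
  have hO : (L.subgroupOf N).Normal := by
    rw [hN]
    infer_instance
  have hOf : ((L.subgroupOf N : Subgroup N) : Set N).Finite := by
    rw [Subgroup.coe_subgroupOf]
    exact hLf.1.preimage (Subtype.val_injective.injOn)
  have hCN : CCls N := hG.sub N
  have hCQ : CCls (N ⧸ L.subgroupOf N) := hCN.quot _ hOf
  set π := QuotientGroup.mk' (L.subgroupOf N) with hπ
  -- the image of the radical of `G`
  have hV : ((rad (⊤ : Subgroup G)).subgroupOf N).map π ≤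
      rad (⊤ : Subgroup (N ⧸ L.subgroupOf N)) := by
    have h1 : LF (((rad (⊤ : Subgroup G)).subgroupOf N).map π) :=
      LF.map π (LF.comap_inj N.subtype Subtype.val_injective (LF_rad _))
    refine fun v hv => le_rad h1 ?_ hv
    rintro g _ ⟨x, hx, rfl⟩
    obtain ⟨g, rfl⟩ := QuotientGroup.mk'_surjective (L.subgroupOf N) g
    refine ⟨g * x * g⁻¹, ?_, by rw [map_mul, map_mul, map_inv]⟩
    exact hρ g x hx
  have hTriv : Triv m (rad (⊤ : Subgroup (N ⧸ L.subgroupOf N))) := by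
    intro k hk hkm u hu Y hY huY y hy
    by_cases hcomm : u * y = y * u
    · have h1 : u * y * u⁻¹ * y⁻¹ = 1 := by rw [hcomm]; group
      rw [h1]
      exact one_mem _
    have hact : Act (N ⧸ L.subgroupOf N) m k := ⟨Y, u, hY, hu, huY, y, hy, hcomm⟩
    have hact1 : Act N m k := act_lift hCN.per _ hOf hm hk (Ne.symm hkm) hact
    have hact2 : Act G m k := Act.of_sub hact1
    have hk1 : ∀ z : N ⧸ L.subgroupOf N, PElt k z →
        z ∈ rad (⊤ : Subgroup (N ⧸ L.subgroupOf N)) := by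
      intro z hz
      obtain ⟨w, rfl⟩ := QuotientGroup.mk'_surjective (L.subgroupOf N) z
      obtain ⟨s, hs, hsw⟩ := exists_lift π (hCN.per w) hk hz
      refine hV ⟨w ^ s, ?_, hsw⟩
      exact h k hk hkm hact2 _ (hs.map N.subtype)
    have h1 : u * y * u⁻¹ ∈ Y := (mem_normalizer_iff.1 huY y).1 hy
    exact mul_mem (hk1 _ (hY.2 _ h1)) (inv_mem (hk1 _ (hY.2 _ hy)))
  have hbbar : π ⟨b, hbN⟩ ∈ rad (⊤ : Subgroup (N ⧸ L.subgroupOf N)) := by
    refine prime_mem_rad hCQ hm hTriv ?_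
    rw [← map_pow]
    refine (QuotientGroup.eq_one_iff _).2 ?_
    exact ⟨S.pow_mem hbS' m, hbm⟩
  -- the preimage in `G`
  set B : Subgroup G :=
    ((rad (⊤ : Subgroup (N ⧸ L.subgroupOf N))).comap π).map N.subtype with hB
  have hBLF : LF B := LF.map _ (LF.comap_quot _ hOf (LF_rad _))
  have hbB : b ∈ B := ⟨⟨b, hbN⟩, hbbar, rfl⟩
  have hBn : ∀ n ∈ N, ∀ v ∈ B, n * v * n⁻¹ ∈ B := by
    rintro n hn _ ⟨v, hv, rfl⟩
    refine ⟨⟨n, hn⟩ * v * ⟨n, hn⟩⁻¹, ?_, rfl⟩
    change π (⟨n, hn⟩ * v * ⟨n, hn⟩⁻¹) ∈ rad (⊤ : Subgroup (N ⧸ L.subgroupOf N))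
    rw [map_mul, map_mul, map_inv]
    exact rad_conj hv _
  have hLF2 : LF (rad (⊤ : Subgroup G) ⊔ B) :=
    (LF_rad _).sup hBLF (le_top.trans (le_normalizer_rad (⊤ : Subgroup G)))
  have hn : ∀ g : G, ∀ v ∈ rad (⊤ : Subgroup G) ⊔ B, g * v * g⁻¹ ∈ rad (⊤ : Subgroup G) ⊔ B := by
    intro g
    have h1 : rad (⊤ : Subgroup G) ⊔ B ≤
        (rad (⊤ : Subgroup G) ⊔ B).comap (MulAut.conj g).toMonoidHom := by
      refine sup_le (fun v hv => ?_) (fun v hv => ?_)
      · exact (le_sup_left : rad (⊤ : Subgroup G) ≤ _) (hρ g v hv)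
      · change g * v * g⁻¹ ∈ rad (⊤ : Subgroup G) ⊔ B
        obtain ⟨f, hf, n, hn, rfl⟩ := hfrat g
        have hf' : f ∈ rad (⊤ : Subgroup G) ⊔ B := (le_sup_left : rad (⊤ : Subgroup G) ≤ _) hf
        have h2 : n * v * n⁻¹ ∈ rad (⊤ : Subgroup G) ⊔ B := (le_sup_right : B ≤ _) (hBn n hn v hv)
        have h3 : f * n * v * (f * n)⁻¹ = f * (n * v * n⁻¹) * f⁻¹ := by group
        rw [h3]
        exact mul_mem (mul_mem hf' h2) (inv_mem hf')
    exact fun v hv => h1 hv
  exact hnb (le_rad hLF2 hn ((le_sup_right : B ≤ _) hbB))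

end Pool.Agent.Lib.MP_032401_al_M
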