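import Mathlib

/-!
# MP_032401_al (project BFM): periodic biprimitively finite groups, definitions
-/

set_option autoImplicit false

namespace Pool.Agent.Lib.MP_032401_al_M

/-- `x` is a `p`-element -/
def PElt {G : Type*} [Group G] (p : ℕ) (x : G) : Prop := ∃ m : ℕ, x ^ p ^ m = 1

/-- `P` is a finite `p`-subgroup -/
def PSub {G : Type*} [Group G] (p : ℕ) (P : Subgroup G) : Prop :=
  (P : Set G).Finite ∧ ∀ x ∈ P, PElt p x

/-- some `q`-element normalises but does not centralise some finite `k`-subgroup -/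
def Act (G : Type*) [Group G] (q k : ℕ) : Prop :=
  ∃ (Y : Subgroup G) (u : G), PSub k Y ∧ PElt q u ∧ u ∈ Subgroup.normalizer (Y : Set G) ∧
    ∃ y ∈ Y, u * y ≠ y * u

/-- biprimitively finite groups (exactly as in the frozen statement) -/
def BF (G : Type*) [Group G] : Prop :=
  ∀ H : Subgroup G, (H : Set G).Finite →
    ∀ x y : G, x ∈ Subgroup.normalizer (H : Set G) → y ∈ Subgroup.normalizer (H : Set G) →
      (∃ p : ℕ, p.Prime ∧ x ∉ H ∧ x ^ p ∈ H) →
      (∃ q : ℕ, q.Prime ∧ y ∉ H ∧ y ^ q ∈ H) →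
      ((Subgroup.closure ((H : Set G) ∪ {x, y}) : Subgroup G) : Set G).Finite

/-- every finite subgroup is metanilpotent -/
def Met (G : Type*) [Group G] : Prop :=
  ∀ F : Subgroup G, (F : Set G).Finite →
    ∃ (N : Subgroup F) (_ : N.Normal), Group.IsNilpotent N ∧ Group.IsNilpotent (F ⧸ N)

/-- ascending chains of finite `p`-subgroups stabilise -/
def ACC (G : Type*) [Group G] (p : ℕ) : Prop :=
  ∀ f : ℕ → Subgroup G, (∀ n, PSub p (f n)) → Monotone f → ∃ n, ∀ m, n ≤ m → f m = f n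

/-- the class of groups considered here -/
structure Cls (G : Type*) [Group G] : Prop where
  per : ∀ g : G, IsOfFinOrder g
  bf : BF G
  met : Met G
  chn : ∀ m l k : ℕ, m.Prime → l.Prime → k.Prime → m ≠ l → l ≠ k → Act G m l → Act G l k →
    l ∣ k - 1
  acc : ∀ p : ℕ, p.Prime → ACC G p

variable {G : Type*} [Group G]

/-- elements of `N` of coprime prime power orders commute, and products of `p`-elements of `N` are
`p`-elements (for a finite group this says that `N` is nilpotent) -/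
structure NilL (N : Subgroup G) : Prop where
  comm : ∀ p q : ℕ, p.Prime → q.Prime → p ≠ q → ∀ x ∈ N, ∀ y ∈ N, PElt p x → PElt q y →
    x * y = y * x
  mul : ∀ p : ℕ, p.Prime → ∀ x ∈ N, ∀ y ∈ N, PElt p x → PElt p y → PElt p (x * y)

/-- `N` is a nilpotent normal subgroup of `F` with nilpotent factor group (local form) -/
structure MetN (F N : Subgroup G) : Prop where
  le : N ≤ F
  norm : F ≤ Subgroup.normalizer (N : Set G)
  nil : NilL N
  comm : ∀ p q : ℕ, p.Prime → q.Prime → p ≠ q → ∀ x ∈ F, ∀ y ∈ F, PElt p x → PElt q y →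
    x * y * x⁻¹ * y⁻¹ ∈ N
  mul : ∀ p : ℕ, p.Prime → ∀ x ∈ F, ∀ y ∈ F, (∃ m : ℕ, x ^ p ^ m ∈ N) →
    (∃ m : ℕ, y ^ p ^ m ∈ N) → ∃ m : ℕ, (x * y) ^ p ^ m ∈ N

/-- the `k`-part of `N` -/
def KP (k : ℕ) (N : Subgroup G) : Subgroup G := Subgroup.closure {x | x ∈ N ∧ PElt k x}

/-- `R` is a Sylow `k`-subgroup of `D` -/
def IsSyl (k : ℕ) (D R : Subgroup G) : Prop :=
  R ≤ D ∧ PSub k R ∧ ∀ Q : Subgroup G, Q ≤ D → PSub k Q → R ≤ Q → Q = R

/-- `W` is a nilpotent normal Hall `k'`-subgroup of `D`, complemented by each Sylow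
`k`-subgroup -/
structure HallC (k : ℕ) (D W : Subgroup G) : Prop where
  le : W ≤ D
  norm : D ≤ Subgroup.normalizer (W : Set G)
  nil : NilL W
  cop : ∀ w ∈ W, PElt k w → w = 1
  max : ∀ d ∈ D, ∀ n : ℕ, ¬ k ∣ n → d ^ n = 1 → d ∈ W
  fac : ∀ R : Subgroup G, IsSyl k D R → ∀ d ∈ D, ∃ w ∈ W, ∃ r ∈ R, d = w * r

/-- the elements of order `k` generating a subgroup which is normalised, but not centralised
by `x` -/
def CC (k : ℕ) (x : G) : Set G :=
  {v | v ^ k = 1 ∧ (∃ c : ℕ, x * v * x⁻¹ = v ^ c) ∧ x * v ≠ v * x}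

/-- the elements of order `k` generating a subgroup which is normalised, but not centralised
by `Y` -/
def CY (k : ℕ) (Y : Set G) : Set G :=
  {v | v ^ k = 1 ∧ (∀ y ∈ Y, ∃ c : ℕ, y * v * y⁻¹ = v ^ c) ∧ ∃ y ∈ Y, y * v ≠ v * y}

/-- the elements of order `l` centralising all finite `k`-subgroups they normalise, `k ≠ l` -/
def XL (l : ℕ) (z : G) : Prop :=
  z ^ l = 1 ∧ ∀ k : ℕ, k.Prime → k ≠ l → ∀ T : Subgroup G, PSub k T →
    z ∈ Subgroup.normalizer (T : Set G) → ∀ t ∈ T, z * t = t * z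

end Pool.Agent.Lib.MP_032401_al_M
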