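import Mathlib

/-!
# MP_032401_al (project BFM): common eigenvectors (linear algebra)
-/

set_option autoImplicit false

namespace Pool.Agent.Lib.MP_032401_al_M

open Polynomial in
/-- an endomorphism with `b ^ (k - 1) = 1` of a nonzero finite space over `ZMod k` has an
eigenvector -/
theorem EvL_eigen {k : ℕ} [Fact k.Prime] {W : Type*} [AddCommGroup W] [Module (ZMod k) W]
    [Finite W] [Nontrivial W] (b : Module.End (ZMod k) W) (hb : b ^ (k - 1) = 1) :
    ∃ (c : ZMod k) (w : W), w ≠ 0 ∧ b w = c • w := by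
  have hk : k.Prime := Fact.out
  have hfin : Module.Finite (ZMod k) W := Module.Finite.of_finite
  have hsplit : Splits (X ^ k - X : (ZMod k)[X]) := by
    have h1 := FiniteField.roots_X_pow_card_sub_X (ZMod k)
    rw [ZMod.card] at h1
    rw [splits_iff_card_roots, h1, ← Finset.card_def, Finset.card_univ, ZMod.card,
      FiniteField.X_pow_card_sub_X_natDegree_eq _ hk.one_lt]
  have hne : (X ^ k - X : (ZMod k)[X]) ≠ 0 := FiniteField.X_pow_card_sub_X_ne_zero _ hk.one_lt
  have haev : aeval b (X ^ k - X : (ZMod k)[X]) = 0 := by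
    have h2 : b ^ k = b := by
      have h3 : b ^ k = b ^ (k - 1) * b := by
        rw [← pow_succ]
        congr 1
        exact (Nat.succ_pred_prime hk).symm
      rw [h3, hb, one_mul]
    simp [h2]
  have hdvd : minpoly (ZMod k) b ∣ (X ^ k - X : (ZMod k)[X]) := minpoly.dvd _ _ haev
  have hint : IsIntegral (ZMod k) b := Algebra.IsIntegral.isIntegral b
  have hdeg : (minpoly (ZMod k) b).degree ≠ 0 := (minpoly.degree_pos hint).ne'
  obtain ⟨c, hc⟩ := (hsplit.of_dvd hne hdvd).exists_eval_eq_zero hdeg
  have hev : b.HasEigenvalue c := Module.End.hasEigenvalue_of_isRoot hc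
  obtain ⟨w, hw⟩ := hev.exists_hasEigenvector
  exact ⟨c, w, hw.2, hw.apply_eq_smul⟩

/-- Commuting linear maps `a` with `a ^ l = 1`, `l ∣ k - 1`, of a finite nontrivial vector space
over the field with `k` elements have a common eigenvector.

Proof. `V` is finite, so there is a minimal nonzero subspace `M` with `a M ⊆ M` for all `a ∈ A`
(`Set.Finite.exists_minimal`, or strong induction on the cardinality). Let `a ∈ A`. In
`(ZMod k)[X]` one has `X ^ (k - 1) - 1 = ∏ c ≠ 0, (X - C c)`
(`FiniteField.prod_X_sub_C_eq`-type lemmas; or `X ^ k - X = ∏ c, (X - C c)`,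
`FiniteField.X_pow_card_sub_X...`; or argue: the minimal polynomial of `a` divides
`X ^ k - X`, which splits, so `a` restricted to `M` has an eigenvalue). Since
`a ^ (k - 1) = (a ^ l) ^ ((k - 1) / l) = 1`, the product of the commuting maps `a - c` is `0` on
`M`, so some `a - c` has a nonzero kernel in `M`. This kernel `{v ∈ M | a v = c v}` is invariant
under all `b ∈ A` (they commute with `a`), so it is `M` by minimality. Thus every `a ∈ A` acts on
`M` as a scalar, and any nonzero `v ∈ M` works. -/
theorem common_eigenvector {k l : ℕ} [Fact k.Prime] (hd : l ∣ k - 1) {V : Type*} [AddCommGroup V]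
    [Module (ZMod k) V] [Finite V] [Nontrivial V] (A : Set (Module.End (ZMod k) V))
    (hA : ∀ a ∈ A, ∀ b ∈ A, a * b = b * a) (hAl : ∀ a ∈ A, a ^ l = 1) :
    ∃ v : V, v ≠ 0 ∧ ∀ a ∈ A, ∃ c : ZMod k, a v = c • v := by
  classical
  have hfinS : Finite (Submodule (ZMod k) V) :=
    Finite.of_injective (fun M : Submodule (ZMod k) V => (M : Set V)) SetLike.coe_injective
  let S : Set (Submodule (ZMod k) V) := {M | M ≠ ⊥ ∧ ∀ a ∈ A, ∀ v ∈ M, a v ∈ M}
  have hS : S.Nonempty := ⟨⊤, bot_ne_top.symm, fun a _ v _ => Submodule.mem_top⟩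
  obtain ⟨M, hM⟩ := (Set.toFinite S).exists_minimal hS
  obtain ⟨⟨hM0, hMA⟩, hmin⟩ := hM
  have key : ∀ a ∈ A, ∃ c : ZMod k, ∀ v ∈ M, a v = c • v := by
    intro a ha
    have hak : a ^ (k - 1) = 1 := by
      obtain ⟨m, hm⟩ := hd
      rw [hm, pow_mul, hAl a ha, one_pow]
    have hnt : Nontrivial M := (Submodule.nontrivial_iff_ne_bot).2 hM0
    let b : Module.End (ZMod k) M := LinearMap.restrict a (hMA a ha)
    have hbn : ∀ n : ℕ, ∀ v : M, (((b ^ n) v : M) : V) = (a ^ n) v := by
      intro n
      induction n with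
      | zero => intro v; simp
      | succ n ih =>
        intro v
        rw [pow_succ', pow_succ', Module.End.mul_apply, Module.End.mul_apply, ← ih v]
        rfl
    have hb : b ^ (k - 1) = 1 := by
      ext v
      rw [hbn, hak]
      simp
    obtain ⟨c, w, hw0, hw⟩ := EvL_eigen b hb
    refine ⟨c, ?_⟩
    let K : Submodule (ZMod k) V :=
      { carrier := {v | v ∈ M ∧ a v = c • v}
        add_mem' := by
          rintro x y ⟨hx, hx'⟩ ⟨hy, hy'⟩
          exact ⟨M.add_mem hx hy, by rw [map_add, hx', hy', smul_add]⟩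
        zero_mem' := ⟨M.zero_mem, by simp⟩
        smul_mem' := by
          rintro r x ⟨hx, hx'⟩
          exact ⟨M.smul_mem r hx, by rw [map_smul, hx', smul_comm]⟩ }
    have hKM : K ≤ M := fun v hv => hv.1
    have hKS : K ∈ S := by
      refine ⟨?_, ?_⟩
      · intro h
        have hwK : (w : V) ∈ K := by
          refine ⟨w.2, ?_⟩
          have := congrArg (fun z : M => (z : V)) hw
          exact this
        rw [h, Submodule.mem_bot] at hwK
        exact hw0 (Subtype.ext hwK)
      · rintro a' ha' v ⟨hv, hv'⟩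
        refine ⟨hMA a' ha' v hv, ?_⟩
        have := congrArg (fun f : Module.End (ZMod k) V => f v) (hA a ha a' ha')
        simp only [Module.End.mul_apply] at this
        rw [this, hv', map_smul]
    have hle : M ≤ K := hmin hKS hKM
    exact fun v hv => (hle hv).2
  obtain ⟨v, hv, hv0⟩ := (Submodule.ne_bot_iff M).1 hM0
  refine ⟨v, hv0, fun a ha => ?_⟩
  obtain ⟨c, hc⟩ := key a ha
  exact ⟨c, hc v hv⟩

end Pool.Agent.Lib.MP_032401_al_M
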