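import Pool.Agent.Lib.MP_032401_al_M.PSub

/-!
# MP_032401_al (project BFM): the normaliser condition in finite `p`-groups
-/

set_option autoImplicit false

namespace Pool.Agent.Lib.MP_032401_al_M

open Subgroup

variable {G : Type*} [Group G] {p : ℕ}

/-- Proof. `P` is a finite `p`-group, hence nilpotent (`IsPGroup.isNilpotent`), so it satisfies the
normaliser condition (`Group.normalizerCondition_of_isNilpotent`, `NormalizerCondition`), applied
to `B.subgroupOf P ≠ ⊤`; transport back. -/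
theorem PSub.exists_mem_normalizer (hp : p.Prime) {B P : Subgroup G} (hP : PSub p P) (hB : B ≤ P)
    (hne : B ≠ P) : ∃ a ∈ P, a ∉ B ∧ a ∈ normalizer (B : Set G) := by
  classical
  have hfact : Fact p.Prime := ⟨hp⟩
  have hfin : Finite P := hP.1.to_subtype
  have hnil : Group.IsNilpotent P := hP.isPGroup.isNilpotent
  have hnc : NormalizerCondition P := Group.normalizerCondition_of_isNilpotent
  have hlt : B.subgroupOf P < ⊤ := by
    rw [lt_top_iff_ne_top]
    intro h
    rw [Subgroup.subgroupOf_eq_top] at h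
    exact hne (le_antisymm hB h)
  obtain ⟨a, ha, haB⟩ := SetLike.exists_of_lt (hnc _ hlt)
  refine ⟨a.1, a.2, fun h => haB (Subgroup.mem_subgroupOf.2 h), ?_⟩
  refine mem_normalizer_of_finite (hP.1.subset hB) fun t ht => ?_
  have h1 := (Subgroup.mem_normalizer_iff.1 ha ⟨t, hB ht⟩).1 (Subgroup.mem_subgroupOf.2 ht)
  exact Subgroup.mem_subgroupOf.1 h1

/-- Proof. Take `a` from the previous lemma, `a ^ p ^ m = 1 ∈ B` for some `m`; let `n` be minimal
with `a ^ p ^ n ∈ B` (`Nat.find`), `n ≥ 1` since `a ∉ B`, and take `a ^ p ^ (n - 1)`. -/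
theorem PSub.exists_mem_normalizer_pow (hp : p.Prime) {B P : Subgroup G} (hP : PSub p P)
    (hB : B ≤ P) (hne : B ≠ P) : ∃ a ∈ P, a ∉ B ∧ a ∈ normalizer (B : Set G) ∧ a ^ p ∈ B := by
  classical
  obtain ⟨a, haP, haB, haN⟩ := PSub.exists_mem_normalizer hp hP hB hne
  obtain ⟨m, hm⟩ := hP.2 a haP
  have hex : ∃ n : ℕ, a ^ p ^ n ∈ B := ⟨m, by rw [hm]; exact B.one_mem⟩
  have hspec := Nat.find_spec hex
  have hpos : Nat.find hex ≠ 0 := by
    intro h
    rw [h, pow_zero, pow_one] at hspec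
    exact haB hspec
  obtain ⟨n, hn⟩ := Nat.exists_eq_succ_of_ne_zero hpos
  rw [hn] at hspec
  refine ⟨a ^ p ^ n, P.pow_mem haP _, Nat.find_min hex (by omega), Subgroup.pow_mem _ haN _, ?_⟩
  rw [← pow_mul, ← pow_succ]
  exact hspec

end Pool.Agent.Lib.MP_032401_al_M
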