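import Pool.Agent.Lib.MP_032401_al_M.EvT
import Pool.Agent.Lib.MP_032401_al_M.Nrm

/-!
# MP_032401_al (project BFM): eigenvectors in sections
-/

set_option autoImplicit false

namespace Pool.Agent.Lib.MP_032401_al_M

open Subgroup

variable {G : Type*} [Group G]

/-- Proof. Let `Q = P ⊓ normalizer B`, a finite `k`-group containing `B` as a normal subgroup, and
`B ≠ Q` by `PSub.exists_mem_normalizer`. `x` normalises `P`, `B`, hence `Q`, so conjugation by `x`
induces an automorphism `α` of the nontrivial finite `k`-group `Q ⧸ (B.subgroupOf Q)` with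
`α ^ l = 1` (as `x ^ l = 1`). Apply `ev_type` with `A = {α}` and lift `v`. -/
theorem ev_section {k l : ℕ} (hk : k.Prime) (hd : l ∣ k - 1) {B P : Subgroup G} (hP : PSub k P)
    (hB : B ≤ P) (hne : B ≠ P) {x : G} (hx : x ^ l = 1) (hxB : x ∈ normalizer (B : Set G))
    (hxP : x ∈ normalizer (P : Set G)) :
    ∃ a ∈ P, a ∉ B ∧ a ∈ normalizer (B : Set G) ∧ a ^ k ∈ B ∧
      ∃ c : ℕ, x * a * x⁻¹ * (a ^ c)⁻¹ ∈ B := by
  obtain ⟨a0, ha0P, ha0B, ha0N⟩ := PSub.exists_mem_normalizer hk hP hB hne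
  set M : Subgroup G := normalizer (B : Set G) with hM
  set B' : Subgroup M := B.subgroupOf M with hB'
  have hn : B'.Normal := Subgroup.normal_subgroupOf_of_le_normalizer le_rfl
  let π : M →* M ⧸ B' := QuotientGroup.mk' B'
  have hπ : ∀ m : M, π m = 1 ↔ (m : G) ∈ B := by
    intro m
    rw [← MonoidHom.mem_ker, QuotientGroup.ker_mk', hB', Subgroup.mem_subgroupOf]
  set Q : Subgroup (M ⧸ B') := (P.subgroupOf M).map π with hQ
  have hxn : π ⟨x, hxB⟩ ∈ normalizer (Q : Set (M ⧸ B')) := by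
    refine Subgroup.le_normalizer_map π (Subgroup.mem_map_of_mem π ?_)
    rw [Subgroup.mem_normalizer_iff]
    intro h
    rw [Subgroup.mem_subgroupOf, Subgroup.mem_subgroupOf]
    exact (Subgroup.mem_normalizer_iff.mp hxP) h
  have hfin : Finite Q := by
    have h1 : ((P.subgroupOf M : Subgroup M) : Set M).Finite :=
      Set.Finite.preimage (f := (Subtype.val : M → G)) Subtype.val_injective.injOn hP.1
    have h2 : ((Q : Subgroup (M ⧸ B')) : Set (M ⧸ B')).Finite := by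
      rw [hQ, Subgroup.coe_map]
      exact h1.image _
    exact h2.to_subtype
  have hnt : Nontrivial Q := by
    rw [Subgroup.nontrivial_iff_exists_ne_one]
    refine ⟨π ⟨a0, ha0N⟩, Subgroup.mem_map_of_mem π (Subgroup.mem_subgroupOf.mpr ha0P), ?_⟩
    intro h
    exact ha0B ((hπ _).mp h)
  have hpg : IsPGroup k Q := by
    rintro ⟨_, m, hm, rfl⟩
    obtain ⟨j, hj⟩ := hP.2 m hm
    refine ⟨j, Subtype.ext ?_⟩
    have h1 : m ^ k ^ j = 1 := Subtype.ext (by simpa using hj)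
    show (π m) ^ k ^ j = 1
    rw [← map_pow, h1, map_one]
  have hal : (Subgroup.normalizerMonoidHom Q ⟨π ⟨x, hxB⟩, hxn⟩) ^ l = 1 := by
    rw [← map_pow]
    have h1 : (⟨π ⟨x, hxB⟩, hxn⟩ : normalizer (Q : Set (M ⧸ B'))) ^ l = 1 := by
      refine Subtype.ext ?_
      show (π ⟨x, hxB⟩) ^ l = 1
      have h2 : (⟨x, hxB⟩ : M) ^ l = 1 := Subtype.ext (by simpa using hx)
      rw [← map_pow, h2, map_one]
    rw [h1, map_one]
  obtain ⟨v, hv1, hvk, hv⟩ := ev_type hk hpg hd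
    {Subgroup.normalizerMonoidHom Q ⟨π ⟨x, hxB⟩, hxn⟩}
    (by
      intro a ha b hb
      rw [Set.mem_singleton_iff] at ha hb
      rw [ha, hb])
    (by
      intro a ha
      rw [Set.mem_singleton_iff.mp ha]
      exact hal)
  obtain ⟨c, hc⟩ := hv _ rfl
  obtain ⟨w, hw⟩ := v
  obtain ⟨a, haP, rfl⟩ := hw
  refine ⟨a, haP, ?_, a.2, ?_, c, ?_⟩
  · intro h
    exact hv1 (Subtype.ext ((hπ a).mpr h))
  · have h1 : (π a) ^ k = 1 := congrArg Subtype.val hvk
    rw [← map_pow, hπ] at h1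
    simpa using h1
  · have h1 : π ⟨x, hxB⟩ * π a * (π ⟨x, hxB⟩)⁻¹ = (π a) ^ c := congrArg Subtype.val hc
    have h2 : π (⟨x, hxB⟩ * a * ⟨x, hxB⟩⁻¹ * (a ^ c)⁻¹) = 1 := by
      rw [map_mul, map_mul, map_mul, map_inv, map_inv, map_pow, h1, mul_inv_cancel]
    rw [hπ] at h2
    simpa using h2

end Pool.Agent.Lib.MP_032401_al_M
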