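import Pool.Agent.Lib.MP_032401_al_M.EvL

/-!
# MP_032401_al (project BFM): common eigenvectors in finite `k`-groups
-/

set_option autoImplicit false

namespace Pool.Agent.Lib.MP_032401_al_M

open Subgroup

/-- the central elements `v` with `v ^ k = 1` -/
private def EvT_E (Q : Type*) [Group Q] (k : ℕ) : Subgroup Q where
  carrier := {v | v ∈ Subgroup.center Q ∧ v ^ k = 1}
  mul_mem' := by
    rintro a b ⟨ha, ha'⟩ ⟨hb, hb'⟩
    refine ⟨mul_mem ha hb, ?_⟩
    have h : Commute a b := (Subgroup.mem_center_iff.1 ha b).symm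
    rw [h.mul_pow, ha', hb', one_mul]
  one_mem' := ⟨one_mem _, one_pow k⟩
  inv_mem' := by
    rintro a ⟨ha, ha'⟩
    exact ⟨inv_mem ha, by rw [inv_pow, ha', inv_one]⟩

private theorem EvT_abs1 {k l : ℕ} [Fact k.Prime] (hd : l ∣ k - 1) {V : Type*} [AddCommGroup V]
    [Module (ZMod k) V] [Finite V] [Nontrivial V] {M : Type*} [Monoid M]
    (ψ : M →* AddMonoid.End V) (A : Set M) (hA : ∀ a ∈ A, ∀ b ∈ A, a * b = b * a)
    (hAl : ∀ a ∈ A, a ^ l = 1) : ∃ v : V, v ≠ 0 ∧ ∀ a ∈ A, ∃ c : ℕ, ψ a v = c • v := by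
  have hψ : ∀ a b x, ψ (a * b) x = ψ a (ψ b x) := fun a b x => by
    rw [map_mul]
    rfl
  obtain ⟨v, hv0, hv⟩ := common_eigenvector hd
    {f : Module.End (ZMod k) V | ∃ a ∈ A, ∀ x, f x = ψ a x} (by
    rintro f ⟨a, ha, hf⟩ g ⟨b, hb, hg⟩
    refine LinearMap.ext fun x => ?_
    show f (g x) = g (f x)
    rw [hg, hf, hf, hg, ← hψ, ← hψ, hA a ha b hb]) (by
    rintro f ⟨a, ha, hf⟩
    have h1 : ∀ n : ℕ, ∀ x, (f ^ n) x = ψ (a ^ n) x := by
      intro n
      induction n with
      | zero =>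
        intro x
        rw [pow_zero, pow_zero, map_one]
        rfl
      | succ n ih =>
        intro x
        rw [pow_succ, pow_succ, hψ, ← hf x, ← ih]
        rfl
    refine LinearMap.ext fun x => ?_
    rw [h1, hAl a ha, map_one]
    rfl)
  refine ⟨v, hv0, fun a ha => ?_⟩
  obtain ⟨c, hc⟩ := hv
    { toFun := ψ a
      map_add' := map_add (ψ a)
      map_smul' := fun c x => by
        have h1 : c • x = c.val • x := by
          conv_lhs => rw [← ZMod.natCast_zmod_val c]
          rw [Nat.cast_smul_eq_nsmul]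
        have h2 : c • ψ a x = c.val • ψ a x := by
          conv_lhs => rw [← ZMod.natCast_zmod_val c]
          rw [Nat.cast_smul_eq_nsmul]
        rw [RingHom.id_apply, h1, h2, map_nsmul] } ⟨a, ha, fun x => rfl⟩
  refine ⟨c.val, ?_⟩
  have h1 : c • v = c.val • v := by
    conv_lhs => rw [← ZMod.natCast_zmod_val c]
    rw [Nat.cast_smul_eq_nsmul]
  rw [h1] at hc
  exact hc

private theorem EvT_abs {k l : ℕ} [Fact k.Prime] (hd : l ∣ k - 1) {V : Type*} [AddCommGroup V]
    [Finite V] [Nontrivial V] (hV : ∀ x : V, k • x = 0) {M : Type*} [Monoid M]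
    (ψ : M →* AddMonoid.End V) (A : Set M) (hA : ∀ a ∈ A, ∀ b ∈ A, a * b = b * a)
    (hAl : ∀ a ∈ A, a ^ l = 1) : ∃ v : V, v ≠ 0 ∧ ∀ a ∈ A, ∃ c : ℕ, ψ a v = c • v := by
  let i := AddCommGroup.zmodModule hV
  exact @EvT_abs1 k l _ hd V _ i _ _ M _ ψ A hA hAl

private theorem EvT_mulcomm {Q : Type*} [Group Q] {k : ℕ} (a b : EvT_E Q k) : a * b = b * a :=
  Subtype.ext (Subgroup.mem_center_iff.1 b.2.1 a.1)

private def EvT_g {Q : Type*} [Group Q] {k : ℕ} (a : MulAut Q) : EvT_E Q k →* EvT_E Q k where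
  toFun v := ⟨a v.1, by
    refine ⟨?_, by rw [← map_pow, v.2.2, map_one]⟩
    rw [Subgroup.mem_center_iff]
    intro g
    have h := Subgroup.mem_center_iff.1 v.2.1 (a.symm g)
    have h2 := congrArg a h
    rw [map_mul, map_mul, MulEquiv.apply_symm_apply] at h2
    exact h2⟩
  map_one' := Subtype.ext (map_one a)
  map_mul' v w := Subtype.ext (map_mul a v.1 w.1)

private theorem EvT_nontriv {Q : Type*} [Group Q] [Finite Q] [Nontrivial Q] {k : ℕ}
    [hk : Fact k.Prime] (hQ : IsPGroup k Q) : Nontrivial (EvT_E Q k) := by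
  have h1 : Nontrivial (Subgroup.center Q) := hQ.center_nontrivial
  have h2 : IsPGroup k (Subgroup.center Q) := hQ.to_subgroup _
  have h3 : k ∣ Nat.card (Subgroup.center Q) := by
    rcases h2.card_eq_or_dvd with h | h
    · exact absurd h (by
        have := Finite.one_lt_card (α := Subgroup.center Q)
        omega)
    · exact h
  obtain ⟨x, hx⟩ := exists_prime_orderOf_dvd_card' k h3
  have hx1 : x.1 ^ k = 1 := by
    have := pow_orderOf_eq_one x
    rw [hx] at this
    exact congrArg Subtype.val this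
  have hxE : x.1 ∈ EvT_E Q k := ⟨x.2, hx1⟩
  refine ⟨⟨x.1, hxE⟩, 1, fun h => ?_⟩
  have h5 : x.1 = 1 := congrArg Subtype.val h
  have h6 : x = 1 := Subtype.ext h5
  rw [h6, orderOf_one] at hx
  exact hk.1.one_lt.ne hx

/-- Proof. Let `E` be the subgroup of the elements `v` of the centre of `Q` with `v ^ k = 1`. It is
nontrivial: the centre of the nontrivial finite `k`-group `Q` is nontrivial
(`IsPGroup.center_nontrivial`), and has an element of order `k` (Cauchy). `E` is invariant under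
all automorphisms of `Q`. `Additive E` is a module over `ZMod k` (`AddCommGroup.zmodModule`), the
automorphisms in `A` induce commuting linear maps of it (`AddMonoidHom.toZModLinearMap`) whose
`l`-th power is `1`, and `common_eigenvector` gives `v ∈ E`, `v ≠ 1` with `a v = v ^ c` for all
`a ∈ A` (`c : ZMod k`, use `c.val`). -/
theorem ev_type {Q : Type*} [Group Q] [Finite Q] [Nontrivial Q] {k l : ℕ} (hk : k.Prime)
    (hQ : IsPGroup k Q) (hd : l ∣ k - 1) (A : Set (MulAut Q))
    (hA : ∀ a ∈ A, ∀ b ∈ A, a * b = b * a) (hAl : ∀ a ∈ A, a ^ l = 1) :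
    ∃ v : Q, v ≠ 1 ∧ v ^ k = 1 ∧ ∀ a ∈ A, ∃ c : ℕ, a v = v ^ c := by
  have : Fact k.Prime := ⟨hk⟩
  have hne : Nontrivial (EvT_E Q k) := EvT_nontriv hQ
  let _ : CommGroup (EvT_E Q k) :=
    { (inferInstance : Group (EvT_E Q k)) with mul_comm := EvT_mulcomm }
  let ψ : MulAut Q →* AddMonoid.End (Additive (EvT_E Q k)) :=
    { toFun := fun a => MonoidHom.toAdditive (EvT_g (k := k) a)
      map_one' := by
        refine AddMonoidHom.ext fun x => ?_
        exact congrArg Additive.ofMul (Subtype.ext rfl : EvT_g (1 : MulAut Q)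
          (Additive.toMul x) = Additive.toMul x)
      map_mul' := fun a b => by
        refine AddMonoidHom.ext fun x => ?_
        exact congrArg Additive.ofMul (Subtype.ext rfl : EvT_g (a * b)
          (Additive.toMul x) = EvT_g a (EvT_g b (Additive.toMul x))) }
  obtain ⟨v, hv0, hv⟩ := EvT_abs hd (V := Additive (EvT_E Q k)) (fun x =>
    congrArg Additive.ofMul (Subtype.ext (Additive.toMul x).2.2 : (Additive.toMul x) ^ k = 1))
    ψ A hA hAl
  refine ⟨(Additive.toMul v).1, fun h => hv0 ?_, (Additive.toMul v).2.2, fun a ha => ?_⟩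
  · have h1 : Additive.toMul v = 1 := Subtype.ext h
    exact Additive.toMul.injective h1
  · obtain ⟨c, hc⟩ := hv a ha
    refine ⟨c, ?_⟩
    exact congrArg (fun z => (Additive.toMul z).1) hc

end Pool.Agent.Lib.MP_032401_al_M
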