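import Pool.Agent.Lib.MP_032401_al_M.PElt

/-!
# MP_032401_al (project BFM): finite `p`-subgroups, elementary facts
-/

set_option autoImplicit false

namespace Pool.Agent.Lib.MP_032401_al_M

open Subgroup

variable {G : Type*} [Group G] {H : Type*} [Group H] {p : ℕ}

theorem PSub.mono {P Q : Subgroup G} (hQ : PSub p Q) (h : P ≤ Q) : PSub p P :=
  ⟨hQ.1.subset h, fun x hx => hQ.2 x (h hx)⟩

theorem PSub.bot (p : ℕ) : PSub p (⊥ : Subgroup G) := by
  refine ⟨by simp, ?_⟩
  intro x hx
  rw [Subgroup.mem_bot] at hx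
  rw [hx]
  exact PElt.one p

theorem PSub.zpowers (hp : p.Prime) {x : G} (hx : PElt p x) : PSub p (zpowers x) := by
  refine ⟨(hx.isOfFinOrder hp).finite_zpowers, ?_⟩
  rintro _ ⟨n, rfl⟩
  obtain ⟨m, hm⟩ := hx
  refine ⟨m, ?_⟩
  show (x ^ n) ^ p ^ m = 1
  rw [← zpow_natCast, ← zpow_mul, mul_comm, zpow_mul, zpow_natCast, hm, one_zpow]

theorem PSub.map {P : Subgroup G} (hP : PSub p P) (f : G →* H) : PSub p (P.map f) := by
  refine ⟨by rw [Subgroup.coe_map]; exact hP.1.image f, ?_⟩
  rintro _ ⟨x, hx, rfl⟩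
  exact (hP.2 x hx).map f

theorem PSub.conj {P : Subgroup G} (hP : PSub p P) (g : G) :
    PSub p (P.map (MulAut.conj g).toMonoidHom) := hP.map _

theorem PSub.isPGroup {P : Subgroup G} (hP : PSub p P) : IsPGroup p P := by
  rintro ⟨x, hx⟩
  obtain ⟨m, hm⟩ := hP.2 x hx
  exact ⟨m, Subtype.ext (by simpa using hm)⟩

theorem PSub.of_isPGroup {P : Subgroup G} (hf : (P : Set G).Finite) (h : IsPGroup p P) :
    PSub p P := by
  refine ⟨hf, fun x hx => ?_⟩
  obtain ⟨m, hm⟩ := h ⟨x, hx⟩
  exact ⟨m, by simpa using congrArg Subtype.val hm⟩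

theorem sup_finite {A B : Subgroup G} (hA : (A : Set G).Finite) (hB : (B : Set G).Finite)
    (hN : B ≤ normalizer (A : Set G)) : ((A ⊔ B : Subgroup G) : Set G).Finite := by
  rw [Subgroup.coe_mul_of_right_le_normalizer_left A B hN]
  exact hA.mul hB

theorem PSub.sup (hp : p.Prime) {P Q : Subgroup G} (hP : PSub p P) (hQ : PSub p Q)
    (h : P ≤ normalizer (Q : Set G)) : PSub p (P ⊔ Q) := by
  have hfact : Fact p.Prime := ⟨hp⟩
  refine PSub.of_isPGroup ?_ (hP.isPGroup.to_sup_of_normal_right' hQ.isPGroup h)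
  rw [sup_comm]
  exact sup_finite hQ.1 hP.1 h

theorem PSub.insert (hp : p.Prime) {Q : Subgroup G} (hQ : PSub p Q) {a : G} (ha : PElt p a)
    (h : a ∈ normalizer (Q : Set G)) : PSub p (Subgroup.zpowers a ⊔ Q) :=
  PSub.sup hp (PSub.zpowers hp ha) hQ (by rwa [Subgroup.zpowers_le])

/-- The same with the closure of a set. -/
theorem PSub.closure_insert (hp : p.Prime) {Q : Subgroup G} (hQ : PSub p Q) {a : G}
    (ha : PElt p a) (h : a ∈ normalizer (Q : Set G)) :
    PSub p (Subgroup.closure ((Q : Set G) ∪ {a})) := by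
  refine (PSub.insert hp hQ ha h).mono ?_
  rw [closure_le]
  rintro x (hx | hx)
  · exact (le_sup_right : Q ≤ Subgroup.zpowers a ⊔ Q) hx
  · rw [Set.mem_singleton_iff] at hx
    rw [hx]
    exact (le_sup_left : Subgroup.zpowers a ≤ Subgroup.zpowers a ⊔ Q) (mem_zpowers a)

/-- A subgroup of a finite group `K` (or any finite subgroup): one-sided inclusion suffices. -/
theorem mem_normalizer_of_finite {K : Subgroup G} (hK : (K : Set G).Finite) {x : G}
    (h : ∀ t ∈ K, x * t * x⁻¹ ∈ K) : x ∈ normalizer (K : Set G) := by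
  have hf : Finite (K : Set G) := hK.to_subtype
  exact Subgroup.mem_normalizer_fintype h

/-- closures of sets mapped into their closure are normalised (finite case) -/
theorem mem_normalizer_closure {S : Set G} (hK : ((closure S : Subgroup G) : Set G).Finite) {x : G}
    (h : ∀ s ∈ S, x * s * x⁻¹ ∈ closure S) :
    x ∈ normalizer ((closure S : Subgroup G) : Set G) := by
  refine mem_normalizer_of_finite hK ?_
  have h1 : closure S ≤ (closure S).comap (MulAut.conj x).toMonoidHom := by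
    rw [closure_le]
    exact fun s hs => h s hs
  exact fun t ht => h1 ht

/-- normalisers of closures of invariant sets (general case) -/
theorem mem_normalizer_closure' {S : Set G} {x : G} (h : ∀ s ∈ S, x * s * x⁻¹ ∈ S)
    (h' : ∀ s ∈ S, x⁻¹ * s * x ∈ S) : x ∈ normalizer ((closure S : Subgroup G) : Set G) := by
  have h1 : closure S ≤ (closure S).comap (MulAut.conj x).toMonoidHom := by
    rw [closure_le]
    exact fun s hs => subset_closure (h s hs)
  have h2 : closure S ≤ (closure S).comap (MulAut.conj x⁻¹).toMonoidHom := by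
    rw [closure_le]
    intro s hs
    have h3 := h' s hs
    show x⁻¹ * s * x⁻¹⁻¹ ∈ closure S
    rw [inv_inv]
    exact subset_closure h3
  rw [mem_normalizer_iff]
  intro t
  refine ⟨fun ht => h1 ht, fun ht => ?_⟩
  have h4 : x⁻¹ * (x * t * x⁻¹) * x⁻¹⁻¹ ∈ closure S := h2 ht
  have h5 : x⁻¹ * (x * t * x⁻¹) * x⁻¹⁻¹ = t := by group
  rwa [h5] at h4

end Pool.Agent.Lib.MP_032401_al_M
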