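import Pool.Agent.Lib.MP_032401_al_M.EyT
import Pool.Agent.Lib.MP_032401_al_M.PSub

/-!
# MP_032401_al (project BFM): moved eigenvectors in finite `k`-subgroups
-/

set_option autoImplicit false

namespace Pool.Agent.Lib.MP_032401_al_M

open Subgroup

variable {G : Type*} [Group G]

/-- Proof. Apply `ey_type` to the type `T` and the set of the automorphisms of `T` induced by
conjugation by the elements of `A` (`MulAut.conjNormal` for the normaliser, or build the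
automorphism directly). -/
theorem ey_sub {k l : ℕ} (hk : k.Prime) (hd : l ∣ k - 1) {T : Subgroup G} (hT : PSub k T)
    (A : Set G) (hA : ∀ a ∈ A, ∀ b ∈ A, a * b = b * a) (hAl : ∀ a ∈ A, a ^ l = 1)
    (hAT : ∀ a ∈ A, a ∈ normalizer (T : Set G)) (hne : ∃ a ∈ A, ∃ t ∈ T, a * t ≠ t * a) :
    ∃ v ∈ T, v ^ k = 1 ∧ (∀ a ∈ A, ∃ c : ℕ, a * v * a⁻¹ = v ^ c) ∧ ∃ a ∈ A, a * v ≠ v * a := by
  have hfin : Finite T := hT.1.to_subtype
  set A' : Set (MulAut T) := {φ | ∃ a ∈ A, ∀ t : T, (φ t : G) = a * (t : G) * a⁻¹} with hA'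
  have hex : ∀ a ∈ A, ∃ φ ∈ A', ∀ t : T, (φ t : G) = a * (t : G) * a⁻¹ := by
    intro a ha
    let f : T →* T :=
      { toFun := fun t => ⟨a * (t : G) * a⁻¹, (mem_normalizer_iff.1 (hAT a ha) _).1 t.2⟩
        map_one' := Subtype.ext (by simp)
        map_mul' := fun x y => Subtype.ext (by simp) }
    have hinj : Function.Injective f := by
      intro x y hxy
      have h1 : a * (x : G) * a⁻¹ = a * (y : G) * a⁻¹ := congrArg Subtype.val hxy
      exact Subtype.ext (mul_left_cancel (mul_right_cancel h1))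
    exact ⟨MulEquiv.ofBijective f (Finite.injective_iff_bijective.mp hinj),
      ⟨a, ha, fun m => rfl⟩, fun m => rfl⟩
  have hcomm : ∀ φ ∈ A', ∀ ψ ∈ A', φ * ψ = ψ * φ := by
    rintro φ ⟨a, ha, hφ⟩ ψ ⟨b, hb, hψ⟩
    refine MulEquiv.ext fun m => Subtype.ext ?_
    rw [MulAut.mul_apply, MulAut.mul_apply, hφ, hψ, hψ, hφ]
    have h1 : a * b = b * a := hA a ha b hb
    have h2 : a * (b * (m : G) * b⁻¹) * a⁻¹ = (a * b) * (m : G) * (a * b)⁻¹ := by group
    have h3 : b * (a * (m : G) * a⁻¹) * b⁻¹ = (b * a) * (m : G) * (b * a)⁻¹ := by group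
    rw [h2, h3, h1]
  have hpow : ∀ φ ∈ A', φ ^ l = 1 := by
    rintro φ ⟨a, ha, hφ⟩
    have h1 : ∀ (n : ℕ) (m : T), ((φ ^ n) m : G) = a ^ n * (m : G) * (a ^ n)⁻¹ := by
      intro n
      induction n with
      | zero => intro m; simp
      | succ n ih =>
        intro m
        rw [pow_succ', pow_succ', MulAut.mul_apply, hφ, ih]
        group
    refine MulEquiv.ext fun m => Subtype.ext ?_
    rw [h1, hAl a ha, inv_one, one_mul, mul_one]
    rfl
  have hne' : ∃ φ ∈ A', ∃ y : T, φ y ≠ y := by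
    obtain ⟨a, ha, t, ht, hat⟩ := hne
    obtain ⟨φ, hφ, hφ'⟩ := hex a ha
    refine ⟨φ, hφ, ⟨t, ht⟩, fun h => hat ?_⟩
    have h1 : a * t * a⁻¹ = t := by
      rw [← hφ' ⟨t, ht⟩, h]
    rwa [mul_inv_eq_iff_eq_mul] at h1
  obtain ⟨v, hv, hc, φ, ⟨a, ha, hφ⟩, hφv⟩ := ey_type hk hT.isPGroup hd A' hcomm hpow hne'
  refine ⟨v, v.2, ?_, ?_, a, ha, fun h => hφv (Subtype.ext ?_)⟩
  · exact congrArg Subtype.val hv
  · intro b hb
    obtain ⟨ψ, hψ, hψ'⟩ := hex b hb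
    obtain ⟨c, hc⟩ := hc ψ hψ
    refine ⟨c, ?_⟩
    rw [← hψ' v, hc]
    rfl
  · rw [hφ v, h, mul_inv_cancel_right]

end Pool.Agent.Lib.MP_032401_al_M
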