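import Pool.Agent.Lib.MP_032401_al_M.Defs

/-!
# MP_032401_al (project BFM): `p`-elements
-/

set_option autoImplicit false

namespace Pool.Agent.Lib.MP_032401_al_M

variable {G : Type*} [Group G] {H : Type*} [Group H] {p q : ℕ}

theorem PElt.one (p : ℕ) : PElt p (1 : G) := ⟨0, one_pow _⟩

theorem PElt.inv {x : G} (h : PElt p x) : PElt p x⁻¹ := by
  obtain ⟨m, hm⟩ := h
  exact ⟨m, by rw [inv_pow, hm, inv_one]⟩

theorem PElt.pow {x : G} (h : PElt p x) (n : ℕ) : PElt p (x ^ n) := by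
  obtain ⟨m, hm⟩ := h
  exact ⟨m, by rw [← pow_mul, mul_comm, pow_mul, hm, one_pow]⟩

theorem PElt.conj {x : G} (h : PElt p x) (g : G) : PElt p (g * x * g⁻¹) := by
  obtain ⟨m, hm⟩ := h
  exact ⟨m, by rw [conj_pow, hm, mul_one, mul_inv_cancel]⟩

theorem PElt.map {x : G} (h : PElt p x) (f : G →* H) : PElt p (f x) := by
  obtain ⟨m, hm⟩ := h
  exact ⟨m, by rw [← map_pow, hm, map_one]⟩

theorem PElt.of_map {x : G} {f : G →* H} (hf : Function.Injective f) (h : PElt p (f x)) :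
    PElt p x := by
  obtain ⟨m, hm⟩ := h
  exact ⟨m, hf (by rw [map_pow, hm, map_one])⟩

theorem PElt.of_pow {x : G} {m : ℕ} (h : PElt p (x ^ p ^ m)) : PElt p x := by
  obtain ⟨n, hn⟩ := h
  exact ⟨m + n, by rw [pow_add, pow_mul, hn]⟩

theorem PElt.of_pow_eq_one {x : G} (h : x ^ p = 1) : PElt p x := ⟨1, by rw [pow_one, h]⟩

theorem PElt.mul {x y : G} (hx : PElt p x) (hy : PElt p y) (h : x * y = y * x) :
    PElt p (x * y) := by
  obtain ⟨m, hm⟩ := hx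
  obtain ⟨n, hn⟩ := hy
  refine ⟨m + n, ?_⟩
  rw [(show Commute x y from h).mul_pow, pow_add, pow_mul, hm, one_pow, one_mul,
    mul_comm (p ^ m), pow_mul, hn, one_pow]

theorem PElt.eq_one_of_pow (hp : p.Prime) {x : G} {n : ℕ} (hn : ¬ p ∣ n) (hx : PElt p x)
    (h : x ^ n = 1) : x = 1 := by
  obtain ⟨m, hm⟩ := hx
  have h1 : orderOf x ∣ p ^ m := orderOf_dvd_of_pow_eq_one hm
  have h2 : orderOf x ∣ n := orderOf_dvd_of_pow_eq_one h
  have h3 : Nat.Coprime (p ^ m) n := Nat.Coprime.pow_left m ((hp.coprime_iff_not_dvd).2 hn)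
  have h4 : orderOf x ∣ 1 := by
    rw [← h3]
    exact Nat.dvd_gcd h1 h2
  exact orderOf_eq_one_iff.1 (Nat.dvd_one.1 h4)

theorem PElt.eq_one (hp : p.Prime) (hq : q.Prime) (hpq : p ≠ q) {x : G} (hx : PElt p x)
    (hy : PElt q x) : x = 1 := by
  obtain ⟨m, hm⟩ := hy
  refine hx.eq_one_of_pow hp (n := q ^ m) ?_ hm
  intro h
  exact hpq ((Nat.prime_dvd_prime_iff_eq hp hq).1 (hp.dvd_of_dvd_pow h))

theorem PElt.isOfFinOrder (hp : p.Prime) {x : G} (hx : PElt p x) : IsOfFinOrder x := by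
  obtain ⟨m, hm⟩ := hx
  exact isOfFinOrder_iff_pow_eq_one.2 ⟨p ^ m, pow_pos hp.pos m, hm⟩

/-- if `v ^ k = 1`, `v ^ c ≠ v`, and `v ^ c * v⁻¹` lies in a subgroup, then so does `v` -/
theorem mem_of_pow_mul_inv {k : ℕ} (hk : k.Prime) {v : G} (hv : v ^ k = 1) {c : ℕ}
    (hc : v ^ c ≠ v) (N : Subgroup G) (h : v ^ c * v⁻¹ ∈ N) : v ∈ N := by
  have h1 : v ^ c * v⁻¹ = v ^ ((c : ℤ) - 1) := by
    rw [zpow_sub, zpow_natCast, zpow_one]
  have h2 : ¬ (k : ℤ) ∣ (c : ℤ) - 1 := by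
    rintro ⟨t, ht⟩
    apply hc
    have h3 : v ^ ((c : ℤ) - 1) = 1 := by rw [ht, zpow_mul, zpow_natCast, hv, one_zpow]
    rw [← h1, mul_inv_eq_one] at h3
    exact h3
  have h3 : IsCoprime (k : ℤ) ((c : ℤ) - 1) :=
    (Prime.coprime_iff_not_dvd (Nat.prime_iff_prime_int.1 hk)).2 h2
  obtain ⟨a, b, hab⟩ := h3
  have h4 : v = (v ^ c * v⁻¹) ^ b := by
    rw [h1, ← zpow_mul]
    conv_lhs => rw [← zpow_one v, ← hab, zpow_add, mul_comm a, zpow_mul, zpow_natCast, hv,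
      one_zpow, one_mul]
    rw [mul_comm]
  rw [h4]
  exact N.zpow_mem h b

end Pool.Agent.Lib.MP_032401_al_M
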