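import Pool.Agent.Lib.MP_032401_al_M.EvT
import Pool.Agent.Lib.MP_032401_al_M.PElt

/-!
# MP_032401_al (project BFM): minimal invariant subgroups which are moved
-/

set_option autoImplicit false

namespace Pool.Agent.Lib.MP_032401_al_M

open Subgroup

private theorem EyM_one {Y : Type*} [Group Y] {k l : ℕ} (hk : k.Prime) (hY : IsPGroup k Y)
    (hl : ¬ k ∣ l) (a : MulAut Y) (ha : a ^ l = 1) {y t : Y} (h1 : a y = y * t) (h2 : a t = t) :
    t = 1 := by
  have h3 : ∀ n : ℕ, (a ^ n) y = y * t ^ n := by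
    intro n
    induction n with
    | zero => simp
    | succ n ih =>
      rw [pow_succ', MulAut.mul_apply, ih, map_mul, map_pow, h1, h2, pow_succ', mul_assoc]
  have h4 := h3 l
  rw [ha, MulAut.one_apply] at h4
  have h5 : t ^ l = 1 := (mul_eq_left.mp h4.symm)
  exact PElt.eq_one_of_pow hk hl (hY t) h5

/-- The induced automorphisms of a quotient by a subgroup which is fixed pointwise. -/
private theorem EyM_quot {Y : Type*} [Group Y] {l : ℕ} (A : Set (MulAut Y))
    (hA : ∀ a ∈ A, ∀ b ∈ A, a * b = b * a) (hAl : ∀ a ∈ A, a ^ l = 1) (C0 : Subgroup Y)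
    [C0.Normal] (hC : ∀ a ∈ A, ∀ m ∈ C0, a m = m) :
    ∃ A' : Set (MulAut (Y ⧸ C0)), (∀ a ∈ A', ∀ b ∈ A', a * b = b * a) ∧ (∀ a ∈ A', a ^ l = 1) ∧
      ∀ a ∈ A, ∃ φ ∈ A', ∀ y : Y, φ (QuotientGroup.mk y) = QuotientGroup.mk (a y) := by
  refine ⟨{φ | ∃ a ∈ A, ∀ y : Y, φ (QuotientGroup.mk y) = QuotientGroup.mk (a y)}, ?_, ?_, ?_⟩
  · rintro φ ⟨a, ha, hφ⟩ ψ ⟨b, hb, hψ⟩
    refine MulEquiv.ext fun q => ?_
    obtain ⟨y, rfl⟩ := QuotientGroup.mk_surjective q
    rw [MulAut.mul_apply, MulAut.mul_apply, hφ, hψ, hφ, hψ]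
    have h1 := congrArg (fun f : MulAut Y => f y) (hA a ha b hb)
    simp only [MulAut.mul_apply] at h1
    rw [h1]
  · rintro φ ⟨a, ha, hφ⟩
    have h1 : ∀ (n : ℕ) (y : Y), (φ ^ n) (QuotientGroup.mk y) = QuotientGroup.mk ((a ^ n) y) := by
      intro n
      induction n with
      | zero => intro y; simp
      | succ n ih =>
        intro y
        rw [pow_succ', pow_succ', MulAut.mul_apply, MulAut.mul_apply, ih, hφ]
    refine MulEquiv.ext fun q => ?_
    obtain ⟨y, rfl⟩ := QuotientGroup.mk_surjective q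
    rw [h1, hAl a ha]
    rfl
  · intro a ha
    have h1 : C0.map ((a : Y ≃* Y) : Y →* Y) = C0 := by
      ext y
      rw [mem_map]
      constructor
      · rintro ⟨x, hx, rfl⟩
        have h2 : ((a : Y ≃* Y) : Y →* Y) x = x := hC a ha x hx
        rw [h2]
        exact hx
      · intro hy
        exact ⟨y, hy, hC a ha y hy⟩
    exact ⟨QuotientGroup.congr C0 C0 a h1, ⟨a, ha, fun y => rfl⟩, fun y => rfl⟩

/-- Let `Y` be a finite `k`-group and `A` a commuting set of automorphisms with `a ^ l = 1`,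
`l ∣ k - 1` (so `¬ k ∣ l`), acting nontrivially on `Y` and trivially on each proper `A`-invariant
subgroup. Then `Y` has order `k`.

Proof. (1) If `a t = t` and `a y = y * t` then `a ^ l y = y * t ^ l`, so `t ^ l = 1`, and `t = 1`,
because `t` is a `k`-element and `¬ k ∣ l` (`l ∣ k - 1`, `0 < k - 1`, so `0 < l < k`).

(2) Let `M1` be the closure of all `y⁻¹ * a y`, `y ∈ Y`, `a ∈ A`; it is `A`-invariant
(`b (y⁻¹ * a y) = (b y)⁻¹ * a (b y)`). If `M1 ≠ ⊤` then `A` fixes `M1` pointwise, and by (1) with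
`t = y⁻¹ * a y` the action is trivial; contradiction. So `M1 = ⊤`.

(3) Let `C0 = {y | ∀ a ∈ A, a y = y}`, an `A`-invariant subgroup, `C0 ≠ ⊤`. Its normaliser is
`A`-invariant (if `g` normalises `C0` and `c ∈ C0` then `a g * c * (a g)⁻¹ = a (g * c * g⁻¹)` is in
`C0`), and properly contains `C0` (normaliser condition), so it is not fixed pointwise, so it is
`⊤`: `C0` is normal.

(4) `C0` is central: for `c ∈ C0`, `y ∈ Y`, the element `y⁻¹ * c * y ∈ C0` is fixed by `a`, so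
`(a y)⁻¹ * c * a y = y⁻¹ * c * y`, i.e. `a y * y⁻¹` commutes with `c`. Taking `y⁻¹` for `y`,
`(a y)⁻¹ * y = (y⁻¹ * a y)⁻¹` commutes with `c`. So `M1 = ⊤` centralises `c`.

(5) `Y ⧸ C0` has order `k`: by `ev_type` for the automorphisms of `Y ⧸ C0` induced by `A` there
is `v ∉ C0` with `v ^ k ∈ C0` and `a v ∈ v ^ c * C0` for every `a ∈ A`. The subgroup
`L = ⟨v⟩ * C0` is `A`-invariant and not fixed pointwise (otherwise `v ∈ C0`), so `L = ⊤`. So
`Y ⧸ C0` is cyclic, and `Y` is abelian since `C0` is central.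

(6) Choose `a ∈ A` acting nontrivially. `φ y = y⁻¹ * a y` is an endomorphism of the abelian group
`Y`, with kernel `Ker = {y | a y = y}` an `A`-invariant subgroup (`A` is commuting), different from
`⊤`, so fixed by `A`: `Ker = C0`. So the range `I` of `φ` has order `|Y / C0| = k`. It is
`A`-invariant, and `I ∩ C0 = 1` by (1). So `I` is not fixed pointwise, and `I = ⊤`. Hence
`Nat.card Y = k`. -/
theorem ey_min {Y : Type*} [Group Y] [Finite Y] {k l : ℕ} (hk : k.Prime) (hY : IsPGroup k Y)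
    (hd : l ∣ k - 1) (A : Set (MulAut Y)) (hA : ∀ a ∈ A, ∀ b ∈ A, a * b = b * a)
    (hAl : ∀ a ∈ A, a ^ l = 1) (hne : ∃ a ∈ A, ∃ y : Y, a y ≠ y)
    (hmin : ∀ M : Subgroup Y, (∀ a ∈ A, ∀ m ∈ M, a m ∈ M) → M ≠ ⊤ → ∀ a ∈ A, ∀ m ∈ M, a m = m) :
    Nat.card Y = k := by
  have hl : ¬ k ∣ l := by
    intro h
    have h1 : k ∣ k - 1 := h.trans hd
    have h2 := Nat.le_of_dvd (Nat.sub_pos_of_lt hk.one_lt) h1
    have h3 := hk.one_lt
    omega
  have hcom : ∀ a ∈ A, ∀ b ∈ A, ∀ y : Y, a (b y) = b (a y) := by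
    intro a ha b hb y
    have h1 := congrArg (fun f : MulAut Y => f y) (hA a ha b hb)
    simpa only [MulAut.mul_apply] using h1
  obtain ⟨a0, ha0, y0, hy0⟩ := hne
  -- step 2
  have hM1 : closure {z : Y | ∃ a ∈ A, ∃ y : Y, z = y⁻¹ * a y} = ⊤ := by
    by_contra hne1
    have hinv : ∀ b ∈ A, ∀ m ∈ closure {z : Y | ∃ a ∈ A, ∃ y : Y, z = y⁻¹ * a y},
        b m ∈ closure {z : Y | ∃ a ∈ A, ∃ y : Y, z = y⁻¹ * a y} := by
      intro b hb m hm
      have h1 : closure {z : Y | ∃ a ∈ A, ∃ y : Y, z = y⁻¹ * a y} ≤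
          (closure {z : Y | ∃ a ∈ A, ∃ y : Y, z = y⁻¹ * a y}).comap ((b : Y ≃* Y) : Y →* Y) := by
        rw [closure_le]
        rintro z ⟨a, ha, y, rfl⟩
        refine subset_closure ⟨a, ha, b y, ?_⟩
        have h2 : b (y⁻¹ * a y) = (b y)⁻¹ * a (b y) := by
          rw [map_mul, map_inv, hcom a ha b hb]
        exact h2
      exact h1 hm
    have h1 := hmin _ hinv hne1 a0 ha0 (y0⁻¹ * a0 y0) (subset_closure ⟨a0, ha0, y0, rfl⟩)
    have h2 := EyM_one hk hY hl a0 (hAl a0 ha0) (y := y0) (t := y0⁻¹ * a0 y0) (by group) h1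
    exact hy0 (inv_mul_eq_one.mp h2).symm
  -- step 3
  let C0 : Subgroup Y :=
    { carrier := {y | ∀ a ∈ A, a y = y}
      mul_mem' := fun {x y} hx hy a ha => by rw [map_mul, hx a ha, hy a ha]
      one_mem' := fun a _ => map_one a
      inv_mem' := fun {x} hx a ha => by rw [map_inv, hx a ha] }
  have hC0 : ∀ a ∈ A, ∀ m ∈ C0, a m = m := fun a ha m hm => hm a ha
  have hC0top : C0 ≠ ⊤ := by
    intro h
    have h1 : y0 ∈ C0 := by rw [h]; exact mem_top y0
    exact hy0 (h1 a0 ha0)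
  have : Fact k.Prime := ⟨hk⟩
  have : Group.IsNilpotent Y := hY.isNilpotent
  have hnc : NormalizerCondition Y := Group.normalizerCondition_of_isNilpotent
  have hconj : ∀ (g : Y), g ∈ normalizer (C0 : Set Y) → ∀ c ∈ C0, g * c * g⁻¹ ∈ C0 := by
    intro g hg c hc
    exact (mem_normalizer_iff.mp hg c).mp hc
  have hNinv : ∀ a ∈ A, ∀ g ∈ normalizer (C0 : Set Y), a g ∈ normalizer (C0 : Set Y) := by
    intro a ha g hg
    rw [mem_normalizer_iff]
    intro h
    constructor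
    · intro hh
      have h1 := hconj g hg h hh
      have h2 := hC0 a ha _ h1
      rw [map_mul, map_mul, map_inv, hC0 a ha h hh] at h2
      rw [h2]
      exact h1
    · intro hh
      have h1 := hconj g⁻¹ (inv_mem hg) _ hh
      rw [inv_inv] at h1
      have h2 := hC0 a ha _ h1
      rw [map_mul, map_mul, map_inv, hC0 a ha _ hh] at h2
      have h3 : (a g)⁻¹ * (a g * h * (a g)⁻¹) * a g = h := by group
      rw [h3] at h2
      rw [h2]
      exact h1
  have hNtop : normalizer (C0 : Set Y) = ⊤ := by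
    by_contra hne1
    have h1 := hmin _ hNinv hne1
    have h2 : C0 < normalizer (C0 : Set Y) := hnc C0 (lt_top_iff_ne_top.mpr hC0top)
    have h3 : normalizer (C0 : Set Y) ≤ C0 := fun g hg a ha => h1 a ha g hg
    exact h2.not_ge h3
  have hnorm : C0.Normal := normalizer_eq_top_iff.mp hNtop
  -- step 4
  have hcen : C0 ≤ center Y := by
    intro c hc
    have h1 : ∀ a ∈ A, ∀ y : Y, c * (a y * y⁻¹) = a y * y⁻¹ * c := by
      intro a ha y
      have h2 : y⁻¹ * c * y ∈ C0 := by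
        have := hnorm.conj_mem c hc y⁻¹
        rwa [inv_inv] at this
      have h3 := hC0 a ha _ h2
      rw [map_mul, map_mul, map_inv, hC0 a ha c hc] at h3
      have h4 : c * a y = a y * (y⁻¹ * c * y) := by
        rw [← h3]
        group
      calc c * (a y * y⁻¹) = c * a y * y⁻¹ := by group
        _ = a y * (y⁻¹ * c * y) * y⁻¹ := by rw [h4]
        _ = a y * y⁻¹ * c := by group
    have h2 : closure {z : Y | ∃ a ∈ A, ∃ y : Y, z = y⁻¹ * a y} ≤ centralizer {c} := by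
      rw [closure_le]
      rintro z ⟨a, ha, y, rfl⟩
      rw [SetLike.mem_coe, mem_centralizer_singleton_iff]
      have h3 := h1 a ha y⁻¹
      rw [map_inv, inv_inv] at h3
      -- h3 : c * ((a y)⁻¹ * y) = (a y)⁻¹ * y * c
      have h4 : ((a y)⁻¹ * y)⁻¹ = y⁻¹ * a y := by group
      have h5 : Commute c ((a y)⁻¹ * y) := h3
      have h6 := h5.inv_right
      rw [h4] at h6
      exact h6.symm
    rw [mem_center_iff]
    intro g
    have h3 : g ∈ closure {z : Y | ∃ a ∈ A, ∃ y : Y, z = y⁻¹ * a y} := by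
      rw [hM1]
      exact mem_top g
    exact mem_centralizer_singleton_iff.mp (h2 h3)
  -- step 5
  have : Nontrivial (Y ⧸ C0) := by
    rw [QuotientGroup.nontrivial_iff]
    exact hC0top
  obtain ⟨A', hA', hAl', hind⟩ := EyM_quot A hA hAl C0 hC0
  obtain ⟨v, hv1, hvk, hvA⟩ := ev_type hk (hY.to_quotient C0) hd A' hA' hAl'
  have hzp : (zpowers v).comap (QuotientGroup.mk' C0) = ⊤ := by
    by_contra hne1
    have hinv : ∀ a ∈ A, ∀ m ∈ (zpowers v).comap (QuotientGroup.mk' C0),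
        a m ∈ (zpowers v).comap (QuotientGroup.mk' C0) := by
      intro a ha m hm
      rw [mem_comap] at hm ⊢
      obtain ⟨φ, hφ, hφ'⟩ := hind a ha
      obtain ⟨c, hc⟩ := hvA φ hφ
      obtain ⟨j, hj⟩ := mem_zpowers_iff.mp hm
      have h1 : QuotientGroup.mk' C0 (a m) = φ (QuotientGroup.mk' C0 m) := (hφ' m).symm
      rw [h1, ← hj, map_zpow, hc]
      exact zpow_mem (pow_mem (mem_zpowers v) c) j
    have h1 := hmin _ hinv hne1
    obtain ⟨w, rfl⟩ := QuotientGroup.mk_surjective v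
    apply hv1
    rw [QuotientGroup.eq_one_iff]
    intro a ha
    exact h1 a ha w (mem_zpowers _)
  have hzp2 : ∀ q : Y ⧸ C0, q ∈ zpowers v := by
    intro q
    obtain ⟨y, rfl⟩ := QuotientGroup.mk_surjective q
    have h1 : y ∈ (zpowers v).comap (QuotientGroup.mk' C0) := by
      rw [hzp]
      exact mem_top y
    exact h1
  have : IsCyclic (Y ⧸ C0) := ⟨⟨v, hzp2⟩⟩
  have hidx : C0.index = k := by
    have h1 : orderOf v = k := orderOf_eq_prime hvk hv1
    have h2 : orderOf v = Nat.card (Y ⧸ C0) := orderOf_eq_card_of_forall_mem_zpowers hzp2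
    have h3 : C0.index = Nat.card (Y ⧸ C0) := rfl
    rw [h3, ← h2, h1]
  have hab : ∀ x y : Y, x * y = y * x := by
    have h1 : (QuotientGroup.mk' C0).ker ≤ center Y := by
      rw [QuotientGroup.ker_mk']
      exact hcen
    have h2 := (QuotientGroup.mk' C0).isMulCommutative_of_isCyclic_of_ker_le_center h1
    exact fun x y => h2.is_comm.comm x y
  -- step 6
  let φ : Y →* Y := MonoidHom.mk' (fun y => y⁻¹ * a0 y) (fun x y => by
    simp only [map_mul, mul_inv_rev]
    calc y⁻¹ * x⁻¹ * (a0 x * a0 y) = y⁻¹ * (x⁻¹ * a0 x) * a0 y := by group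
      _ = x⁻¹ * a0 x * y⁻¹ * a0 y := by rw [hab y⁻¹ (x⁻¹ * a0 x)]
      _ = x⁻¹ * a0 x * (y⁻¹ * a0 y) := by group)
  have hφ : ∀ y, φ y = y⁻¹ * a0 y := fun y => rfl
  have hker : φ.ker = C0 := by
    apply le_antisymm
    · have hKtop : φ.ker ≠ ⊤ := by
        intro h
        have h1 : y0 ∈ φ.ker := by rw [h]; exact mem_top y0
        rw [MonoidHom.mem_ker, hφ] at h1
        exact hy0 (inv_mul_eq_one.mp h1).symm
      have hinv : ∀ a ∈ A, ∀ m ∈ φ.ker, a m ∈ φ.ker := by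
        intro a ha m hm
        rw [MonoidHom.mem_ker, hφ] at hm ⊢
        have h1 := (inv_mul_eq_one.mp hm).symm
        rw [hcom a0 ha0 a ha, h1, inv_mul_cancel]
      exact fun m hm a ha => hmin _ hinv hKtop a ha m hm
    · intro m hm
      rw [MonoidHom.mem_ker, hφ, hC0 a0 ha0 m hm, inv_mul_cancel]
  have hrange : φ.range = ⊤ := by
    by_contra hne1
    have hinv : ∀ a ∈ A, ∀ m ∈ φ.range, a m ∈ φ.range := by
      rintro a ha _ ⟨y, rfl⟩
      refine ⟨a y, ?_⟩
      rw [hφ, hφ, map_mul, map_inv, hcom a0 ha0 a ha]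
    have h1 := hmin _ hinv hne1 a0 ha0 (y0⁻¹ * a0 y0) ⟨y0, rfl⟩
    have h2 := EyM_one hk hY hl a0 (hAl a0 ha0) (y := y0) (t := y0⁻¹ * a0 y0) (by group) h1
    exact hy0 (inv_mul_eq_one.mp h2).symm
  have h1 := index_ker φ
  rw [hker, hidx, hrange, card_top] at h1
  exact h1.symm

end Pool.Agent.Lib.MP_032401_al_M
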