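import Pool.Agent.Lib.MP_032401_al_M.EyM

/-!
# MP_032401_al (project BFM): moved eigenvectors in finite `k`-groups
-/

set_option autoImplicit false

namespace Pool.Agent.Lib.MP_032401_al_M

open Subgroup

/-- The automorphisms induced on a finite invariant subgroup. -/
private theorem EyT_res {Y : Type*} [Group Y] [Finite Y] {l : ℕ} (A : Set (MulAut Y))
    (hA : ∀ a ∈ A, ∀ b ∈ A, a * b = b * a) (hAl : ∀ a ∈ A, a ^ l = 1) (M : Subgroup Y)
    (hM : ∀ a ∈ A, ∀ m ∈ M, a m ∈ M) :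
    ∃ A' : Set (MulAut M), (∀ a ∈ A', ∀ b ∈ A', a * b = b * a) ∧ (∀ a ∈ A', a ^ l = 1) ∧
      (∀ a ∈ A, ∃ φ ∈ A', ∀ m : M, (φ m : Y) = a (m : Y)) ∧
      ∀ φ ∈ A', ∃ a ∈ A, ∀ m : M, (φ m : Y) = a (m : Y) := by
  refine ⟨{φ | ∃ a ∈ A, ∀ m : M, (φ m : Y) = a (m : Y)}, ?_, ?_, ?_, fun φ hφ => hφ⟩
  · rintro φ ⟨a, ha, hφ⟩ ψ ⟨b, hb, hψ⟩
    refine MulEquiv.ext fun m => Subtype.ext ?_
    rw [MulAut.mul_apply, MulAut.mul_apply, hφ, hψ, hψ, hφ]
    have h1 := congrArg (fun f : MulAut Y => f (m : Y)) (hA a ha b hb)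
    simpa only [MulAut.mul_apply] using h1
  · rintro φ ⟨a, ha, hφ⟩
    have h1 : ∀ (n : ℕ) (m : M), ((φ ^ n) m : Y) = (a ^ n) (m : Y) := by
      intro n
      induction n with
      | zero => intro m; simp
      | succ n ih =>
        intro m
        rw [pow_succ', pow_succ', MulAut.mul_apply, MulAut.mul_apply, hφ, ih]
    refine MulEquiv.ext fun m => Subtype.ext ?_
    rw [h1, hAl a ha]
    rfl
  · intro a ha
    let f : M →* M :=
      { toFun := fun m => ⟨a (m : Y), hM a ha m m.2⟩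
        map_one' := Subtype.ext (by simp)
        map_mul' := fun x y => Subtype.ext (by simp) }
    have hinj : Function.Injective f := by
      intro x y hxy
      have h1 : a (x : Y) = a (y : Y) := congrArg Subtype.val hxy
      exact Subtype.ext (a.injective h1)
    exact ⟨MulEquiv.ofBijective f (Finite.injective_iff_bijective.mp hinj), ⟨a, ha, fun m => rfl⟩,
      fun m => rfl⟩

/-- Proof. Let `M` be an `A`-invariant subgroup on which `A` acts nontrivially, with the least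
number of elements. The automorphisms in `A` restrict to `M` (invariant and finite: `a m ∈ M` for
`m ∈ M` implies that `a` maps `M` onto `M`; build the restriction with
`MulEquiv.ofBijective` or `MulEquiv.subgroupMap`), they satisfy the hypotheses of `ey_min`, so `M`
has order `k`, hence is cyclic: choose `v ∈ M`, `v ≠ 1`. Then `v ^ k = 1`, `M = ⟨v⟩`, so each
`a v ∈ M` is a power of `v`; and if all `a ∈ A` fixed `v` they would fix `M`. -/
theorem ey_type {Y : Type*} [Group Y] [Finite Y] {k l : ℕ} (hk : k.Prime) (hY : IsPGroup k Y)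
    (hd : l ∣ k - 1) (A : Set (MulAut Y)) (hA : ∀ a ∈ A, ∀ b ∈ A, a * b = b * a)
    (hAl : ∀ a ∈ A, a ^ l = 1) (hne : ∃ a ∈ A, ∃ y : Y, a y ≠ y) :
    ∃ v : Y, v ^ k = 1 ∧ (∀ a ∈ A, ∃ c : ℕ, a v = v ^ c) ∧ ∃ a ∈ A, a v ≠ v := by
  obtain ⟨M, ⟨hM1, a1, ha1, m1, hm1, hm1'⟩, hMmin⟩ := exists_minimal_of_wellFoundedLT
    (fun M : Subgroup Y => (∀ a ∈ A, ∀ m ∈ M, a m ∈ M) ∧ ∃ a ∈ A, ∃ m ∈ M, a m ≠ m)
    ⟨⊤, fun a _ m _ => mem_top _, by
      obtain ⟨a, ha, y, hy⟩ := hne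
      exact ⟨a, ha, y, mem_top y, hy⟩⟩
  obtain ⟨A', hA', hAl', hind, hind'⟩ := EyT_res A hA hAl M hM1
  have hcard : Nat.card M = k := by
    refine ey_min hk (hY.to_subgroup M) hd A' hA' hAl' ?_ ?_
    · obtain ⟨φ, hφ, hφ'⟩ := hind a1 ha1
      refine ⟨φ, hφ, ⟨m1, hm1⟩, fun h => hm1' ?_⟩
      rw [← hφ' ⟨m1, hm1⟩, h]
    · intro L hL hLtop φ hφ m hm
      by_contra hne1
      apply hLtop
      obtain ⟨a, ha, ha'⟩ := hind' φ hφ
      have h1 : M ≤ L.map M.subtype := by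
        refine hMmin ⟨?_, a, ha, m, ⟨m, hm, rfl⟩, fun h => hne1 (Subtype.ext ?_)⟩ ?_
        · rintro b hb _ ⟨x, hx, rfl⟩
          obtain ⟨ψ, hψ, hψ'⟩ := hind b hb
          exact ⟨ψ x, hL ψ hψ x hx, hψ' x⟩
        · rw [ha' m, h]
        · rintro _ ⟨x, _, rfl⟩
          exact x.2
      rw [eq_top_iff]
      rintro ⟨x, hx⟩ _
      obtain ⟨y, hy, hyx⟩ := h1 hx
      have h2 : y = ⟨x, hx⟩ := Subtype.ext hyx
      rwa [← h2]
  have : Fact k.Prime := ⟨hk⟩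
  have hv1 : (⟨m1, hm1⟩ : M) ≠ 1 := by
    intro h
    have h1 : m1 = 1 := congrArg Subtype.val h
    exact hm1' (by rw [h1, map_one])
  refine ⟨m1, ?_, ?_, a1, ha1, hm1'⟩
  · have h1 : (⟨m1, hm1⟩ : M) ^ k = 1 := by
      rw [← hcard]
      exact pow_card_eq_one'
    exact congrArg Subtype.val h1
  · intro a ha
    have h1 : (⟨a m1, hM1 a ha m1 hm1⟩ : M) ∈ Submonoid.powers (⟨m1, hm1⟩ : M) :=
      mem_powers_of_prime_card hcard hv1
    obtain ⟨c, hc⟩ := h1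
    exact ⟨c, (congrArg Subtype.val hc).symm⟩

end Pool.Agent.Lib.MP_032401_al_M
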