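import Pool.Agent.Lib.MP_032401_al_M.FinA
import Pool.Agent.Lib.MP_032401_al_M.SSm
import Pool.Agent.Lib.MP_032401_al_M.Nrm
import Pool.Agent.Lib.MP_032401_al_M.Syl

/-!
# MP_032401_al (project BFM): maximal finite `l`-subgroups are equal modulo the radical
-/

set_option autoImplicit false

namespace Pool.Agent.Lib.MP_032401_al_M

open Subgroup

variable {G : Type*} [Group G]

/-- Proof. Let `M` be the set of the maximal finite `l`-subgroups. Write `P ~ Q` if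
`P ≤ ρ ⊔ Q` and `Q ≤ ρ ⊔ P` (i.e. `ρ ⊔ P = ρ ⊔ Q`; an equivalence relation). Suppose not all
members of `M` are equivalent; by `exists_bad` (with `bad P Q := ρ ⊔ P ≠ ρ ⊔ Q` and
`I P Q := P ⊓ Q`) take `S1`, `S2` in `M`, not equivalent, with `B = S1 ⊓ S2` maximal. `B ≠ S1`,
`B ≠ S2` (otherwise `S1 ≤ S2` or `S2 ≤ S1`, so `S1 = S2`). Take `a1 ∈ S1`, `a1 ∉ B` normalising `B`
with `a1 ^ l ∈ B`, and `a2 ∈ S2` (`PSub.exists_mem_normalizer_pow`). By `BF`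
`D = closure (B ∪ {a1, a2})` is finite. `R0 = closure (B ∪ {a1})` is a finite `l`-subgroup (it is
`≤ S1`); let `R ≥ R0` be a Sylow `l`-subgroup of `D` and `P ≥ R` in `M`
(`ACC.exists_maximal`). `P ⊓ S1` contains `B` and `a1 ∉ B`, so `P ~ S1` by the maximality of `B`.
`T0 = closure (B ∪ {a2})` is a finite `l`-subgroup, so there is `d ∈ D` with `d T0 d⁻¹ ⊆ R`
(`IsSyl.conj_mem`), and `d⁻¹ = f * r` with `f ∈ ρ`, `r ∈ R` (`final_core`), so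
`T0 ⊆ f R f⁻¹ ⊆ f P f⁻¹ = P'`. `P'` is again in `M`, and `P' ⊓ S2` contains `B` and `a2 ∉ B`, so
`P' ~ S2`. Finally `P' ≤ ρ ⊔ P` and `P ≤ ρ ⊔ P'` as `f ∈ ρ`, and `ρ` is normal. So
`S1 ~ P ~ P' ~ S2`: contradiction. -/
theorem final_two (hG : Cls G) {l : ℕ} (hl : l.Prime)
    (ρ : Subgroup G) (hρ : ∀ g : G, ∀ x ∈ ρ, g * x * g⁻¹ ∈ ρ)
    (hc : ∀ m : ℕ, m.Prime → m ≠ l → ∀ u : G, PElt l u → ∀ Y : Subgroup G, PSub m Y →
      u ∈ normalizer (Y : Set G) → ∀ y ∈ Y, u * y * u⁻¹ * y⁻¹ ∈ ρ)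
    {S1 S2 : Subgroup G} (h1 : PSub l S1) (h1' : ∀ Q : Subgroup G, PSub l Q → S1 ≤ Q → Q = S1)
    (h2 : PSub l S2) (h2' : ∀ Q : Subgroup G, PSub l Q → S2 ≤ Q → Q = S2) :
    ρ ⊔ S1 = ρ ⊔ S2 := by
  by_contra hbad0
  let M : Set (Subgroup G) := {P | PSub l P ∧ ∀ Q : Subgroup G, PSub l Q → P ≤ Q → Q = P}
  obtain ⟨P1, hP1, P2, hP2, hbad, hmax⟩ := exists_bad (hG.acc l hl) M
    (fun P Q => ρ ⊔ P ≠ ρ ⊔ Q) (fun P Q => P ⊓ Q) (fun P hP Q _ => hP.1.mono inf_le_left)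
    (P := S1) (Q := S2) ⟨h1, h1'⟩ ⟨h2, h2'⟩ hbad0
  have hB : PSub l (P1 ⊓ P2) := hP1.1.mono inf_le_left
  have hB1 : P1 ⊓ P2 ≠ P1 := by
    intro h
    have h3 : P1 ≤ P2 := inf_eq_left.1 h
    exact hbad (by rw [hP1.2 P2 hP2.1 h3])
  have hB2 : P1 ⊓ P2 ≠ P2 := by
    intro h
    have h3 : P2 ≤ P1 := inf_eq_right.1 h
    exact hbad (by rw [hP2.2 P1 hP1.1 h3])
  obtain ⟨a1, ha1P, ha1B, ha1n, ha1l⟩ :=
    PSub.exists_mem_normalizer_pow hl hP1.1 (inf_le_left : P1 ⊓ P2 ≤ P1) hB1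
  obtain ⟨a2, ha2P, ha2B, ha2n, ha2l⟩ :=
    PSub.exists_mem_normalizer_pow hl hP2.1 (inf_le_right : P1 ⊓ P2 ≤ P2) hB2
  have hD := hG.bf (P1 ⊓ P2) hB.1 a1 a2 ha1n ha2n ⟨l, hl, ha1B, ha1l⟩ ⟨l, hl, ha2B, ha2l⟩
  obtain ⟨D, hDdef⟩ : ∃ D : Subgroup G,
      D = Subgroup.closure (((P1 ⊓ P2 : Subgroup G) : Set G) ∪ {a1, a2}) := ⟨_, rfl⟩
  rw [← hDdef] at hD
  have hBD : P1 ⊓ P2 ≤ D := by
    rw [hDdef]
    exact fun x hx => subset_closure (Or.inl hx)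
  have ha1D : a1 ∈ D := by
    rw [hDdef]
    exact subset_closure (Or.inr (Or.inl rfl))
  have ha2D : a2 ∈ D := by
    rw [hDdef]
    exact subset_closure (Or.inr (Or.inr rfl))
  -- a Sylow subgroup of `D` containing `B` and `a1`
  have hR0 : Subgroup.closure (((P1 ⊓ P2 : Subgroup G) : Set G) ∪ {a1}) ≤ P1 := by
    rw [closure_le]
    rintro x (hx | hx)
    · exact hx.1
    · rw [Set.mem_singleton_iff] at hx
      rw [hx]
      exact ha1P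
  have hR0D : Subgroup.closure (((P1 ⊓ P2 : Subgroup G) : Set G) ∪ {a1}) ≤ D := by
    rw [closure_le]
    rintro x (hx | hx)
    · exact hBD hx
    · rw [Set.mem_singleton_iff] at hx
      rw [hx]
      exact ha1D
  obtain ⟨R, hR0R, hR⟩ := exists_syl hD (hP1.1.mono hR0) hR0D
  obtain ⟨P, hPl, hRP, hPmax⟩ := (hG.acc l hl).exists_maximal {Q | PSub l Q}
    (fun _ h => h) (P0 := R) hR.2.1
  have hPM : P ∈ M := ⟨hPl, hPmax⟩
  have hBR : P1 ⊓ P2 ≤ R := fun x hx => hR0R (subset_closure (Or.inl hx))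
  have ha1R : a1 ∈ R := hR0R (subset_closure (Or.inr rfl))
  have e1 : ρ ⊔ P = ρ ⊔ P1 := by
    by_contra hc1
    have h3 := hmax P hPM P1 hP1 (le_inf (hBR.trans hRP) inf_le_left) hc1
    have h4 : a1 ∈ P ⊓ P1 := ⟨hRP ha1R, ha1P⟩
    rw [h3] at h4
    exact ha1B h4
  -- the other side
  have hT0 : Subgroup.closure (((P1 ⊓ P2 : Subgroup G) : Set G) ∪ {a2}) ≤ P2 := by
    rw [closure_le]
    rintro x (hx | hx)
    · exact hx.2
    · rw [Set.mem_singleton_iff] at hx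
      rw [hx]
      exact ha2P
  have hT0D : Subgroup.closure (((P1 ⊓ P2 : Subgroup G) : Set G) ∪ {a2}) ≤ D := by
    rw [closure_le]
    rintro x (hx | hx)
    · exact hBD hx
    · rw [Set.mem_singleton_iff] at hx
      rw [hx]
      exact ha2D
  obtain ⟨d, hdD, hd⟩ := IsSyl.conj_mem hl hD hR (hP2.1.mono hT0) hT0D
  have hS : ∀ s ∈ ((P1 ⊓ P2 : Subgroup G) : Set G) ∪ {a1, a2}, PElt l s := by
    rintro s (hs | hs | hs)
    · exact hB.2 s hs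
    · rw [hs]
      exact hP1.1.2 a1 ha1P
    · rw [Set.mem_singleton_iff] at hs
      rw [hs]
      exact hP2.1.2 a2 ha2P
  obtain ⟨f, hf, r, hr, hfr⟩ := final_core hG.per hG.met hl ρ hρ hc hD hS hDdef.symm hR d⁻¹
    (D.inv_mem hdD)
  have hT0P : ∀ x ∈ Subgroup.closure (((P1 ⊓ P2 : Subgroup G) : Set G) ∪ {a2}),
      ∃ y ∈ P, x = f * y * f⁻¹ := by
    intro x hx
    refine ⟨r * (d * x * d⁻¹) * r⁻¹, hRP (R.mul_mem (R.mul_mem hr (hd x hx)) (R.inv_mem hr)), ?_⟩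
    have h3 : d = r⁻¹ * f⁻¹ := by
      rw [← inv_inv d, hfr, mul_inv_rev]
    rw [h3]
    group
  let P' : Subgroup G := P.map (MulAut.conj f).toMonoidHom
  have hmem : ∀ x : G, x ∈ P' ↔ ∃ y ∈ P, f * y * f⁻¹ = x := fun x => Iff.rfl
  have hP'M : P' ∈ M := by
    refine ⟨hPl.conj f, fun Q hQ hle => ?_⟩
    have h3 : P ≤ Q.map (MulAut.conj f⁻¹).toMonoidHom := by
      intro y hy
      refine ⟨f * y * f⁻¹, hle ((hmem _).2 ⟨y, hy, rfl⟩), ?_⟩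
      show f⁻¹ * (f * y * f⁻¹) * f⁻¹⁻¹ = y
      group
    have h4 := hPmax _ (hQ.conj f⁻¹) h3
    refine le_antisymm (fun x hx => ?_) hle
    have h5 : f⁻¹ * x * f⁻¹⁻¹ ∈ Q.map (MulAut.conj f⁻¹).toMonoidHom := ⟨x, hx, rfl⟩
    rw [h4] at h5
    exact (hmem x).2 ⟨_, h5, by group⟩
  have e2 : ρ ⊔ P' = ρ ⊔ P2 := by
    by_contra hc2
    have h3 := hmax P' hP'M P2 hP2 (le_inf (fun x hx => by
      obtain ⟨y, hy, hxy⟩ := hT0P x (subset_closure (Or.inl hx))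
      exact (hmem x).2 ⟨y, hy, hxy.symm⟩) inf_le_right) hc2
    have h4 : a2 ∈ P' ⊓ P2 := by
      refine ⟨?_, ha2P⟩
      obtain ⟨y, hy, hxy⟩ := hT0P a2 (subset_closure (Or.inr rfl))
      exact (hmem a2).2 ⟨y, hy, hxy.symm⟩
    rw [h3] at h4
    exact ha2B h4
  have e3 : ρ ⊔ P = ρ ⊔ P' := by
    have hf1 : ∀ Q : Subgroup G, f ∈ ρ ⊔ Q := fun Q => (le_sup_left : ρ ≤ ρ ⊔ Q) hf
    apply le_antisymm
    · refine sup_le le_sup_left fun y hy => ?_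
      have h3 : f * y * f⁻¹ ∈ ρ ⊔ P' := (le_sup_right : P' ≤ ρ ⊔ P') ((hmem _).2 ⟨y, hy, rfl⟩)
      have h4 := (ρ ⊔ P').mul_mem ((ρ ⊔ P').mul_mem ((ρ ⊔ P').inv_mem (hf1 P')) h3) (hf1 P')
      have h5 : f⁻¹ * (f * y * f⁻¹) * f = y := by group
      rwa [h5] at h4
    · refine sup_le le_sup_left fun x hx => ?_
      obtain ⟨y, hy, rfl⟩ := (hmem x).1 hx
      exact (ρ ⊔ P).mul_mem ((ρ ⊔ P).mul_mem (hf1 P) ((le_sup_right : P ≤ ρ ⊔ P) hy))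
        ((ρ ⊔ P).inv_mem (hf1 P))
  exact hbad (by rw [← e1, e3, e2])

end Pool.Agent.Lib.MP_032401_al_M
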