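import Pool.Agent.Lib.MP_032401_al_M.PR
import Pool.Agent.Lib.MP_032401_al_M.FinB
import Pool.Agent.Lib.MP_032401_al_M.LFc
import Pool.Agent.Lib.MP_032401_al_M.Cj

/-!
# MP_032401_al (project BFM): the main theorem
-/

set_option autoImplicit false

namespace Pool.Agent.Lib.MP_032401_al_M

open Subgroup

variable {G : Type*} [Group G]

/-- all `l`-elements are in the locally finite radical -/
theorem Fin_mem_rad (hG : Cls G) {l : ℕ} (hl : l.Prime) {x : G} (hx : PElt l x) :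
    x ∈ rad (⊤ : Subgroup G) := by
  have hρ : ∀ g : G, ∀ x ∈ rad (⊤ : Subgroup G), g * x * g⁻¹ ∈ rad (⊤ : Subgroup G) :=
    fun g x hx => rad_conj hx g
  have hc : ∀ m : ℕ, m.Prime → m ≠ l → ∀ u : G, PElt l u → ∀ Y : Subgroup G, PSub m Y →
      u ∈ normalizer (Y : Set G) → ∀ y ∈ Y, u * y * u⁻¹ * y⁻¹ ∈ rad (⊤ : Subgroup G) := by
    intro m hm hml u hu Y hY huY y hy
    obtain ⟨O, hO, hOn, hOc⟩ := propR hG hm
    exact le_rad (LF.of_finite hO.1) hOn (hOc l hl hml.symm u hu Y hY huY y hy)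
  have hacc := hG.acc l hl
  have hmax : ∀ P0 : Subgroup G, PSub l P0 →
      ∃ P : Subgroup G, PSub l P ∧ P0 ≤ P ∧ ∀ Q : Subgroup G, PSub l Q → P ≤ Q → Q = P := by
    intro P0 h0
    obtain ⟨P, hP, hle, hm⟩ := hacc.exists_maximal {P | PSub l P} (fun P hP => hP) (P0 := P0) h0
    exact ⟨P, hP, hle, hm⟩
  obtain ⟨S, hS, hxS, hSm⟩ := hmax (Subgroup.zpowers x) (PSub.zpowers hl hx)
  have hSn : ∀ g : G, ∀ s ∈ S, g * s * g⁻¹ ∈ rad (⊤ : Subgroup G) ⊔ S := by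
    intro g s hs
    have h1 : ∀ Q : Subgroup G, PSub l Q → cj g⁻¹ S ≤ Q → Q = cj g⁻¹ S := by
      intro Q hQ hle
      have h2 : cj g Q = S := by
        refine hSm _ (hQ.cj g) ?_
        have h3 := cj_mono g hle
        rwa [cj_cj_inv] at h3
      rw [← h2, cj_inv_cj]
    have h2 := final_two hG hl (rad (⊤ : Subgroup G)) hρ hc (hS.cj g⁻¹) h1 hS hSm
    rw [← h2]
    refine (le_sup_right : cj g⁻¹ S ≤ _) ?_
    rw [mem_cj]
    have h3 : g⁻¹ * (g * s * g⁻¹) * g⁻¹⁻¹ = s := by group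
    rwa [h3]
  have hLF : LF (rad (⊤ : Subgroup G) ⊔ S) :=
    (LF_rad _).sup (LF.of_finite hS.1) (le_top.trans (le_normalizer_rad (⊤ : Subgroup G)))
  have hn : ∀ g : G, ∀ v ∈ rad (⊤ : Subgroup G) ⊔ S, g * v * g⁻¹ ∈ rad (⊤ : Subgroup G) ⊔ S := by
    intro g
    have h1 : rad (⊤ : Subgroup G) ⊔ S ≤
        (rad (⊤ : Subgroup G) ⊔ S).comap (MulAut.conj g).toMonoidHom := by
      refine sup_le (fun v hv => ?_) (fun v hv => hSn g v hv)
      exact (le_sup_left : rad (⊤ : Subgroup G) ≤ _) (hρ g v hv)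
    exact fun v hv => h1 hv
  exact le_rad hLF hn ((le_sup_right : S ≤ _) (hxS (mem_zpowers x)))

/-- **Theorem M.** -/
theorem Cls.locally_finite (hG : Cls G) : LF (⊤ : Subgroup G) := by
  refine (LF_rad (⊤ : Subgroup G)).mono fun x _ => ?_
  exact mem_of_parts (hG.per x) _ fun j hj s hs => Fin_mem_rad hG hj hs

end Pool.Agent.Lib.MP_032401_al_M
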