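import Pool.Agent.Lib.MP_032401_al_M.Knw

/-!
# MP_032401_al (project BFM): finite groups generated by `l`-elements, modulo the radical
-/

set_option autoImplicit false

namespace Pool.Agent.Lib.MP_032401_al_M

open Subgroup

variable {G : Type*} [Group G]

private def FinA_C (ρ : Subgroup G) (hρ : ∀ g : G, ∀ x ∈ ρ, g * x * g⁻¹ ∈ ρ) (r : G) :
    Subgroup G where
  carrier := {x | r * x * r⁻¹ * x⁻¹ ∈ ρ}
  mul_mem' := by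
    intro a b ha hb
    show r * (a * b) * r⁻¹ * (a * b)⁻¹ ∈ ρ
    have e : r * (a * b) * r⁻¹ * (a * b)⁻¹ =
        (r * a * r⁻¹ * a⁻¹) * (a * (r * b * r⁻¹ * b⁻¹) * a⁻¹) := by group
    rw [e]
    exact ρ.mul_mem ha (hρ a _ hb)
  one_mem' := by
    show r * 1 * r⁻¹ * 1⁻¹ ∈ ρ
    have e : r * 1 * r⁻¹ * 1⁻¹ = 1 := by group
    rw [e]
    exact ρ.one_mem
  inv_mem' := by
    intro a ha
    show r * a⁻¹ * r⁻¹ * a⁻¹⁻¹ ∈ ρ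
    have e : r * a⁻¹ * r⁻¹ * a⁻¹⁻¹ = a⁻¹ * (r * a * r⁻¹ * a⁻¹)⁻¹ * a⁻¹⁻¹ := by group
    rw [e]
    exact hρ _ _ (ρ.inv_mem ha)

private theorem FinA_comm (hper : ∀ g : G, IsOfFinOrder g) {l : ℕ}
    (ρ : Subgroup G) (hρ : ∀ g : G, ∀ x ∈ ρ, g * x * g⁻¹ ∈ ρ)
    (hc : ∀ m : ℕ, m.Prime → m ≠ l → ∀ u : G, PElt l u → ∀ Y : Subgroup G, PSub m Y →
      u ∈ normalizer (Y : Set G) → ∀ y ∈ Y, u * y * u⁻¹ * y⁻¹ ∈ ρ)
    {D W : Subgroup G} (hD : (D : Set G).Finite) (hW : HallC l D W) {r : G} (hr : PElt l r)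
    (hrD : r ∈ D) : ∀ w ∈ W, r * w * r⁻¹ * w⁻¹ ∈ ρ := by
  intro w hw
  obtain ⟨C, hC⟩ : ∃ C : Subgroup G, ∀ x, x ∈ C ↔ r * x * r⁻¹ * x⁻¹ ∈ ρ :=
    ⟨FinA_C ρ hρ r, fun _ => Iff.rfl⟩
  rw [← hC]
  refine mem_of_parts (hper w) C fun j hj s hs => ?_
  by_cases hjl : j = l
  · subst hjl
    rw [hW.cop _ (W.pow_mem hw s) hs]
    exact C.one_mem
  · rw [hC]
    have hWf : (W : Set G).Finite := hD.subset hW.le
    exact hc j hj hjl r hr (KP j W) (KP_psub hj hW.nil hWf) (KP_normalizer j W (hW.norm hrD)) _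
      ((mem_KP hj hW.nil).2 ⟨W.pow_mem hw s, hs⟩)

/-- Proof. `exists_hallC` gives `W` with `HallC l D W`.

(1) For `r ∈ R` and `w ∈ W`: `r w r⁻¹ w⁻¹ ∈ ρ`. The set `C` of the `w` with `r w r⁻¹ w⁻¹ ∈ ρ` is a
subgroup (`r (w w') r⁻¹ (w w')⁻¹ = (r w r⁻¹ w⁻¹) * w (r w' r⁻¹ w'⁻¹) w⁻¹`, `ρ` is normal); use
`mem_of_parts` for `C`: a power of `w` which is an `m`-element is `1` if `m = l` (`HallC.cop`), and
if `m ≠ l` it is in `KP m W`, a finite `m`-subgroup normalised by the `l`-element `r`, so `hc`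
applies.

(2) Every `l`-element `d` of `D` is in `ρ * R`: by `IsSyl.conj_mem` (for `zpowers d`) there is
`g ∈ D` with `g d g⁻¹ ∈ R`; `g⁻¹ = w * r` with `w ∈ W`, `r ∈ R` (`HallC.fac`), so
`d = w (r (g d g⁻¹) r⁻¹) w⁻¹ = w s w⁻¹` with `s ∈ R`, and
`w s w⁻¹ = (w (s w⁻¹ s⁻¹)) * s`, where `w s w⁻¹ s⁻¹ ∈ ρ` by (1) (inverse of `s w s⁻¹ w⁻¹`).

(3) `ρ * R` is (the carrier of) a subgroup as `ρ` is normal, and contains all generators `s ∈ S`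
of `D`. -/
theorem final_core (hper : ∀ g : G, IsOfFinOrder g) (hmet : Met G) {l : ℕ} (hl : l.Prime)
    (ρ : Subgroup G) (hρ : ∀ g : G, ∀ x ∈ ρ, g * x * g⁻¹ ∈ ρ)
    (hc : ∀ m : ℕ, m.Prime → m ≠ l → ∀ u : G, PElt l u → ∀ Y : Subgroup G, PSub m Y →
      u ∈ normalizer (Y : Set G) → ∀ y ∈ Y, u * y * u⁻¹ * y⁻¹ ∈ ρ)
    {D : Subgroup G} (hD : (D : Set G).Finite) {S : Set G} (hS : ∀ s ∈ S, PElt l s)
    (hDS : Subgroup.closure S = D) {R : Subgroup G} (hR : IsSyl l D R) :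
    ∀ d ∈ D, ∃ f ∈ ρ, ∃ r ∈ R, d = f * r := by
  obtain ⟨W, hW⟩ := exists_hallC hmet hl hD hS hDS
  have h2 : ∀ d ∈ D, PElt l d → ∃ f ∈ ρ, ∃ r ∈ R, d = f * r := by
    intro d hd hdl
    obtain ⟨g, hgD, hg⟩ := hR.conj_mem hl hD (PSub.zpowers hl hdl) ((zpowers_le).2 hd)
    have hgd : g * d * g⁻¹ ∈ R := hg d (mem_zpowers d)
    obtain ⟨w, hw, r, hr, hwr⟩ := hW.fac R hR g⁻¹ (D.inv_mem hgD)
    have hs : r * (g * d * g⁻¹) * r⁻¹ ∈ R := R.mul_mem (R.mul_mem hr hgd) (R.inv_mem hr)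
    have hgw : g = (w * r)⁻¹ := by rw [← hwr, inv_inv]
    refine ⟨(r * (g * d * g⁻¹) * r⁻¹ * w * (r * (g * d * g⁻¹) * r⁻¹)⁻¹ * w⁻¹)⁻¹,
      ρ.inv_mem (FinA_comm hper ρ hρ hc hD hW (hR.2.1.2 _ hs) (hR.1 hs) w hw), _, hs, ?_⟩
    rw [hgw]
    group
  intro d hd
  rw [← hDS] at hd
  induction hd using Subgroup.closure_induction with
  | mem x hx =>
    refine h2 x ?_ (hS x hx)
    rw [← hDS]
    exact subset_closure hx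
  | one => exact ⟨1, ρ.one_mem, 1, R.one_mem, (one_mul 1).symm⟩
  | mul x y _ _ hx hy =>
    obtain ⟨f, hf, r, hr, rfl⟩ := hx
    obtain ⟨f', hf', r', hr', rfl⟩ := hy
    refine ⟨f * (r * f' * r⁻¹), ρ.mul_mem hf (hρ r _ hf'), r * r', R.mul_mem hr hr', ?_⟩
    group
  | inv x _ hx =>
    obtain ⟨f, hf, r, hr, rfl⟩ := hx
    refine ⟨r⁻¹ * f⁻¹ * r⁻¹⁻¹, hρ _ _ (ρ.inv_mem hf), r⁻¹, R.inv_mem hr, ?_⟩
    group

end Pool.Agent.Lib.MP_032401_al_M
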