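import Pool.Agent.Lib.MP_032401_al_M.KPart
import Pool.Agent.Lib.MP_032401_al_M.Parts

/-!
# MP_032401_al (project BFM): the Hall `k'`-subgroup of a nilpotent subgroup
-/

set_option autoImplicit false

namespace Pool.Agent.Lib.MP_032401_al_M

open Subgroup

variable {G : Type*} [Group G] {k : ℕ} {N : Subgroup G}

theorem Hall_comm (hk : k.Prime) (hN : NilL N) {x g : G} (hx : x ∈ N)
    (hg : g ∈ N) (hgk : PElt k g) {n : ℕ} (hn : ¬ k ∣ n) (hxn : x ^ n = 1) : g * x = x * g := by
  have hfx : IsOfFinOrder x := by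
    refine isOfFinOrder_iff_pow_eq_one.2 ⟨n, Nat.pos_of_ne_zero ?_, hxn⟩
    rintro rfl
    exact hn (dvd_zero k)
  have h2 : x ∈ Subgroup.centralizer ({g} : Set G) := by
    refine mem_of_parts hfx _ fun j hj s hs => ?_
    rw [mem_centralizer_iff]
    rintro v' hv'
    rw [Set.mem_singleton_iff] at hv'
    rw [hv']
    by_cases hjk : j = k
    · subst hjk
      have h3 : x ^ s = 1 := by
        refine PElt.eq_one_of_pow hk hn hs ?_
        rw [← pow_mul, mul_comm, pow_mul, hxn, one_pow]
      rw [h3, mul_one, one_mul]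
    · exact hN.comm k j hk hj (Ne.symm hjk) g hg (x ^ s) (N.pow_mem hx s) hgk hs
  exact mem_centralizer_iff.1 h2 g (Set.mem_singleton g)

theorem Hall_mul (hk : k.Prime) (hN : NilL N) (hf : (N : Set G).Finite) {x y : G} (hx : x ∈ N)
    (hy : y ∈ N) {n m : ℕ} (hn : ¬ k ∣ n) (hm : ¬ k ∣ m) (hxn : x ^ n = 1) (hym : y ^ m = 1) :
    ∃ t : ℕ, ¬ k ∣ t ∧ (x * y) ^ t = 1 := by
  classical
  set H : Subgroup G := Subgroup.closure {x, y} with hH
  have hHN : H ≤ N := by
    rw [hH, closure_le]
    rintro t (ht | ht)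
    · rw [ht]
      exact hx
    · rw [Set.mem_singleton_iff] at ht
      rw [ht]
      exact hy
  have hxH : x ∈ H := subset_closure (Or.inl rfl)
  have hyH : y ∈ H := subset_closure (Or.inr rfl)
  have hHf : Finite H := (hf.subset hHN).to_subtype
  -- the `k`-elements are central
  have hcen : ∀ g : H, PElt k (g : G) → g ∈ Subgroup.center H := by
    intro g hg
    have h1 : H ≤ Subgroup.centralizer ({(g : G)} : Set G) := by
      refine (closure_le _).2 ?_
      rintro t (ht | ht)
      · rw [ht, SetLike.mem_coe, mem_centralizer_iff]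
        rintro v' hv'
        rw [Set.mem_singleton_iff] at hv'
        rw [hv']
        exact Hall_comm hk hN hx (hHN g.2) hg hn hxn
      · rw [Set.mem_singleton_iff] at ht
        rw [ht, SetLike.mem_coe, mem_centralizer_iff]
        rintro v' hv'
        rw [Set.mem_singleton_iff] at hv'
        rw [hv']
        exact Hall_comm hk hN hy (hHN g.2) hg hm hym
    rw [Subgroup.mem_center_iff]
    intro h
    apply Subtype.ext
    exact (mem_centralizer_iff.1 (h1 h.2) g (Set.mem_singleton _)).symm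
  have hidx : ¬ k ∣ (Subgroup.center H).index := by
    intro hdvd
    rw [Subgroup.index_eq_card] at hdvd
    have : Fact k.Prime := ⟨hk⟩
    obtain ⟨q, hq⟩ := exists_prime_orderOf_dvd_card' k hdvd
    obtain ⟨g, rfl⟩ := QuotientGroup.mk_surjective q
    have hgk : g ^ k ∈ Subgroup.center H := by
      have h1 := pow_orderOf_eq_one (QuotientGroup.mk g : H ⧸ Subgroup.center H)
      rw [hq, ← QuotientGroup.mk_pow, QuotientGroup.eq_one_iff] at h1
      exact h1
    obtain ⟨a, b, h1, h2, h3⟩ := exists_split (isOfFinOrder_of_finite g) hk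
    have h4 : g ^ a ∈ Subgroup.center H := by
      refine hcen _ ?_
      exact h2.map H.subtype
    have h5 : g ^ b ∈ Subgroup.center H := by
      have h6 : (g ^ b) ^ k ∈ Subgroup.center H := by
        rw [← pow_mul, mul_comm, pow_mul]
        exact Subgroup.pow_mem _ hgk b
      have h7 : Nat.Coprime (orderOf (g ^ b)) k :=
        ((hk.coprime_iff_not_dvd).2 h3).symm
      obtain ⟨c, hc⟩ := exists_pow_eq_self_of_coprime h7.symm
      rw [← hc]
      exact Subgroup.pow_mem _ h6 c
    have h8 : g ∈ Subgroup.center H := by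
      rw [h1]
      exact Subgroup.mul_mem _ h4 h5
    rw [(QuotientGroup.eq_one_iff g).2 h8, orderOf_one] at hq
    exact hk.one_lt.ne hq
  -- the transfer
  set τ := MonoidHom.transferCenterPow H with hτ
  have hτ1 : ∀ g : H, ((τ g : H) : H) = g ^ (Subgroup.center H).index := fun g => rfl
  refine ⟨(Subgroup.center H).index * (n * m), ?_, ?_⟩
  · intro h
    rcases (Nat.Prime.dvd_mul hk).1 h with h | h
    · exact hidx h
    · rcases (Nat.Prime.dvd_mul hk).1 h with h | h
      · exact hn h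
      · exact hm h
  · have h1 : τ (⟨x, hxH⟩ * ⟨y, hyH⟩) ^ (n * m) = 1 := by
      have hcm : Commute (τ ⟨x, hxH⟩) (τ ⟨y, hyH⟩) :=
        Subtype.ext (Subgroup.mem_center_iff.1 (τ ⟨y, hyH⟩).2 _)
      rw [map_mul, hcm.mul_pow, ← map_pow, ← map_pow]
      have h2 : (⟨x, hxH⟩ : H) ^ (n * m) = 1 := by
        apply Subtype.ext
        push_cast
        rw [pow_mul, hxn, one_pow]
      have h3 : (⟨y, hyH⟩ : H) ^ (n * m) = 1 := by
        apply Subtype.ext
        push_cast
        rw [mul_comm, pow_mul, hym, one_pow]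
      rw [h2, h3, map_one, one_mul]
    have h2 := congrArg (fun z : Subgroup.center H => ((z : H) : G)) h1
    simp only [SubmonoidClass.coe_pow, hτ1] at h2
    rw [pow_mul]
    simpa using h2

/-- Proof. Let `W` be the closure of `S = {x | x ∈ N ∧ ∃ n, ¬ k ∣ n ∧ x ^ n = 1}`. `S` is invariant
under conjugation by the normaliser of `N`.

(a) Every element of `W` commutes with every `k`-element `y` of `N`: enough for `x ∈ S`, and then
`x` lies in the centraliser of `y` by `mem_of_parts` (its powers which are `j`-elements commute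
with `y` by `NilL.comm` if `j ≠ k`, and are `1` if `j = k` by `PElt.eq_one_of_pow`).

(b) `W` contains no `k`-element `≠ 1`. One way: the order of `W` is prime to `k`. Let
`P = KP k N`, a normal (in `N`) `k`-subgroup containing all `k`-elements of `N`, so `N / P` has
no elements of order `k` and `|N : P|` is prime to `k`. By Schur-Zassenhaus
(`Subgroup.exists_right_complement'_of_coprime`) there is a complement `K` of `P` in `N`; every
element of `K` has order prime to `k`, so `K ⊆ S`; and conversely if `x ∈ S`, `x = y * z` with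
`y ∈ P`, `z ∈ K ⊆ S`, then `y` and `z` commute by (a), `x ^ n = 1` and `z ^ n' = 1` with `n`, `n'`
prime to `k` give `y ^ (n * n') = 1`, so `y = 1`. Hence `S = K` is a subgroup, `W = K = S`, and
elements of `S` which are `k`-elements are trivial. (Alternatively: work with the product of the
subgroups `KP j N`, `j ≠ k` prime dividing `|N|`, all normal in `N`.)

(c) the last two claims: `x ∈ N` with `x ^ n = 1`, `¬ k ∣ n` is in `S`; for `x ∈ N` write
`orderOf x = k ^ m * n`; then `x ^ k ^ m ∈ S`. -/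
theorem exists_hall (hk : k.Prime) (hN : NilL N) (hf : (N : Set G).Finite) :
    ∃ W : Subgroup G, W ≤ N ∧ normalizer (N : Set G) ≤ normalizer (W : Set G) ∧
      (∀ w ∈ W, PElt k w → w = 1) ∧ (∀ x ∈ N, ∀ n : ℕ, ¬ k ∣ n → x ^ n = 1 → x ∈ W) ∧
      (∀ x ∈ N, ∃ m : ℕ, x ^ k ^ m ∈ W) := by
  have h1 : ¬ k ∣ 1 := fun h => hk.one_lt.ne' (Nat.dvd_one.1 h)
  refine ⟨{ carrier := {x | x ∈ N ∧ ∃ n : ℕ, ¬ k ∣ n ∧ x ^ n = 1}
            one_mem' := ⟨N.one_mem, 1, h1, one_pow _⟩
            mul_mem' := ?_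
            inv_mem' := ?_ }, ?_, ?_, ?_, ?_, ?_⟩
  · rintro x y ⟨hx, n, hn, hxn⟩ ⟨hy, m, hm, hym⟩
    obtain ⟨t, ht, h2⟩ := Hall_mul hk hN hf hx hy hn hm hxn hym
    exact ⟨N.mul_mem hx hy, t, ht, h2⟩
  · rintro x ⟨hx, n, hn, hxn⟩
    exact ⟨N.inv_mem hx, n, hn, by rw [inv_pow, hxn, inv_one]⟩
  · rintro x ⟨hx, -⟩
    exact hx
  · intro g hg
    rw [mem_normalizer_iff] at hg ⊢
    intro h
    constructor
    · rintro ⟨h2, n, hn, h3⟩
      exact ⟨(hg h).1 h2, n, hn, by rw [conj_pow, h3]; group⟩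
    · rintro ⟨h2, n, hn, h3⟩
      refine ⟨(hg h).2 h2, n, hn, ?_⟩
      rw [conj_pow] at h3
      have h4 : h ^ n = g⁻¹ * (g * h ^ n * g⁻¹) * g := by group
      rw [h4, h3]
      group
  · rintro w ⟨hw, n, hn, h2⟩ h3
    exact h3.eq_one_of_pow hk hn h2
  · intro x hx n hn h2
    exact ⟨hx, n, hn, h2⟩
  · intro x hx
    have : Finite N := hf.to_subtype
    have hpos : 0 < orderOf (⟨x, hx⟩ : N) := orderOf_pos _
    rw [Subgroup.orderOf_mk] at hpos
    obtain ⟨m, n, hn, h2⟩ := Nat.exists_eq_pow_mul_and_not_dvd hpos.ne' k hk.ne_one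
    refine ⟨m, N.pow_mem hx _, n, hn, ?_⟩
    rw [← pow_mul, ← h2]
    exact pow_orderOf_eq_one x

end Pool.Agent.Lib.MP_032401_al_M
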