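import Pool.Agent.Lib.MP_032401_al_M.PSub

/-!
# MP_032401_al (project BFM): the `k`-part of a nilpotent subgroup
-/

set_option autoImplicit false

namespace Pool.Agent.Lib.MP_032401_al_M

open Subgroup

variable {G : Type*} [Group G] {k : ℕ} {N : Subgroup G}

/-- Proof. By `NilL.mul` the set `{x | x ∈ N ∧ PElt k x}` is closed under products; inverses and
`1` are clear; so it is (the carrier of) a subgroup, equal to its closure
(`Subgroup.closure_induction`). -/
theorem mem_KP (hk : k.Prime) (hN : NilL N) {x : G} : x ∈ KP k N ↔ x ∈ N ∧ PElt k x := by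
  constructor
  · intro hx
    induction hx using closure_induction with
    | mem x hx => exact hx
    | one => exact ⟨N.one_mem, PElt.one k⟩
    | mul x y _ _ hx hy => exact ⟨N.mul_mem hx.1 hy.1, hN.mul k hk x hx.1 y hy.1 hx.2 hy.2⟩
    | inv x _ hx => exact ⟨N.inv_mem hx.1, hx.2.inv⟩
  · exact fun hx => subset_closure hx

theorem KP_le (k : ℕ) (N : Subgroup G) : KP k N ≤ N := by
  rw [KP, closure_le]
  exact fun x hx => hx.1

/-- Proof. `KP k N ≤ N` and `mem_KP`. -/
theorem KP_psub (hk : k.Prime) (hN : NilL N) (hf : (N : Set G).Finite) : PSub k (KP k N) :=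
  ⟨hf.subset (KP_le k N), fun _ hx => ((mem_KP hk hN).1 hx).2⟩

/-- Proof. `{x | x ∈ N ∧ PElt k x}` is invariant under conjugation by elements of the normaliser of
`N` and their inverses; `mem_normalizer_closure'` (in `PSub.lean`). -/
theorem KP_normalizer (k : ℕ) (N : Subgroup G) :
    normalizer (N : Set G) ≤ normalizer ((KP k N : Subgroup G) : Set G) := by
  intro g hg
  refine mem_normalizer_closure' (fun s hs => ⟨(mem_normalizer_iff.1 hg s).1 hs.1, hs.2.conj g⟩)
    (fun s hs => ⟨(mem_normalizer_iff''.1 hg s).1 hs.1, ?_⟩)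
  have h := hs.2.conj g⁻¹
  rwa [inv_inv] at h

end Pool.Agent.Lib.MP_032401_al_M
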