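import Pool.Agent.Lib.MP_032401_al_M.Nil

/-!
# MP_032401_al (project BFM): the nilpotent normal subgroup of a finite subgroup
-/

set_option autoImplicit false

namespace Pool.Agent.Lib.MP_032401_al_M

open Subgroup

variable {G : Type*} [Group G]

/-- Proof. Take `N'` normal in `F` (finite type) with `N'` and `F ⧸ N'` nilpotent and
`N = N'.map F.subtype`. `nil`: `commute_of_nilpotent`, `pelt_mul_of_nilpotent` in the finite
nilpotent group `N'`. `comm`: the images of `x`, `y` in `F ⧸ N'` are a `p`-element and a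
`q`-element, so they commute. `mul`: the images of `x`, `y` in `F ⧸ N'` are `p`-elements, so the
image of `x * y` is one (`pelt_mul_of_nilpotent`). -/
theorem exists_metN (hmet : Met G) {F : Subgroup G} (hF : (F : Set G).Finite) :
    ∃ N : Subgroup G, MetN F N := by
  classical
  have hfin : Finite F := hF.to_subtype
  obtain ⟨N', hN', hnil, hquo⟩ := hmet F hF
  have hfinN : ((N'.map F.subtype : Subgroup G) : Set G).Finite :=
    hF.subset (Subgroup.map_subtype_le N')
  have hmem : ∀ x : F, (x : G) ∈ N'.map F.subtype ↔ x ∈ N' := by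
    intro x
    constructor
    · rintro ⟨y, hy, hyx⟩
      have : y = x := Subtype.ext hyx
      rwa [this] at hy
    · intro hx
      exact ⟨x, hx, rfl⟩
  have hpF : ∀ {p : ℕ} {x : F}, PElt p (x : G) → PElt p x := fun {p x} h =>
    PElt.of_map (f := F.subtype) F.subtype_injective h
  have hpN : ∀ {p : ℕ} {x : N'}, PElt p (((x : F) : G)) → PElt p x := fun {p x} h =>
    PElt.of_map (f := N'.subtype) N'.subtype_injective (hpF h)
  refine ⟨N'.map F.subtype, Subgroup.map_subtype_le N', ?_, ⟨?_, ?_⟩, ?_, ?_⟩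
  · intro x hx
    refine mem_normalizer_of_finite hfinN fun t ht => ?_
    obtain ⟨t', ht', rfl⟩ := ht
    exact (hmem (⟨x, hx⟩ * t' * ⟨x, hx⟩⁻¹)).2 (hN'.conj_mem t' ht' ⟨x, hx⟩)
  · intro p q hp hq hpq x hx y hy hpx hqy
    obtain ⟨x', hx', rfl⟩ := hx
    obtain ⟨y', hy', rfl⟩ := hy
    have h1 := commute_of_nilpotent hnil hp hq hpq (x := (⟨x', hx'⟩ : N')) (y := (⟨y', hy'⟩ : N'))
      (hpN hpx) (hpN hqy)
    have h2 := congrArg (fun z : N' => ((z : F) : G)) h1
    exact h2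
  · intro p hp x hx y hy hpx hpy
    obtain ⟨x', hx', rfl⟩ := hx
    obtain ⟨y', hy', rfl⟩ := hy
    have h1 := pelt_mul_of_nilpotent hnil hp (x := (⟨x', hx'⟩ : N')) (y := (⟨y', hy'⟩ : N'))
      (hpN hpx) (hpN hpy)
    exact (h1.map N'.subtype).map F.subtype
  · intro p q hp hq hpq x hx y hy hpx hqy
    have h1 := commute_of_nilpotent hquo hp hq hpq
      (x := QuotientGroup.mk' N' ⟨x, hx⟩) (y := QuotientGroup.mk' N' ⟨y, hy⟩)
      ((hpF (x := ⟨x, hx⟩) hpx).map _) ((hpF (x := ⟨y, hy⟩) hqy).map _)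
    have h2 : (⟨x, hx⟩ * ⟨y, hy⟩ * ⟨x, hx⟩⁻¹ * ⟨y, hy⟩⁻¹ : F) ∈ N' := by
      rw [← QuotientGroup.ker_mk' N', MonoidHom.mem_ker]
      rw [map_mul, map_mul, map_mul, map_inv, map_inv, h1, mul_inv_cancel_right, mul_inv_cancel]
    exact (hmem _).2 h2
  · rintro p hp x hx y hy ⟨m, hm⟩ ⟨n, hn⟩
    have key : ∀ (z : F) (m : ℕ), (z : G) ^ p ^ m ∈ N'.map F.subtype →
        PElt p (QuotientGroup.mk' N' z) := by
      intro z m h
      refine ⟨m, ?_⟩
      have h3 : z ^ p ^ m ∈ N' := (hmem (z ^ p ^ m)).1 h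
      rw [← QuotientGroup.ker_mk' N', MonoidHom.mem_ker] at h3
      rw [← map_pow]
      exact h3
    obtain ⟨k, hk⟩ := pelt_mul_of_nilpotent hquo hp (key ⟨x, hx⟩ m hm) (key ⟨y, hy⟩ n hn)
    refine ⟨k, ?_⟩
    rw [← map_mul, ← map_pow, ← MonoidHom.mem_ker, QuotientGroup.ker_mk'] at hk
    exact (hmem _).2 hk

end Pool.Agent.Lib.MP_032401_al_M
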