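import Pool.Agent.Lib.MP_032401_al_M.Hall
import Pool.Agent.Lib.MP_032401_al_M.MetN
import Pool.Agent.Lib.MP_032401_al_M.Fac

/-!
# MP_032401_al (project BFM): finite groups generated by `k`-elements
-/

set_option autoImplicit false

namespace Pool.Agent.Lib.MP_032401_al_M

open Subgroup

variable {G : Type*} [Group G] {k : ℕ}

/-- Proof. Take `N` with `MetN D N` (`exists_metN`) and `W` from `exists_hall` for `N`. By
`MetN.mul` the set of `d ∈ D` with `d ^ k ^ m ∈ N` for some `m` is closed under products; it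
contains `S` (all `s ∈ S` satisfy `s ^ k ^ m = 1`), `1` and inverses, so it is all of
`D = closure S` (`Subgroup.closure_induction`). Since elements of `N` have a `k`-power power in
`W`, so have all elements of `D`, and `factor` gives `fac`. `le`: `W ≤ N ≤ D`; `norm`:
`D ≤ normalizer N ≤ normalizer W`; `nil`: subgroups of `N` inherit `NilL`; `cop`: clear. `max`: if
`d ^ n = 1`, `¬ k ∣ n` and `d ^ k ^ m ∈ W` then `d` is a product of a power of `d ^ n = 1` and a
power of `d ^ k ^ m` (Bezout), so `d ∈ W`. -/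
theorem exists_hallC (hmet : Met G) (hk : k.Prime) {D : Subgroup G} (hD : (D : Set G).Finite)
    {S : Set G} (hS : ∀ s ∈ S, PElt k s) (hDS : Subgroup.closure S = D) :
    ∃ W : Subgroup G, HallC k D W := by
  classical
  obtain ⟨N, hN⟩ := exists_metN hmet hD
  obtain ⟨W, hWN, hNW, hcop, hhall, hpow⟩ := exists_hall hk hN.nil (hD.subset hN.le)
  have h1 : ∀ d ∈ D, ∃ m : ℕ, d ^ k ^ m ∈ N := by
    intro d hd
    have hSD : ∀ s ∈ S, s ∈ D := fun s hs => by
      rw [← hDS]
      exact Subgroup.subset_closure hs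
    rw [← hDS] at hd
    suffices h : d ∈ D ∧ ∃ m : ℕ, d ^ k ^ m ∈ N from h.2
    induction hd using Subgroup.closure_induction with
    | mem x hx =>
      refine ⟨hSD x hx, ?_⟩
      obtain ⟨m, hm⟩ := hS x hx
      exact ⟨m, by rw [hm]; exact N.one_mem⟩
    | one => exact ⟨D.one_mem, 0, by rw [one_pow]; exact N.one_mem⟩
    | mul x y _ _ hx hy =>
      exact ⟨D.mul_mem hx.1 hy.1, hN.mul k hk x hx.1 y hy.1 hx.2 hy.2⟩
    | inv x _ hx =>
      obtain ⟨m, hm⟩ := hx.2
      exact ⟨D.inv_mem hx.1, m, by rw [inv_pow]; exact N.inv_mem hm⟩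
  have h2 : ∀ d ∈ D, ∃ m : ℕ, d ^ k ^ m ∈ W := by
    intro d hd
    obtain ⟨m, hm⟩ := h1 d hd
    obtain ⟨n, hn⟩ := hpow _ hm
    refine ⟨m + n, ?_⟩
    rw [pow_add, pow_mul]
    exact hn
  have hWD : W ≤ D := hWN.trans hN.le
  have hnorm : D ≤ normalizer (W : Set G) := hN.norm.trans hNW
  refine ⟨W, hWD, hnorm, ⟨?_, ?_⟩, hcop, ?_, fun R hR => factor hk hD hWD hnorm h2 hR⟩
  · intro p q hp hq hpq x hx y hy
    exact hN.nil.comm p q hp hq hpq x (hWN hx) y (hWN hy)
  · intro p hp x hx y hy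
    exact hN.nil.mul p hp x (hWN hx) y (hWN hy)
  · intro d hd n hn hdn
    obtain ⟨m, hm⟩ := h2 d hd
    have hc : Nat.Coprime (k ^ m) n :=
      Nat.Coprime.pow_left m ((Nat.Prime.coprime_iff_not_dvd hk).2 hn)
    have h3 : d = (d ^ k ^ m) ^ (Nat.gcdA (k ^ m) n) * (d ^ n) ^ (Nat.gcdB (k ^ m) n) := by
      have h4 := Nat.gcd_eq_gcd_ab (k ^ m) n
      rw [hc] at h4
      rw [← zpow_natCast, ← zpow_natCast, ← zpow_mul, ← zpow_mul, ← zpow_add, ← h4]
      simp
    rw [h3, hdn, one_zpow, mul_one]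
    exact W.zpow_mem hm _

end Pool.Agent.Lib.MP_032401_al_M
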