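import Pool.Agent.Lib.MP_032401_al_M.MetN
import Pool.Agent.Lib.MP_032401_al_M.KPart

/-!
# MP_032401_al (project BFM): Lemma Y
-/

set_option autoImplicit false

namespace Pool.Agent.Lib.MP_032401_al_M

open Subgroup

variable {G : Type*} [Group G]

/-- **Lemma Y.** Proof. Induction on `e` with `n ^ j ^ e = 1` (for all `n` commuting with `x`). If
`e = 0` then `n = 1`. Let `n ^ j ^ (e + 1) = 1`. By induction `n' = n ^ j` commutes with `v`. Let
`H = zpowers n'`, finite; `v` and `n` centralise, hence normalise `H`. If `n ∈ H` or `v ∈ H` then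
`v` and `n` commute (`H` consists of powers of `n'`). Otherwise `n ∉ H`, `n ^ j ∈ H`, `v ∉ H`,
`v ^ k = 1 ∈ H`, so by `BF` the subgroup `K = closure (H ∪ {v, n})` is finite. `x` normalises `K`
(`x n x⁻¹ = n`, `x v x⁻¹ = v ^ c`, `mem_normalizer_closure`), so `X = K ⊔ zpowers x` is finite
(`sup_finite`; `x` has finite order by `hx`, `PElt.isOfFinOrder`). Take `N` with `MetN X N`
(`exists_metN`). As `x` is an `l`-element, `v` a `k`-element and `l ≠ k`,
`x v x⁻¹ v⁻¹ = v ^ c * v⁻¹ ∈ N`, and `v ^ c ≠ v`, so `v ∈ N` (`mem_of_pow_mul_inv` in `PElt.lean`).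
So `v ∈ KP k N`, a finite `k`-subgroup (`KP_psub`) normalised by the `j`-element `n ∈ X`
(`KP_normalizer`, `MetN.norm`). Since `¬ Act G j k`, `n` centralises it, so `v * n = n * v`. -/
theorem lemY (hbf : BF G) (hmet : Met G) {l k j : ℕ} (hl : l.Prime) (hk : k.Prime) (hj : j.Prime)
    (hlk : l ≠ k) (hact : ¬ Act G j k) {x v n : G} (hx : PElt l x) (hv : v ∈ CC k x)
    (hn : PElt j n) (hxn : x * n = n * x) : v * n = n * v := by
  obtain ⟨e, he⟩ := hn
  obtain ⟨hvk, ⟨c, hc⟩, hxv⟩ := hv
  have hcv : v ^ c ≠ v := by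
    intro h
    rw [h] at hc
    exact hxv (mul_inv_eq_iff_eq_mul.1 hc)
  induction e generalizing n with
  | zero =>
    rw [pow_zero, pow_one] at he
    rw [he, mul_one, one_mul]
  | succ e ih =>
    have hx' : Commute x n := hxn
    have hjn : PElt j n := ⟨e + 1, he⟩
    have hv' : Commute v (n ^ j) := ih (n := n ^ j) (hx'.pow_right j).eq
      (by rw [← pow_mul, ← pow_succ']; exact he)
    have hHf : ((zpowers (n ^ j) : Subgroup G) : Set G).Finite :=
      ((hjn.pow j).isOfFinOrder hj).finite_zpowers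
    by_cases hnH : n ∈ zpowers (n ^ j)
    · obtain ⟨z, hz⟩ := hnH
      have hz' : (n ^ j) ^ z = n := hz
      have h1 : Commute v ((n ^ j) ^ z) := hv'.zpow_right z
      rw [hz'] at h1
      exact h1.eq
    by_cases hvH : v ∈ zpowers (n ^ j)
    · obtain ⟨z, hz⟩ := hvH
      have hz' : (n ^ j) ^ z = v := hz
      have h1 : Commute n ((n ^ j) ^ z) := ((Commute.refl n).pow_right j).zpow_right z
      rw [hz'] at h1
      exact h1.eq.symm
    have hvN : v ∈ normalizer ((zpowers (n ^ j) : Subgroup G) : Set G) := by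
      refine mem_normalizer_of_finite hHf ?_
      rintro _ ⟨z, rfl⟩
      have h1 : Commute v ((n ^ j) ^ z) := hv'.zpow_right z
      show v * (n ^ j) ^ z * v⁻¹ ∈ zpowers (n ^ j)
      rw [h1.eq, mul_inv_cancel_right]
      exact ⟨z, rfl⟩
    have hnN : n ∈ normalizer ((zpowers (n ^ j) : Subgroup G) : Set G) := by
      refine mem_normalizer_of_finite hHf ?_
      rintro _ ⟨z, rfl⟩
      have h1 : Commute n ((n ^ j) ^ z) := ((Commute.refl n).pow_right j).zpow_right z
      show n * (n ^ j) ^ z * n⁻¹ ∈ zpowers (n ^ j)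
      rw [h1.eq, mul_inv_cancel_right]
      exact ⟨z, rfl⟩
    have hKf := hbf (zpowers (n ^ j)) hHf v n hvN hnN
      ⟨k, hk, hvH, by rw [hvk]; exact Subgroup.one_mem _⟩
      ⟨j, hj, hnH, Subgroup.mem_zpowers _⟩
    set K : Subgroup G := closure (((zpowers (n ^ j) : Subgroup G) : Set G) ∪ {v, n}) with hK
    have hvK : v ∈ K := subset_closure (Or.inr (by simp))
    have hnK : n ∈ K := subset_closure (Or.inr (by simp))
    have hxK : x ∈ normalizer (K : Set G) := by
      refine mem_normalizer_closure hKf ?_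
      rintro s (hs | hs)
      · obtain ⟨z, rfl⟩ := hs
        have h1 : Commute x ((n ^ j) ^ z) := (hx'.pow_right j).zpow_right z
        show x * (n ^ j) ^ z * x⁻¹ ∈ _
        rw [h1.eq, mul_inv_cancel_right]
        exact subset_closure (Or.inl ⟨z, rfl⟩)
      · rcases hs with rfl | hs
        · rw [hc]
          exact Subgroup.pow_mem _ hvK c
        · rw [Set.mem_singleton_iff.1 hs, hxn, mul_inv_cancel_right]
          exact hnK
    have hXf : ((K ⊔ zpowers x : Subgroup G) : Set G).Finite :=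
      sup_finite hKf ((hx.isOfFinOrder hl).finite_zpowers) (by rwa [Subgroup.zpowers_le])
    obtain ⟨N, hN⟩ := exists_metN hmet hXf
    have hxX : x ∈ K ⊔ zpowers x := (le_sup_right : zpowers x ≤ K ⊔ zpowers x) (mem_zpowers x)
    have hvX : v ∈ K ⊔ zpowers x := (le_sup_left : K ≤ K ⊔ zpowers x) hvK
    have hnX : n ∈ K ⊔ zpowers x := (le_sup_left : K ≤ K ⊔ zpowers x) hnK
    have hkv : PElt k v := PElt.of_pow_eq_one hvk
    have h2 := hN.comm l k hl hk hlk x hxX v hvX hx hkv
    rw [hc] at h2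
    have hvN' : v ∈ N := mem_of_pow_mul_inv hk hvk hcv N h2
    have hNf : (N : Set G).Finite := hXf.subset hN.le
    by_contra hcon
    exact hact ⟨KP k N, n, KP_psub hk hN.nil hNf, hjn, KP_normalizer k N (hN.norm hnX), v,
      (mem_KP hk hN.nil).2 ⟨hvN', hkv⟩, fun h => hcon h.symm⟩

end Pool.Agent.Lib.MP_032401_al_M
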