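import Pool.Agent.Lib.MP_032401_al_M.SsvD

/-!
# MP_032401_al (project BFM): supersolvable finite groups are metanilpotent
-/

set_option autoImplicit false

namespace Pool.Agent.Lib.MP_032401_al_M

open Subgroup

open scoped commutatorElement

variable {G : Type*} [Group G]

/-- commutators centralise cyclic normal subgroups -/
theorem SsvA_cyc {K : Type*} [Group K] (g : K) (hn : (zpowers g).Normal) :
    ∀ x y : K, ⁅x, y⁆ * g = g * ⁅x, y⁆ := by
  have hex : ∀ x : K, ∃ a : ℤ, x * g * x⁻¹ = g ^ a := by
    intro x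
    obtain ⟨a, ha⟩ := mem_zpowers_iff.mp (hn.conj_mem g (mem_zpowers g) x)
    exact ⟨a, ha.symm⟩
  have hpow : ∀ (x : K) (a b : ℤ), x * g * x⁻¹ = g ^ a → x * g ^ b * x⁻¹ = g ^ (a * b) := by
    intro x a b h
    rw [← conj_zpow, h, zpow_mul]
  have key : ∀ x y : K, x * y * g * (x * y)⁻¹ = y * x * g * (y * x)⁻¹ := by
    intro x y
    obtain ⟨a, ha⟩ := hex x
    obtain ⟨b, hb⟩ := hex y
    have e1 : x * y * g * (x * y)⁻¹ = x * (y * g * y⁻¹) * x⁻¹ := by group
    have e2 : y * x * g * (y * x)⁻¹ = y * (x * g * x⁻¹) * y⁻¹ := by group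
    rw [e1, e2, ha, hb, hpow x a b ha, hpow y b a hb, mul_comm]
  intro x y
  have h1 := key x⁻¹ y⁻¹
  rw [commutatorElement_def]
  have h2 : x⁻¹ * y⁻¹ * g * (x⁻¹ * y⁻¹)⁻¹ = x⁻¹ * y⁻¹ * g * y * x := by group
  have h3 : y⁻¹ * x⁻¹ * g * (y⁻¹ * x⁻¹)⁻¹ = y⁻¹ * x⁻¹ * g * x * y := by group
  rw [h2, h3] at h1
  calc x * y * x⁻¹ * y⁻¹ * g = x * y * (x⁻¹ * y⁻¹ * g * y * x) * x⁻¹ * y⁻¹ := by group
    _ = x * y * (y⁻¹ * x⁻¹ * g * x * y) * x⁻¹ * y⁻¹ := by rw [h1]
    _ = g * (x * y * x⁻¹ * y⁻¹) := by group

/-- the commutator subgroup centralises cyclic normal sections -/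
theorem SsvA_sec {F : Type*} [Group F] (A B : Subgroup F) [hA : A.Normal] (hB : B.Normal)
    (g : F) (h : B = A ⊔ zpowers g) : ∀ z ∈ B, ∀ u ∈ commutator F, ⁅z, u⁆ ∈ A := by
  have hmap : B.map (QuotientGroup.mk' A) = zpowers (QuotientGroup.mk' A g) := by
    rw [h, Subgroup.map_sup, MonoidHom.map_zpowers]
    have h1 : A.map (QuotientGroup.mk' A) = ⊥ := by
      rw [Subgroup.map_eq_bot_iff, QuotientGroup.ker_mk']
    rw [h1, bot_sup_eq]
  have hn : (zpowers (QuotientGroup.mk' A g)).Normal := by
    rw [← hmap]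
    exact hB.map _ (QuotientGroup.mk'_surjective A)
  have hc : commutator F ≤
      (Subgroup.centralizer {QuotientGroup.mk' A g}).comap (QuotientGroup.mk' A) := by
    rw [_root_.commutator_def, Subgroup.commutator_le]
    intro x _ y _
    rw [Subgroup.mem_comap, map_commutatorElement, Subgroup.mem_centralizer_iff]
    intro w hw
    rw [Set.mem_singleton_iff.mp hw]
    exact (SsvA_cyc _ hn _ _).symm
  intro z hz u hu
  have hz' : QuotientGroup.mk' A z ∈ zpowers (QuotientGroup.mk' A g) := by
    rw [← hmap]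
    exact Subgroup.mem_map_of_mem _ hz
  have hu' := hc hu
  rw [Subgroup.mem_comap, Subgroup.mem_centralizer_iff] at hu'
  have h1 : QuotientGroup.mk' A g * QuotientGroup.mk' A u =
      QuotientGroup.mk' A u * QuotientGroup.mk' A g := hu' _ rfl
  obtain ⟨k, hk⟩ := mem_zpowers_iff.mp hz'
  have h2 : Commute (QuotientGroup.mk' A z) (QuotientGroup.mk' A u) := by
    rw [← hk]
    exact (show Commute (QuotientGroup.mk' A g) (QuotientGroup.mk' A u) from h1).zpow_left k
  have h3 : QuotientGroup.mk' A ⁅z, u⁆ = 1 := by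
    rw [map_commutatorElement]
    exact commutatorElement_eq_one_iff_commute.mpr h2
  rwa [← MonoidHom.mem_ker, QuotientGroup.ker_mk'] at h3

/-- Proof. Let `F` be a finite supersolvable subgroup, `s` the series, and `N` the commutator
subgroup of (the type) `F`; `F ⧸ N` is abelian, so nilpotent. `N` is nilpotent: with
`t i = (s i).subgroupOf F` (normal, `t (i + 1) / t i` cyclic), `N` centralises `t (i + 1)` modulo
`t i`, because conjugation by `x ∈ F` maps the generator `g` of `t (i + 1)` modulo `t i` to a power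
`g ^ c` modulo `t i`, so the conjugations by `x` and `y` commute modulo `t i` on `t (i + 1)`. So
the `N ⊓ t i` form an ascending central series of `N`
(`Group.nilpotent_iff_finite_ascending_central_series`). -/
theorem met_of_ssv (h : ∀ F : Subgroup G, (F : Set G).Finite → IsSsv F) : Met G := by
  intro F hF
  obtain ⟨n, s, h0, hn, hnorm, hcyc⟩ := h F hF
  have hmono : ∀ i, i < n → s i ≤ s (i + 1) := by
    intro i hi
    obtain ⟨g, hg⟩ := hcyc i hi
    rw [hg]
    exact le_sup_left
  have hle : ∀ j i, i + j = n → s i ≤ F := by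
    intro j
    induction j with
    | zero =>
      intro i hi
      rw [← hn, ← hi, add_zero]
    | succ j ih =>
      intro i hi
      exact (hmono i (by omega)).trans (ih (i + 1) (by omega))
  have hle' : ∀ i, i ≤ n → s i ≤ F := fun i hi => hle (n - i) i (by omega)
  have htn : ∀ i, i ≤ n → ((s i).subgroupOf F).Normal := fun i hi =>
    Subgroup.normal_subgroupOf_of_le_normalizer (hnorm i hi)
  refine ⟨commutator F, inferInstance, ?_, ?_⟩
  · rw [Subgroup.nilpotent_iff_finite_ascending_central_series]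
    refine ⟨n, fun i => ((s (min i n)).subgroupOf F).subgroupOf (commutator F), ⟨?_, ?_⟩, ?_⟩
    · simp only [Nat.zero_min, h0]
      rw [Subgroup.bot_subgroupOf, Subgroup.bot_subgroupOf]
    · intro x m hx u
      beta_reduce at hx ⊢
      by_cases hm : m < n
      · have e1 : min (m + 1) n = m + 1 := min_eq_left hm
        have e2 : min m n = m := min_eq_left hm.le
        rw [e1] at hx
        rw [e2]
        obtain ⟨g, hg⟩ := hcyc m hm
        have hgF : g ∈ F := by
          refine hle' (m + 1) hm ?_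
          rw [hg]
          exact Subgroup.mem_sup_right (mem_zpowers g)
        have hz : (zpowers g).subgroupOf F = zpowers (⟨g, hgF⟩ : F) := by
          ext z
          rw [Subgroup.mem_subgroupOf, mem_zpowers_iff, mem_zpowers_iff]
          refine exists_congr fun k => ?_
          rw [Subtype.ext_iff]
          rfl
        have hB : (s (m + 1)).subgroupOf F = (s m).subgroupOf F ⊔ zpowers (⟨g, hgF⟩ : F) := by
          rw [hg, Subgroup.subgroupOf_sup (hle' m hm.le)
            ((Subgroup.zpowers_le).mpr hgF), hz]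
        have hA := htn m hm.le
        exact SsvA_sec _ _ (htn (m + 1) hm) _ hB x hx u u.2
      · have e2 : min m n = n := min_eq_right (by omega)
        rw [e2, hn]
        simp
    · simp only [min_self, hn]
      simp
  · exact inferInstanceAs (Group.IsNilpotent (Abelianization F))

end Pool.Agent.Lib.MP_032401_al_M
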