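import Pool.Agent.Lib.MP_032401_al_M.SsvD

/-!
# MP_032401_al (project BFM): actions in supersolvable finite groups
-/

set_option autoImplicit false

namespace Pool.Agent.Lib.MP_032401_al_M

open Subgroup

variable {G : Type*} [Group G]

/-- a residue whose order divides `q ^ b` is one modulo `k ^ a` -/
theorem SsvB_nt {q k : ℕ} (hq : q.Prime) (hk : k.Prime) (hqk : q ≠ k) (hqk1 : ¬ q ∣ k - 1)
    (a b : ℕ) (c : ℤ) (h : ((k ^ a : ℕ) : ℤ) ∣ c ^ q ^ b - 1) : ((k ^ a : ℕ) : ℤ) ∣ c - 1 := by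
  rcases Nat.eq_zero_or_pos a with ha | ha
  · rw [ha, pow_zero, Nat.cast_one]
    exact one_dvd _
  · have h1 : ((c : ℤ) : ZMod (k ^ a)) ^ q ^ b = 1 := by
      have h2 := (ZMod.intCast_zmod_eq_zero_iff_dvd (c ^ q ^ b - 1) (k ^ a)).2 h
      push_cast at h2
      exact sub_eq_zero.1 h2
    have hqb : q ^ b ≠ 0 := pow_ne_zero _ hq.ne_zero
    obtain ⟨x, hx⟩ : IsUnit ((c : ℤ) : ZMod (k ^ a)) := IsUnit.of_pow_eq_one h1 hqb
    have hx1 : x ^ q ^ b = 1 := by
      apply Units.ext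
      rw [Units.val_pow_eq_pow_val, hx, h1, Units.val_one]
    have hx2 : x ^ Nat.totient (k ^ a) = 1 := ZMod.pow_totient x
    have hcop : Nat.Coprime (q ^ b) (Nat.totient (k ^ a)) := by
      rw [Nat.totient_prime_pow hk ha]
      apply Nat.Coprime.pow_left
      apply Nat.Coprime.mul_right
      · exact Nat.Coprime.pow_right _ ((Nat.coprime_primes hq hk).2 hqk)
      · exact (hq.coprime_iff_not_dvd).2 hqk1
    have h3 : orderOf x ∣ 1 := by
      rw [← hcop.gcd_eq_one]
      exact Nat.dvd_gcd (orderOf_dvd_of_pow_eq_one hx1) (orderOf_dvd_of_pow_eq_one hx2)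
    have h4 : x = 1 := orderOf_eq_one_iff.1 (Nat.dvd_one.1 h3)
    have h5 : ((c : ℤ) : ZMod (k ^ a)) = 1 := by
      rw [← hx, h4, Units.val_one]
    apply (ZMod.intCast_zmod_eq_zero_iff_dvd (c - 1) (k ^ a)).1
    push_cast
    rw [h5, sub_self]

/-- the argument in the quotient by a member of the series -/
theorem SsvB_quot {Q : Type*} [Group Q] {q k : ℕ} (hq : q.Prime) (hk : k.Prime) (hqk : q ≠ k)
    (hqk1 : ¬ q ∣ k - 1) {u g y : Q} (hu : PElt q u) (hy : PElt k y)
    (hyg : y ∈ zpowers g) (hug : u * g * u⁻¹ ∈ zpowers g) : u * y * u⁻¹ = y := by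
  obtain ⟨m, hm⟩ := hyg
  obtain ⟨c, hc⟩ := hug
  have hm' : g ^ m = y := hm
  have hc' : g ^ c = u * g * u⁻¹ := hc
  have h1 : u * y * u⁻¹ = y ^ c := by
    rw [← hm', ← conj_zpow, ← hc', ← zpow_mul, ← zpow_mul, mul_comm]
  have h2 : ∀ j : ℕ, u ^ j * y * (u ^ j)⁻¹ = y ^ (c ^ j) := by
    intro j
    induction j with
    | zero => simp
    | succ j ih =>
      have e : u ^ (j + 1) * y * (u ^ (j + 1))⁻¹ = u * (u ^ j * y * (u ^ j)⁻¹) * u⁻¹ := by
        rw [pow_succ']
        group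
      rw [e, ih, ← conj_zpow, h1, ← zpow_mul, ← pow_succ']
  obtain ⟨b, hb⟩ := hu
  obtain ⟨a', ha'⟩ := hy
  obtain ⟨a, -, ha⟩ := (Nat.dvd_prime_pow hk).1 (orderOf_dvd_of_pow_eq_one ha')
  have h3 : y ^ (c ^ q ^ b - 1) = 1 := by
    have h4 := h2 (q ^ b)
    rw [hb, one_mul, inv_one, mul_one] at h4
    rw [zpow_sub, ← h4, zpow_one, mul_inv_cancel]
  have h5 : ((k ^ a : ℕ) : ℤ) ∣ c ^ q ^ b - 1 := by
    rw [← ha]
    exact orderOf_dvd_iff_zpow_eq_one.2 h3
  have h6 := SsvB_nt hq hk hqk hqk1 a b c h5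
  rw [← ha] at h6
  have h7 : y ^ (c - 1) = 1 := orderOf_dvd_iff_zpow_eq_one.1 h6
  rw [h1]
  have h8 : y ^ c = y ^ (c - 1) * y := by
    rw [zpow_sub, zpow_one, inv_mul_cancel_right]
  rw [h8, h7, one_mul]

/-- a `q`-element which acts on `y` by a commuting factor of `k`-power order -/
theorem SsvB_fac {q k : ℕ} (hq : q.Prime) (hk : k.Prime) (hqk : q ≠ k) {u y z : G}
    (hu : PElt q u) (hz : PElt k z) (huz : u * z = z * u) (h : u * y * u⁻¹ = y * z) :
    u * y = y * u := by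
  have h2 : ∀ j : ℕ, u ^ j * y * (u ^ j)⁻¹ = y * z ^ j := by
    intro j
    induction j with
    | zero => simp
    | succ j ih =>
      have e : u ^ (j + 1) * y * (u ^ (j + 1))⁻¹ = u * (u ^ j * y * (u ^ j)⁻¹) * u⁻¹ := by
        rw [pow_succ']
        group
      have e2 : u * z ^ j = z ^ j * u := (show Commute u z from huz).pow_right j
      have e3 : u * (y * z ^ j) * u⁻¹ = (u * y * u⁻¹) * (u * z ^ j * u⁻¹) := by group
      rw [e, ih, e3, h, e2, mul_inv_cancel_right, mul_assoc, ← pow_succ']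
  obtain ⟨b, hb⟩ := hu
  have h3 := h2 (q ^ b)
  rw [hb, one_mul, inv_one, mul_one] at h3
  have h4 : z ^ q ^ b = 1 := by
    have : y * 1 = y * z ^ q ^ b := by rw [mul_one]; exact h3
    exact (mul_left_cancel this).symm
  have h5 : z = 1 := PElt.eq_one hk hq (Ne.symm hqk) hz ⟨b, h4⟩
  rw [h5, mul_one] at h
  exact mul_inv_eq_iff_eq_mul.1 h

/-- Proof. Let `u` be a `q`-element normalising the finite `k`-subgroup `Y`, not centralising it,
`q ≠ k`, and suppose `¬ q ∣ k - 1`. `X = Y ⊔ zpowers u` is finite; let `s` be the series of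
`F = X`, and `Y i = Y ⊓ s i`, normalised by `u`. Claim: `u` centralises `Y i` for all `i ≤ n` (and
`Y n = Y`: contradiction). `Y 0 = ⊥`. Let `u` centralise `Y i`. Let `y ∈ Y (i + 1)`. The factor
`s (i + 1) / s i` is cyclic, so its subgroup `Y (i + 1) s i / s i` is generated by the image of
some `g ∈ Y (i + 1)`, i.e. every `y ∈ Y (i + 1)` is `g ^ e * z`, `z ∈ Y i`; so
`u g u⁻¹ = g ^ c * z` with `c : ℤ`, `z ∈ Y i`. Let `k ^ a` be the order of `g` modulo `Y i`;
`u ^ q ^ b = 1` gives `c ^ q ^ b ≡ 1 mod k ^ a`. The order of `c` in the units of `ZMod (k ^ a)`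
divides both `q ^ b` and `φ (k ^ a) = k ^ (a - 1) * (k - 1)` (for `a ≥ 1`), which is prime to `q`;
so `c ≡ 1 mod k ^ a` and `u g u⁻¹ = g * z'` with `z' ∈ Y i` centralised by `u`; then
`u ^ n g u ^ (-n) = g * z' ^ n`, so `z' ^ q ^ b = 1`, and `z' = 1` (`PElt.eq_one`). So `u` commutes
with `g` and with `Y i`, hence with `Y (i + 1)`. -/
theorem act_of_ssv (h : ∀ F : Subgroup G, (F : Set G).Finite → IsSsv F) {q k : ℕ}
    (hq : q.Prime) (hk : k.Prime) (hqk : q ≠ k) (hact : Act G q k) : q ∣ k - 1 := by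
  classical
  by_contra hqk1
  obtain ⟨Y, u, hY, hu, hun, y₀, hy₀, hne⟩ := hact
  obtain ⟨X, hXd⟩ : ∃ X : Subgroup G, X = Y ⊔ zpowers u := ⟨_, rfl⟩
  have hXf : (X : Set G).Finite := by
    rw [hXd]
    exact sup_finite hY.1 ((hu.isOfFinOrder hq).finite_zpowers) (by rwa [Subgroup.zpowers_le])
  have hYX : Y ≤ X := by
    rw [hXd]
    exact le_sup_left
  have huX : u ∈ X := by
    rw [hXd]
    exact (le_sup_right : zpowers u ≤ Y ⊔ zpowers u) (mem_zpowers u)
  obtain ⟨n, s, hs0, hsn, hnorm, hcyc⟩ := h X hXf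
  have hmono : ∀ i : ℕ, i < n → s i ≤ s (i + 1) := by
    intro i hi
    obtain ⟨g, hg⟩ := hcyc i hi
    rw [hg]
    exact le_sup_left
  have hle : ∀ j : ℕ, j ≤ n → s (n - j) ≤ X := by
    intro j
    induction j with
    | zero =>
      intro _
      rw [Nat.sub_zero, hsn]
    | succ j ih =>
      intro hj
      have h1 := ih (by omega)
      have h2 := hmono (n - (j + 1)) (by omega)
      have h3 : n - (j + 1) + 1 = n - j := by omega
      rw [h3] at h2
      exact h2.trans h1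
  have hleX : ∀ i : ℕ, i ≤ n → s i ≤ X := by
    intro i hi
    have h1 := hle (n - i) (by omega)
    have h2 : n - (n - i) = i := by omega
    rwa [h2] at h1
  have key : ∀ i : ℕ, i ≤ n → ∀ y ∈ Y, y ∈ s i → u * y = y * u := by
    intro i
    induction i with
    | zero =>
      intro _ y _ hy
      rw [hs0, Subgroup.mem_bot] at hy
      rw [hy, mul_one, one_mul]
    | succ i ih =>
      intro hi y hyY hyS
      obtain ⟨g, hg⟩ := hcyc i (by omega)
      have hgS : g ∈ s (i + 1) := by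
        rw [hg]
        exact (le_sup_right : zpowers g ≤ s i ⊔ zpowers g) (mem_zpowers g)
      have hgX : g ∈ X := hleX (i + 1) hi hgS
      have hyX : y ∈ X := hYX hyY
      have hNn : ((s i).subgroupOf X).Normal :=
        (Subgroup.normal_subgroupOf_iff_le_normalizer (hleX i (by omega))).2 (hnorm i (by omega))
      -- images in the quotient
      have hL : ∀ (t : G) (ht : t ∈ X), t ∈ s (i + 1) →
          QuotientGroup.mk' ((s i).subgroupOf X) ⟨t, ht⟩ ∈
            zpowers (QuotientGroup.mk' ((s i).subgroupOf X) ⟨g, hgX⟩) := by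
        intro t ht htS
        have h1 : s i ⊔ zpowers g ≤ ((zpowers (QuotientGroup.mk' ((s i).subgroupOf X)
            ⟨g, hgX⟩)).comap (QuotientGroup.mk' ((s i).subgroupOf X))).map X.subtype := by
          apply sup_le
          · intro r hr
            refine ⟨⟨r, hleX i (by omega) hr⟩, ?_, rfl⟩
            show QuotientGroup.mk' ((s i).subgroupOf X) _ ∈ zpowers _
            have h2 : QuotientGroup.mk' ((s i).subgroupOf X) ⟨r, hleX i (by omega) hr⟩ = 1 := by
              rw [QuotientGroup.mk'_apply, QuotientGroup.eq_one_iff]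
              exact hr
            rw [h2]
            exact one_mem _
          · rw [Subgroup.zpowers_le]
            exact ⟨⟨g, hgX⟩, mem_zpowers _, rfl⟩
        rw [hg] at htS
        obtain ⟨t', ht', htt⟩ := h1 htS
        have h3 : t' = ⟨t, ht⟩ := Subtype.ext htt
        rw [← h3]
        exact ht'
      have hugX : u * g * u⁻¹ ∈ X := X.mul_mem (X.mul_mem huX hgX) (X.inv_mem huX)
      have hugS : u * g * u⁻¹ ∈ s (i + 1) :=
        (Subgroup.mem_normalizer_iff.1 (hnorm (i + 1) hi huX) g).1 hgS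
      have h1 := SsvB_quot (Q := X ⧸ (s i).subgroupOf X) hq hk hqk hqk1
        (u := QuotientGroup.mk' ((s i).subgroupOf X) ⟨u, huX⟩)
        (g := QuotientGroup.mk' ((s i).subgroupOf X) ⟨g, hgX⟩)
        (y := QuotientGroup.mk' ((s i).subgroupOf X) ⟨y, hyX⟩)
        (PElt.map (x := (⟨u, huX⟩ : X)) (PElt.of_map (f := X.subtype) X.subtype_injective hu) _)
        (PElt.map (x := (⟨y, hyX⟩ : X))
          (PElt.of_map (f := X.subtype) X.subtype_injective (hY.2 y hyY)) _)
        (hL y hyX hyS)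
        (by
          have h2 := hL (u * g * u⁻¹) hugX hugS
          have e : (⟨u * g * u⁻¹, hugX⟩ : X) = ⟨u, huX⟩ * ⟨g, hgX⟩ * (⟨u, huX⟩ : X)⁻¹ := rfl
          rw [e, map_mul, map_mul, map_inv] at h2
          exact h2)
      have hz : y⁻¹ * (u * y * u⁻¹) ∈ s i := by
        rw [← map_inv, ← map_mul, ← map_mul, eq_comm, ← mul_inv_eq_one, ← map_inv, ← map_mul,
          QuotientGroup.mk'_apply, QuotientGroup.eq_one_iff] at h1
        have h3 : y * (u * y * u⁻¹)⁻¹ ∈ s i := h1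
        have h4 : y⁻¹ * (y * (u * y * u⁻¹)⁻¹) * y⁻¹⁻¹ ∈ s i :=
          (Subgroup.mem_normalizer_iff.1 (hnorm i (by omega) (X.inv_mem hyX)) _).1 h3
        have h5 := (s i).inv_mem h4
        have e : (y⁻¹ * (y * (u * y * u⁻¹)⁻¹) * y⁻¹⁻¹)⁻¹ = y⁻¹ * (u * y * u⁻¹) := by group
        rwa [e] at h5
      have huy : u * y * u⁻¹ ∈ Y := (Subgroup.mem_normalizer_iff.1 hun y).1 hyY
      have hzY : y⁻¹ * (u * y * u⁻¹) ∈ Y := Y.mul_mem (Y.inv_mem hyY) huy
      exact SsvB_fac hq hk hqk hu (hY.2 _ hzY) (ih (by omega) _ hzY hz)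
        (by rw [mul_inv_cancel_left])
  apply hne
  refine key n le_rfl y₀ hy₀ ?_
  rw [hsn]
  exact hYX hy₀

end Pool.Agent.Lib.MP_032401_al_M
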