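import Pool.Agent.Lib.MP_032401_al_M.Fin
import Pool.Agent.Lib.MP_032401_al_M.SsvA
import Pool.Agent.Lib.MP_032401_al_M.SsvB
import Pool.Agent.Lib.MP_032401_al_M.Acc

/-!
# MP_032401_al (project BFM): the two final statements
-/

set_option autoImplicit false

namespace Pool.Agent.Lib.MP_032401_al_M

open Subgroup

/-- the general form -/
theorem main_met (G : Type) [Group G] (hper : ∀ g : G, IsOfFinOrder g) (hbf : BF G)
    (hmet : Met G)
    (hchn : ∀ m l k : ℕ, m.Prime → l.Prime → k.Prime → m ≠ l → l ≠ k → Act G m l → Act G l k →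
      l ∣ k - 1)
    (hfin : ∀ p : ℕ, p.Prime → ∀ P : Subgroup G, (∀ x ∈ P, ∃ m : ℕ, x ^ p ^ m = 1) →
      (∀ S : Set G, S.Finite → S ⊆ P → ((Subgroup.closure S : Subgroup G) : Set G).Finite) →
      (P : Set G).Finite)
    (S : Finset G) : ((Subgroup.closure (S : Set G) : Subgroup G) : Set G).Finite := by
  have hG : Cls G := ⟨hper, hbf, hmet, hchn, fun p hp => ACC.of_locallyFinite (hfin p hp)⟩
  exact hG.locally_finite (S : Set G) S.finite_toSet (fun x _ => Subgroup.mem_top x)

/-- the supersolvable case -/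
theorem main_ssv (G : Type) [Group G] (hper : ∀ g : G, IsOfFinOrder g) (hbf : BF G)
    (hssv : ∀ F : Subgroup G, (F : Set G).Finite → IsSsv F)
    (hfin : ∀ p : ℕ, p.Prime → ∀ P : Subgroup G, (∀ x ∈ P, ∃ m : ℕ, x ^ p ^ m = 1) →
      (∀ S : Set G, S.Finite → S ⊆ P → ((Subgroup.closure S : Subgroup G) : Set G).Finite) →
      (P : Set G).Finite)
    (S : Finset G) : ((Subgroup.closure (S : Set G) : Subgroup G) : Set G).Finite :=
  main_met G hper hbf (met_of_ssv hssv)
    (fun _ _ _ _ hl hk _ hlk _ h => act_of_ssv hssv hl hk hlk h) hfin S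

end Pool.Agent.Lib.MP_032401_al_M
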