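import Pool.Agent.Lib.MP_032401_al_M.PSub

/-!
# MP_032401_al (project BFM): minimal moved subgroups
-/

set_option autoImplicit false

namespace Pool.Agent.Lib.MP_032401_al_M

open Subgroup

variable {G : Type*} [Group G]

/-- Proof. `Y` is finite: take `Y' ≤ Y` normalised and not centralised by `u`, with the least
number of elements (`Set.Finite.exists_minimal`-type lemmas; the set of all subgroups `≤ Y` is
finite, or use `Nat.find` / strong induction on `Set.ncard`). -/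
theorem exists_min_moved {Y : Subgroup G} (hY : (Y : Set G).Finite) {u : G}
    (huY : u ∈ normalizer (Y : Set G)) (hne : ∃ y ∈ Y, u * y ≠ y * u) :
    ∃ Y' : Subgroup G, Y' ≤ Y ∧ u ∈ normalizer (Y' : Set G) ∧ (∃ y ∈ Y', u * y ≠ y * u) ∧
      ∀ M : Subgroup G, M ≤ Y' → M ≠ Y' → u ∈ normalizer (M : Set G) → ∀ t ∈ M, u * t = t * u := by
  classical
  have hex : ∃ n : ℕ, ∃ M : Subgroup G, M ≤ Y ∧ u ∈ normalizer (M : Set G) ∧
      (∃ y ∈ M, u * y ≠ y * u) ∧ (M : Set G).ncard = n := ⟨_, Y, le_rfl, huY, hne, rfl⟩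
  obtain ⟨Y', h1, h2, h3, h4⟩ := Nat.find_spec hex
  refine ⟨Y', h1, h2, h3, ?_⟩
  intro M hM hMne huM
  by_contra hcon
  push Not at hcon
  have h5 : (M : Set G).ncard < (Y' : Set G).ncard := by
    refine Set.ncard_lt_ncard ⟨hM, fun h => hMne (le_antisymm hM h)⟩ (hY.subset h1)
  rw [h4] at h5
  exact Nat.find_min hex h5 ⟨M, hM.trans h1, huM, hcon, rfl⟩

/-- Proof. Let `M` be the closure of all `u y u⁻¹ y⁻¹`, `y ∈ Y`; `M ≤ Y`, and `u` normalises `M`:
`u (u y u⁻¹ y⁻¹) u⁻¹ = u y' u⁻¹ y'⁻¹` with `y' = u y u⁻¹ ∈ Y` (`mem_normalizer_closure`, `M` is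
finite). If `M ≠ Y`, then `u` centralises `M` by `hmin`. For `y ∈ Y` let `t = u y u⁻¹ y⁻¹ ∈ M`, so
`u y u⁻¹ = t * y`, and by induction `u ^ n y u ^ (-n) = t ^ n * y`. With `u ^ m ^ a = 1` we get
`t ^ m ^ a = 1`; `t ∈ Y` is an `l`-element, so `t = 1` (`PElt.eq_one`). So `u` centralises `Y`,
against `hne`. -/
theorem le_closure_comm {m l : ℕ} (hm : m.Prime) (hl : l.Prime) (hml : m ≠ l) {Y : Subgroup G}
    (hY : PSub l Y) {u : G} (hu : PElt m u) (huY : u ∈ normalizer (Y : Set G))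
    (hne : ∃ y ∈ Y, u * y ≠ y * u)
    (hmin : ∀ M : Subgroup G, M ≤ Y → M ≠ Y → u ∈ normalizer (M : Set G) →
      ∀ t ∈ M, u * t = t * u) :
    Y ≤ Subgroup.closure {t : G | ∃ y ∈ Y, t = u * y * u⁻¹ * y⁻¹} := by
  set M : Subgroup G := Subgroup.closure {t : G | ∃ y ∈ Y, t = u * y * u⁻¹ * y⁻¹} with hMdef
  have hMY : M ≤ Y := by
    rw [hMdef, closure_le]
    rintro _ ⟨y, hy, rfl⟩
    exact Y.mul_mem ((mem_normalizer_iff.1 huY y).1 hy) (Y.inv_mem hy)
  have huM : u ∈ normalizer (M : Set G) := by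
    refine mem_normalizer_closure (hY.1.subset hMY) ?_
    rintro _ ⟨y, hy, rfl⟩
    refine subset_closure ⟨u * y * u⁻¹, (mem_normalizer_iff.1 huY y).1 hy, ?_⟩
    group
  by_contra hcon
  have hMne : M ≠ Y := fun h => hcon h.ge
  have hcent := hmin M hMY hMne huM
  obtain ⟨y, hy, hyu⟩ := hne
  apply hyu
  have ht : u * y * u⁻¹ * y⁻¹ ∈ M := subset_closure ⟨y, hy, rfl⟩
  obtain ⟨a, ha⟩ := hu
  set t : G := u * y * u⁻¹ * y⁻¹ with htdef
  have h1 : ∀ n : ℕ, u ^ n * y * (u ^ n)⁻¹ = t ^ n * y := by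
    intro n
    induction n with
    | zero => simp
    | succ n ih =>
      have hc : Commute u (t ^ n) := (show Commute u t from hcent t ht).pow_right n
      have h2 : u ^ (n + 1) * y * (u ^ (n + 1))⁻¹ = u * (u ^ n * y * (u ^ n)⁻¹) * u⁻¹ := by
        rw [pow_succ']
        group
      rw [h2, ih]
      calc u * (t ^ n * y) * u⁻¹ = (u * t ^ n) * y * u⁻¹ := by group
        _ = (t ^ n * u) * y * u⁻¹ := by rw [hc.eq]
        _ = t ^ n * ((u * y * u⁻¹ * y⁻¹) * y) := by group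
        _ = t ^ (n + 1) * y := by rw [← htdef, pow_succ]; group
  have h2 : t ^ m ^ a = 1 := by
    have h3 := h1 (m ^ a)
    rw [ha] at h3
    have h4 : y = t ^ m ^ a * y := by simpa using h3
    exact (mul_eq_right.1 h4.symm)
  have h3 : t = 1 := PElt.eq_one hm hl hml ⟨a, h2⟩ (hY.2 t (hMY ht))
  have h4 : u * y * u⁻¹ * y⁻¹ = 1 := h3
  have h5 : u * y = y * u := by
    have h6 : u * y * u⁻¹ = y := by
      rwa [mul_inv_eq_one] at h4
    calc u * y = (u * y * u⁻¹) * u := by group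
      _ = y * u := by rw [h6]
  exact h5

end Pool.Agent.Lib.MP_032401_al_M
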