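import Pool.Agent.Lib.MP_032401_al_M.PSub

/-!
# MP_032401_al (project BFM): central elements of order `l`
-/

set_option autoImplicit false

namespace Pool.Agent.Lib.MP_032401_al_M

open Subgroup

variable {G : Type*} [Group G]

/-- The central elements of order dividing `l` of a nontrivial finite `l`-subgroup. Proof. Let `A`
be the set of the `a ∈ Y` with `a ^ l = 1` commuting with all elements of `Y`: a subgroup, and
nontrivial because the centre of a nontrivial finite `l`-group is nontrivial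
(`IsPGroup.center_nontrivial`) and has an element of order `l`. Elements normalising `Y` normalise
`A`. -/
theorem exists_omega {l : ℕ} (hl : l.Prime) {Y : Subgroup G} (hY : PSub l Y)
    (hne : ∃ y ∈ Y, y ≠ 1) :
    ∃ A : Subgroup G, A ≤ Y ∧ (∃ a ∈ A, a ≠ 1) ∧ (∀ a ∈ A, a ^ l = 1) ∧
      (∀ a ∈ A, ∀ y ∈ Y, a * y = y * a) ∧
      ∀ g ∈ normalizer (Y : Set G), g ∈ normalizer (A : Set G) := by
  classical
  have hfin : (Y : Set G).Finite := hY.1
  have hF : Fact l.Prime := ⟨hl⟩
  let A : Subgroup G :=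
    { carrier := {a | a ∈ Y ∧ a ^ l = 1 ∧ ∀ y ∈ Y, a * y = y * a}
      mul_mem' := by
        rintro a b ⟨ha, ha1, hac⟩ ⟨hb, hb1, hbc⟩
        refine ⟨Y.mul_mem ha hb, ?_, fun y hy => ?_⟩
        · rw [(show Commute a b from hac b hb).mul_pow, ha1, hb1, one_mul]
        · rw [mul_assoc, hbc y hy, ← mul_assoc, hac y hy, mul_assoc]
      one_mem' := ⟨Y.one_mem, one_pow l, fun y _ => by rw [one_mul, mul_one]⟩
      inv_mem' := by
        rintro a ⟨ha, ha1, hac⟩
        refine ⟨Y.inv_mem ha, by rw [inv_pow, ha1, inv_one], fun y hy => ?_⟩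
        exact ((show Commute a y from hac y hy).inv_left).eq }
  refine ⟨A, fun a ha => ha.1, ?_, fun a ha => ha.2.1, fun a ha => ha.2.2, ?_⟩
  · have hYf : Finite Y := hfin.to_subtype
    obtain ⟨y, hy, hy1⟩ := hne
    have hYn : Nontrivial Y := ⟨⟨y, hy⟩, 1, fun h => hy1 (congrArg Subtype.val h)⟩
    have hcn := hY.isPGroup.center_nontrivial
    obtain ⟨c, hc⟩ := exists_ne (1 : center Y)
    have hc1 : ((c : Y) : G) ≠ 1 := fun h => hc (Subtype.ext (Subtype.ext h))
    have hP : ∃ m : ℕ, ((c : Y) : G) ^ l ^ m = 1 := hY.2 _ (c : Y).2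
    have hm := Nat.find_spec hP
    obtain ⟨m, hm1⟩ : ∃ m, Nat.find hP = m + 1 := by
      refine Nat.exists_eq_succ_of_ne_zero fun h0 => hc1 ?_
      rw [h0, pow_zero, pow_one] at hm
      exact hm
    have hlt : ((c : Y) : G) ^ l ^ m ≠ 1 := Nat.find_min hP (by omega)
    refine ⟨((c : Y) : G) ^ l ^ m, ⟨Y.pow_mem (c : Y).2 _, ?_, fun z hz => ?_⟩, hlt⟩
    · rw [← pow_mul, ← pow_succ, ← hm1]
      exact hm
    · have h1 := (Subgroup.mem_center_iff.1 c.2) ⟨z, hz⟩
      have h2 : Commute z ((c : Y) : G) := congrArg Subtype.val h1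
      exact ((h2.pow_right _).eq).symm
  · intro g hg
    have hAf : (A : Set G).Finite := hfin.subset fun a ha => ha.1
    refine mem_normalizer_of_finite hAf ?_
    rintro t ⟨ht, ht1, htc⟩
    refine ⟨(mem_normalizer_iff.1 hg t).1 ht, ?_, fun y hy => ?_⟩
    · rw [conj_pow, ht1, mul_one, mul_inv_cancel]
    · have h1 : g⁻¹ * y * g ∈ Y := by
        have h2 := (mem_normalizer_iff.1 hg (g⁻¹ * y * g)).2
        apply h2
        have h3 : g * (g⁻¹ * y * g) * g⁻¹ = y := by group
        rw [h3]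
        exact hy
      have h2 := htc _ h1
      calc g * t * g⁻¹ * y = g * (t * (g⁻¹ * y * g)) * g⁻¹ := by group
        _ = g * ((g⁻¹ * y * g) * t) * g⁻¹ := by rw [h2]
        _ = y * (g * t * g⁻¹) := by group

end Pool.Agent.Lib.MP_032401_al_M
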