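import Pool.Agent.Lib.MP_032401_al_M.MetN
import Pool.Agent.Lib.MP_032401_al_M.KPart

/-!
# MP_032401_al (project BFM): Proposition P, the core
-/

set_option autoImplicit false

namespace Pool.Agent.Lib.MP_032401_al_M

open Subgroup

variable {G : Type*} [Group G]

/-- Proof. `X = (V ⊔ Y) ⊔ zpowers u` is finite (`sup_finite` twice: `Y` normalises `V`, and `u`
normalises `V ⊔ Y`, e.g. by `mem_normalizer_closure`-type arguments; `u` has finite order). Take
`N` with `MetN X N`. For `y ∈ Y` the commutator `u y u⁻¹ y⁻¹` of an `m`-element and an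
`l`-element is in `N`, so `Y ≤ N` by `hY'`. Let `y ∈ Y`, `v ∈ V`, `v ^ k = 1`,
`y v y⁻¹ = v ^ c`. If `v ^ c = v` then `y` and `v` commute. Otherwise
`v ^ c * v⁻¹ = y * (v y⁻¹ v⁻¹) ∈ N` (`N` is normalised by `v ∈ X`), so `v ∈ N`
(`mem_of_pow_mul_inv`), and the `l`-element `y` and the `k`-element `v` of `N` commute
(`NilL.comm`). -/
theorem pp_core (hmet : Met G) {m l k : ℕ} (hm : m.Prime) (hl : l.Prime) (hk : k.Prime)
    (hml : m ≠ l) (hlk : l ≠ k) {u : G} (hu : PElt m u) {Y : Subgroup G} (hY : PSub l Y)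
    (huY : u ∈ normalizer (Y : Set G))
    (hY' : Y ≤ Subgroup.closure {t : G | ∃ y ∈ Y, t = u * y * u⁻¹ * y⁻¹}) {V : Subgroup G}
    (hV : PSub k V) (hYV : Y ≤ normalizer (V : Set G)) (huV : u ∈ normalizer (V : Set G)) {y v : G}
    (hy : y ∈ Y) (hv : v ∈ V) (hvk : v ^ k = 1) (hc : ∃ c : ℕ, y * v * y⁻¹ = v ^ c) :
    y * v = v * y := by
  have e : Subgroup.closure ((V : Set G) ∪ Y) = V ⊔ Y := by
    rw [Subgroup.closure_union, Subgroup.closure_eq, Subgroup.closure_eq]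
  have hfVY : ((V ⊔ Y : Subgroup G) : Set G).Finite := sup_finite hV.1 hY.1 hYV
  have huVY : u ∈ normalizer ((V ⊔ Y : Subgroup G) : Set G) := by
    rw [← e]
    refine mem_normalizer_closure (by rw [e]; exact hfVY) ?_
    rintro s (hs | hs)
    · exact subset_closure (Or.inl ((mem_normalizer_iff.1 huV s).1 hs))
    · exact subset_closure (Or.inr ((mem_normalizer_iff.1 huY s).1 hs))
  have hX : (((V ⊔ Y) ⊔ Subgroup.zpowers u : Subgroup G) : Set G).Finite :=
    sup_finite hfVY (PSub.zpowers hm hu).1 (zpowers_le.2 huVY)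
  obtain ⟨N, hN⟩ := exists_metN hmet hX
  have hVX : V ≤ (V ⊔ Y) ⊔ Subgroup.zpowers u := le_sup_left.trans le_sup_left
  have hYX : Y ≤ (V ⊔ Y) ⊔ Subgroup.zpowers u := le_sup_right.trans le_sup_left
  have huX : u ∈ (V ⊔ Y) ⊔ Subgroup.zpowers u := (le_sup_right : Subgroup.zpowers u ≤ _)
    (mem_zpowers u)
  have hYN : Y ≤ N := by
    refine hY'.trans ((closure_le _).2 ?_)
    rintro t ⟨z, hz, rfl⟩
    exact hN.comm m l hm hl hml u huX z (hYX hz) hu (hY.2 z hz)
  obtain ⟨c, hc⟩ := hc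
  by_cases h1 : v ^ c = v
  · rw [h1, mul_inv_eq_iff_eq_mul] at hc
    exact hc
  · have h2 : v ^ c * v⁻¹ ∈ N := by
      have h3 : v ^ c * v⁻¹ = y * (v * y⁻¹ * v⁻¹) := by
        rw [← hc]
        group
      rw [h3]
      exact N.mul_mem (hYN hy) ((mem_normalizer_iff.1 (hN.norm (hVX hv)) _).1
        (N.inv_mem (hYN hy)))
    have h3 : v ∈ N := mem_of_pow_mul_inv hk hvk h1 N h2
    exact hN.nil.comm l k hl hk hlk y (hYN hy) v h3 (hY.2 y hy) (PElt.of_pow_eq_one hvk)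

end Pool.Agent.Lib.MP_032401_al_M
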