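import Pool.Agent.Lib.MP_032401_al_M.XXa
import Pool.Agent.Lib.MP_032401_al_M.NC
import Pool.Agent.Lib.MP_032401_al_M.SSm

/-!
# MP_032401_al (project BFM): the subgroup generated by all `XL`-elements
-/

set_option autoImplicit false

namespace Pool.Agent.Lib.MP_032401_al_M

open Subgroup

variable {G : Type*} [Group G]

/-- **Theorem XX.** The subgroup generated by all `XL l`-elements is a finite `l`-group.

Proof. Let `𝓔` be the set of all `E` with `PSub l E` and `E ≤ closure ({z | XL l z} ∩ E)`, and `M`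
its maximal members. By `ACC.exists_maximal` every member of `𝓔` is contained in a maximal one. If
`XL l z` then `zpowers z ∈ 𝓔`. So it is enough that `M` has at most one member `E` (there is one
as `⊥ ∈ 𝓔`): then all `z` lie in `E`, so `closure {z | XL l z} ≤ E`.

Suppose `E1 ≠ E2` in `M`; by `exists_bad` (with `bad P Q := P ≠ Q`,
`I P Q := closure ({z | XL l z} ∩ P ∩ Q) ≤ P`) we may take them with `I = I E1 E2` maximal. Some
`z ∈ E1` with `XL l z` is not in `I` (otherwise `E1 ≤ closure (.. ∩ E1) ≤ I ≤ E2`, so `E1 = E2` by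
maximality). By `exists_normalizing` for `Q = E1`, `E = I` there is `y1 ∈ E1`, `XL l y1`,
`y1 ∉ I`, normalising `I`. Similarly `y2 ∈ E2`. `y1 ^ l = 1 ∈ I`, `y2 ^ l = 1 ∈ I`, so by `BF`
`D = closure (I ∪ {y1, y2})` is finite, and it is the closure of the `XL l`-elements
`({z | XL l z} ∩ E1 ∩ E2) ∪ {y1, y2}`; by `xl_psub` it is in `𝓔`. Let `E3 ≥ D` be in `M`. Then
`I E1 E3 ≥ I` contains `y1 ∉ I`, so by maximality `E1` and `E3` are not bad: `E3 = E1`. In the
same way (with `y2`) `E3 = E2`; contradiction. -/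
theorem xx (hG : Cls G) {l : ℕ} (hl : l.Prime) :
    PSub l (Subgroup.closure {z : G | XL l z}) := by
  classical
  set X : Set G := {z : G | XL l z} with hX
  set EE : Set (Subgroup G) := {E | PSub l E ∧ E ≤ Subgroup.closure (X ∩ (E : Set G))} with hEE
  have hmaxEE : ∀ P0 ∈ EE, ∃ P ∈ EE, P0 ≤ P ∧ ∀ Q ∈ EE, P ≤ Q → Q = P := fun P0 hP0 =>
    (hG.acc l hl).exists_maximal EE (fun P hP => hP.1) hP0
  set M : Set (Subgroup G) := {E | E ∈ EE ∧ ∀ Q ∈ EE, E ≤ Q → Q = E} with hM
  have hmax : ∀ P0 ∈ EE, ∃ P ∈ M, P0 ≤ P := by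
    intro P0 hP0
    obtain ⟨P, hP, hle, hmx⟩ := hmaxEE P0 hP0
    exact ⟨P, ⟨hP, hmx⟩, hle⟩
  have hconj : ∀ g : G, ∀ s ∈ X, g * s * g⁻¹ ∈ X := fun g s hs => XL.conj hs g
  have huniq : ∀ P ∈ M, ∀ Q ∈ M, P = Q := by
    intro P hP Q hQ
    by_contra hPQ
    obtain ⟨E1, hE1, E2, hE2, hne, hmx⟩ := exists_bad (hG.acc l hl) M (fun P Q => P ≠ Q)
      (fun P Q => Subgroup.closure (X ∩ (P : Set G) ∩ (Q : Set G)))
      (fun P hP Q _ => hP.1.1.mono (by
        rw [closure_le]
        intro x hx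
        exact hx.1.2)) hP hQ hPQ
    set T : Set G := X ∩ (E1 : Set G) ∩ (E2 : Set G) with hT
    set I : Subgroup G := Subgroup.closure T with hI
    have hI1 : I ≤ E1 := by
      rw [hI, closure_le]
      intro x hx
      exact hx.1.2
    have hI2 : I ≤ E2 := by
      rw [hI, closure_le]
      intro x hx
      exact hx.2
    have hTI : T ⊆ (I : Set G) := subset_closure
    have hIS : I ≤ Subgroup.closure (X ∩ (I : Set G)) :=
      closure_mono fun x hx => ⟨hx.1.1, hTI hx⟩
    have hz1 : ∃ s ∈ X, s ∈ E1 ∧ s ∉ I := by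
      by_contra hcon
      push Not at hcon
      have h1 : E1 ≤ I := by
        refine hE1.1.2.trans ?_
        rw [closure_le]
        intro x hx
        exact hcon x hx.1 hx.2
      exact hne (hE1.2 E2 hE2.1 (h1.trans hI2)).symm
    have hz2 : ∃ s ∈ X, s ∈ E2 ∧ s ∉ I := by
      by_contra hcon
      push Not at hcon
      have h1 : E2 ≤ I := by
        refine hE2.1.2.trans ?_
        rw [closure_le]
        intro x hx
        exact hcon x hx.1 hx.2
      exact hne (hE2.2 E1 hE1.1 (h1.trans hI1))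
    obtain ⟨y1, hy1X, hy1E, hy1I, hy1N⟩ := exists_normalizing hl hE1.1.1 X
      (fun g _ => hconj g) hI1 hIS hz1
    obtain ⟨y2, hy2X, hy2E, hy2I, hy2N⟩ := exists_normalizing hl hE2.1.1 X
      (fun g _ => hconj g) hI2 hIS hz2
    have hIfin : (I : Set G).Finite := (hE1.1.1.mono hI1).1
    have hDfin := hG.bf I hIfin y1 y2 hy1N hy2N
      ⟨l, hl, hy1I, by rw [show y1 ^ l = 1 from hy1X.1]; exact I.one_mem⟩
      ⟨l, hl, hy2I, by rw [show y2 ^ l = 1 from hy2X.1]; exact I.one_mem⟩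
    set D : Subgroup G := Subgroup.closure ((I : Set G) ∪ {y1, y2}) with hD
    have hDT : Subgroup.closure (T ∪ {y1, y2}) = D := by
      rw [hD, Subgroup.closure_union, Subgroup.closure_union, Subgroup.closure_eq, hI]
    have hTX : ∀ s ∈ T ∪ {y1, y2}, XL l s := by
      rintro s (hs | hs)
      · exact hs.1.1
      · rcases hs with rfl | hs
        · exact hy1X
        · rw [Set.mem_singleton_iff] at hs
          rw [hs]; exact hy2X
    have hDp : PSub l D := xl_psub hG.per hG.met hl hDfin hTX hDT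
    have hTD : T ∪ {y1, y2} ⊆ (D : Set G) := by
      rw [← hDT]
      exact subset_closure
    have hDE : D ∈ EE := by
      refine ⟨hDp, ?_⟩
      nth_rewrite 1 [← hDT]
      exact closure_mono fun x hx => ⟨hTX x hx, hTD hx⟩
    obtain ⟨E3, hE3, hDE3⟩ := hmax D hDE
    have hy1D : y1 ∈ D := hTD (Or.inr (Or.inl rfl))
    have hy2D : y2 ∈ D := hTD (Or.inr (Or.inr rfl))
    have h13 : E1 = E3 := by
      by_contra hcon
      have h1 := hmx E1 hE1 E3 hE3 (closure_mono fun x hx =>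
        ⟨hx.1, hDE3 (hTD (Or.inl hx))⟩) hcon
      apply hy1I
      have h2 : y1 ∈ Subgroup.closure (X ∩ (E1 : Set G) ∩ (E3 : Set G)) :=
        subset_closure ⟨⟨hy1X, hy1E⟩, hDE3 hy1D⟩
      rw [h1] at h2
      exact h2
    have h32 : E3 = E2 := by
      by_contra hcon
      have h1 := hmx E3 hE3 E2 hE2 (closure_mono fun x hx =>
        ⟨⟨hx.1.1, hDE3 (hTD (Or.inl hx))⟩, hx.2⟩) hcon
      apply hy2I
      have h2 : y2 ∈ Subgroup.closure (X ∩ (E3 : Set G) ∩ (E2 : Set G)) :=
        subset_closure ⟨⟨hy2X, hDE3 hy2D⟩, hy2E⟩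
      rw [h1] at h2
      exact h2
    exact hne (h13.trans h32)
  obtain ⟨E, hE, -⟩ := hmax ⊥ ⟨PSub.bot l, bot_le⟩
  refine hE.1.1.mono ?_
  rw [closure_le]
  intro z hz
  have hzE : Subgroup.zpowers z ∈ EE := by
    refine ⟨PSub.zpowers hl (PElt.of_pow_eq_one hz.1), ?_⟩
    rw [Subgroup.zpowers_le]
    exact subset_closure ⟨hz, mem_zpowers z⟩
  obtain ⟨E', hE', hle⟩ := hmax _ hzE
  rw [huniq E hE E' hE']
  exact hle (mem_zpowers z)

end Pool.Agent.Lib.MP_032401_al_M
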