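import Pool.Agent.Lib.MP_032401_al_M.SS
import Pool.Agent.Lib.MP_032401_al_M.XX
import Pool.Agent.Lib.MP_032401_al_M.CH
import Pool.Agent.Lib.MP_032401_al_M.EyG
import Pool.Agent.Lib.MP_032401_al_M.PPa
import Pool.Agent.Lib.MP_032401_al_M.PPb
import Pool.Agent.Lib.MP_032401_al_M.PPc

/-!
# MP_032401_al (project BFM): Proposition P
-/

set_option autoImplicit false

namespace Pool.Agent.Lib.MP_032401_al_M

open Subgroup

variable {G : Type*} [Group G]

theorem PP_xl_normal (l : ℕ) (g : G) : ∀ x ∈ Subgroup.closure {z : G | XL l z},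
    g * x * g⁻¹ ∈ Subgroup.closure {z : G | XL l z} := by
  intro x hx
  have h1 : g ∈ normalizer ((Subgroup.closure {z : G | XL l z} : Subgroup G) : Set G) := by
    refine mem_normalizer_closure' (fun s hs => XL.conj hs g) (fun s hs => ?_)
    have h2 := XL.conj hs g⁻¹
    rwa [inv_inv] at h2
  exact (mem_normalizer_iff.1 h1 x).1 hx

theorem PP_cy_normal {k : ℕ} {A : Subgroup G} {g : G} (hg : g ∈ normalizer (A : Set G)) :
    g ∈ normalizer ((Subgroup.closure (CY k (A : Set G)) : Subgroup G) : Set G) := by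
  have h1 : ∀ y ∈ A, g * y * g⁻¹ ∈ A := fun y hy => (mem_normalizer_iff.1 hg y).1 hy
  have h2 : ∀ y ∈ A, g⁻¹ * y * g ∈ A := fun y hy => (mem_normalizer_iff''.1 hg y).1 hy
  refine mem_normalizer_closure' (fun s hs => CY_conj h2 h1 hs) (fun s hs => ?_)
  have h3 := CY_conj (g := g⁻¹) (v := s) (k := k) (Y := (A : Set G))
    (fun y hy => by rw [inv_inv]; exact h1 y hy) (fun y hy => by rw [inv_inv]; exact h2 y hy) hs
  rwa [inv_inv] at h3

theorem PP_cc_normal {k : ℕ} {y g : G} (hg : g * y = y * g) :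
    g ∈ normalizer ((Subgroup.closure (CC k y) : Subgroup G) : Set G) := by
  have hg' : g⁻¹ * y = y * g⁻¹ := by
    have h1 : Commute g y := hg
    exact h1.inv_left.eq
  refine mem_normalizer_closure' (fun s hs => CC_conj hg hs) (fun s hs => ?_)
  have h3 := CC_conj hg' hs
  rwa [inv_inv] at h3

/-- **Proposition P.** -/
theorem propP (hG : Cls G) {l : ℕ} (hl : l.Prime)
    (hno : ∀ O : Subgroup G, PSub l O → (∀ g : G, ∀ x ∈ O, g * x * g⁻¹ ∈ O) → O = ⊥) {m : ℕ}
    (hm : m.Prime) (hml : m ≠ l) {u : G} (hu : PElt m u) {Y : Subgroup G} (hY : PSub l Y)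
    (huY : u ∈ normalizer (Y : Set G)) : ∀ y ∈ Y, u * y = y * u := by
  by_contra hcon
  push Not at hcon
  obtain ⟨Y', hY'Y, huY', hne, hmin⟩ := exists_min_moved hY.1 huY hcon
  have hY' : PSub l Y' := hY.mono hY'Y
  have hcomm := le_closure_comm hm hl hml hY' hu huY' hne hmin
  have hne1 : ∃ y ∈ Y', y ≠ 1 := by
    obtain ⟨y, hy, hyu⟩ := hne
    refine ⟨y, hy, ?_⟩
    rintro rfl
    exact hyu (by rw [mul_one, one_mul])
  obtain ⟨A, hAY, ⟨a, haA, ha1⟩, hAl, hAc, hAn⟩ := exists_omega hl hY' hne1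
  have hActml : Act G m l := ⟨Y', u, hY', hu, huY', hne⟩
  have hXL : XL l a := by
    refine ⟨hAl a haA, ?_⟩
    intro k hk hkl T hT haT
    by_contra hcon
    push Not at hcon
    have hlk : l ≠ k := fun h => hkl h.symm
    have hActlk : Act G l k := ⟨T, a, hT, PElt.of_pow_eq_one (hAl a haA), haT, hcon⟩
    have hd : l ∣ k - 1 := hG.chn m l k hm hl hk hml hlk hActml hActlk
    have hβ : ∀ j : ℕ, j.Prime → j ≠ k → Act G k j → ¬ Act G j k := by
      intro j hj hjk h1 h2
      have e1 := hG.chn k j k hk hj hk hjk.symm hjk h1 h2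
      have e2 := hG.chn j k j hj hk hj hjk hjk.symm h2 h1
      have hk2 := hk.two_le
      have hj2 := hj.two_le
      have e3 := Nat.le_of_dvd (by omega) e1
      have e4 := Nat.le_of_dvd (by omega) e2
      omega
    have hSS : ∀ y ∈ A, PSub k (Subgroup.closure (CC k y)) := fun y hy =>
      ss hG hl hk hlk hd hβ (hAl y hy)
    have hAfin : (A : Set G).Finite := hY'.1.subset hAY
    have hV : PSub k (Subgroup.closure (CY k (A : Set G))) := ch hk hAfin hSS
    obtain ⟨v0, hv0T, hv0k, hv0c, a0, ha0, hv0m⟩ := ey_sub hk hd hT {a}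
      (by
        intro b hb c hc
        rw [Set.mem_singleton_iff] at hb hc
        rw [hb, hc])
      (by
        intro b hb
        rw [Set.mem_singleton_iff] at hb
        rw [hb]
        exact hAl a haA)
      (by
        intro b hb
        rw [Set.mem_singleton_iff] at hb
        rw [hb]
        exact haT)
      ⟨a, rfl, hcon⟩
    rw [Set.mem_singleton_iff] at ha0
    rw [ha0] at hv0m
    have hv0 : v0 ∈ CC k a := ⟨hv0k, hv0c a rfl, hv0m⟩
    have hAcomm : ∀ b ∈ A, ∀ c ∈ A, b * c = c * b := fun b hb c hc => hAc b hb c (hAY hc)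
    obtain ⟨v, hvT, hvk, hvc, hvm⟩ := ey_sub hk hd (hSS a haA) (A : Set G) hAcomm hAl
      (fun b hb => PP_cc_normal (hAcomm b hb a haA)) ⟨a, haA, v0, subset_closure hv0, hv0m⟩
    have hvCY : v ∈ CY k (A : Set G) := ⟨hvk, hvc, hvm⟩
    obtain ⟨a', ha'A, ha'v⟩ := hvm
    refine ha'v (pp_core hG.met hm hl hk hml hlk hu hY' huY' hcomm hV ?_ ?_ (hAY ha'A)
      (subset_closure hvCY) hvk (hvc a' ha'A))
    · intro y hy
      exact PP_cy_normal (hAn y (le_normalizer hy))
    · exact PP_cy_normal (hAn u huY')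
  have h1 := hno _ (xx hG hl) (PP_xl_normal l)
  have h2 : a ∈ Subgroup.closure {z : G | XL l z} := subset_closure hXL
  rw [h1, Subgroup.mem_bot] at h2
  exact ha1 h2

end Pool.Agent.Lib.MP_032401_al_M
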