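import Pool.Agent.Lib.MP_032401_al_M.QMet
import Pool.Agent.Lib.MP_032401_al_M.QAct

/-!
# MP_032401_al (project BFM): the class is closed under factor groups by finite normal subgroups
-/

set_option autoImplicit false

namespace Pool.Agent.Lib.MP_032401_al_M

open Subgroup

variable {G : Type*} [Group G]

theorem Cls.quot (hG : Cls G) (O : Subgroup G) [O.Normal] (hO : (O : Set G).Finite) :
    Cls (G ⧸ O) where
  per g := by
    obtain ⟨g, rfl⟩ := QuotientGroup.mk'_surjective O g
    exact (QuotientGroup.mk' O).isOfFinOrder (hG.per g)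
  bf := hG.bf.quot O hO
  met := hG.met.quot O hO
  chn m l k hm hl hk hml hlk h1 h2 :=
    hG.chn m l k hm hl hk hml hlk (act_lift hG.per O hO hm hl hml h1)
      (act_lift hG.per O hO hl hk hlk h2)
  acc p hp := (hG.acc p hp).quot hp O hO

end Pool.Agent.Lib.MP_032401_al_M
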