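import Pool.Agent.Lib.MP_032401_al_M.PP
import Pool.Agent.Lib.MP_032401_al_M.Quot

/-!
# MP_032401_al (project BFM): Proposition R
-/

set_option autoImplicit false

namespace Pool.Agent.Lib.MP_032401_al_M

open Subgroup

variable {G : Type*} [Group G]

/-- **Proposition R.** -/
theorem propR (hG : Cls G) {l : ℕ} (hl : l.Prime) :
    ∃ O : Subgroup G, PSub l O ∧ (∀ g : G, ∀ x ∈ O, g * x * g⁻¹ ∈ O) ∧
      ∀ m : ℕ, m.Prime → m ≠ l → ∀ u : G, PElt m u → ∀ Y : Subgroup G, PSub l Y →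
        u ∈ normalizer (Y : Set G) → ∀ y ∈ Y, u * y * u⁻¹ * y⁻¹ ∈ O := by
  obtain ⟨O, ⟨hO, hOn⟩, -, hmax⟩ := (hG.acc l hl).exists_maximal
    {O : Subgroup G | PSub l O ∧ ∀ g : G, ∀ x ∈ O, g * x * g⁻¹ ∈ O} (fun P hP => hP.1)
    (P0 := ⊥) ⟨PSub.bot l, by
      intro g x hx
      rw [Subgroup.mem_bot] at hx
      rw [hx, mul_one, mul_inv_cancel]
      exact Subgroup.one_mem _⟩
  have hON : O.Normal := ⟨fun x hx g => hOn g x hx⟩
  have hQ : Cls (G ⧸ O) := hG.quot O hO.1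
  have hno : ∀ P : Subgroup (G ⧸ O), PSub l P → (∀ g : G ⧸ O, ∀ x ∈ P, g * x * g⁻¹ ∈ P) →
      P = ⊥ := by
    intro P hP hPn
    have h1 : P.comap (QuotientGroup.mk' O) = O := by
      refine hmax _ ⟨⟨comap_finite O hO.1 P hP.1, ?_⟩, ?_⟩ ?_
      · intro x hx
        obtain ⟨m, hm⟩ := hP.2 _ hx
        have h2 : x ^ l ^ m ∈ O := by
          rw [← map_pow] at hm
          have h3 : x ^ l ^ m ∈ (QuotientGroup.mk' O).ker := hm
          rwa [QuotientGroup.ker_mk'] at h3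
        exact PElt.of_pow (hO.2 _ h2)
      · intro g x hx
        rw [Subgroup.mem_comap, map_mul, map_mul, map_inv]
        exact hPn _ _ hx
      · intro x hx
        have h2 : x ∈ (QuotientGroup.mk' O).ker := by rwa [QuotientGroup.ker_mk']
        rw [Subgroup.mem_comap, (MonoidHom.mem_ker).1 h2]
        exact Subgroup.one_mem _
    rw [eq_bot_iff]
    intro x hx
    obtain ⟨g, rfl⟩ := QuotientGroup.mk'_surjective O x
    have h2 : g ∈ P.comap (QuotientGroup.mk' O) := hx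
    rw [h1] at h2
    have h3 : g ∈ (QuotientGroup.mk' O).ker := by rwa [QuotientGroup.ker_mk']
    rw [Subgroup.mem_bot]
    exact (MonoidHom.mem_ker).1 h3
  refine ⟨O, hO, hOn, ?_⟩
  intro m hm hml u hu Y hY huY y hy
  have h1 : QuotientGroup.mk' O u ∈
      normalizer ((Y.map (QuotientGroup.mk' O) : Subgroup (G ⧸ O)) : Set (G ⧸ O)) :=
    Subgroup.le_normalizer_map (QuotientGroup.mk' O) ⟨u, huY, rfl⟩
  have h2 := propP hQ hl hno hm hml (hu.map (QuotientGroup.mk' O)) (hY.map (QuotientGroup.mk' O))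
    h1 _ ⟨y, hy, rfl⟩
  have h3 : u * y * u⁻¹ * y⁻¹ ∈ (QuotientGroup.mk' O).ker := by
    rw [MonoidHom.mem_ker, map_mul, map_mul, map_mul, map_inv, map_inv, h2]
    group
  rwa [QuotientGroup.ker_mk'] at h3

end Pool.Agent.Lib.MP_032401_al_M
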