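import Pool.Agent.Lib.MP_032401_al_M.QBF
import Pool.Agent.Lib.MP_032401_al_M.Syl

/-!
# MP_032401_al (project BFM): factor groups by finite normal subgroups, part 3
-/

set_option autoImplicit false

namespace Pool.Agent.Lib.MP_032401_al_M

open Subgroup

variable {G : Type*} [Group G]

/-- A Sylow `p`-subgroup `R` of the preimage of a finite `p`-subgroup `P` of `G ⧸ O` maps onto `P`.
Proof. `(R.map f)` is the image of a Sylow subgroup under the surjective map from the preimage `L`
of `P` onto `P` (`Sylow.mapSurjective`), so a Sylow `p`-subgroup of the `p`-group `P`, i.e. `P`.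
(Compare `Cls.of_surjective` in `Pool/Agent/Lib/MP_032401_al/Basic.lean`.) -/
theorem IsSyl.map_eq {p : ℕ} (hp : p.Prime) (O : Subgroup G) [O.Normal] (hO : (O : Set G).Finite)
    {P : Subgroup (G ⧸ O)} (hP : PSub p P) {R : Subgroup G}
    (hR : IsSyl p (P.comap (QuotientGroup.mk' O)) R) : R.map (QuotientGroup.mk' O) = P := by
  have hfact : Fact p.Prime := ⟨hp⟩
  have hDf := comap_finite O hO P hP.1
  have hFfin : Finite (P.comap (QuotientGroup.mk' O)) := hDf.to_subtype
  have hPfin : Finite P := hP.1.to_subtype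
  obtain ⟨S, hS⟩ := hR.exists_sylow hDf
  have hsur : Function.Surjective ((QuotientGroup.mk' O).subgroupComap P) :=
    (QuotientGroup.mk' O).subgroupComap_surjective_of_surjective P
      (QuotientGroup.mk'_surjective O)
  have hPp : IsPGroup p P := hP.isPGroup
  have hT : ((S.mapSurjective hsur : Sylow p P) : Subgroup P) = ⊤ := by
    have h3 := (S.mapSurjective hsur).is_maximal' (Q := ⊤)
      (IsPGroup.of_equiv hPp Subgroup.topEquiv.symm) le_top
    exact h3.symm
  rw [Sylow.coe_mapSurjective] at hT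
  refine le_antisymm (Subgroup.map_le_iff_le_comap.2 hR.1) fun a ha => ?_
  have hz : (⟨a, ha⟩ : P) ∈ Subgroup.map ((QuotientGroup.mk' O).subgroupComap P)
      (S : Subgroup (P.comap (QuotientGroup.mk' O))) := by
    rw [hT]; trivial
  obtain ⟨w, hw, hwa⟩ := hz
  refine ⟨w.1, ?_, congrArg Subtype.val hwa⟩
  have h5 : w.1 ∈ (S : Subgroup (P.comap (QuotientGroup.mk' O))).map
      (P.comap (QuotientGroup.mk' O)).subtype := ⟨w, hw, rfl⟩
  rw [hS] at h5
  exact h5

/-- Proof. Let `f` be monotone with values finite `p`-subgroups of `G ⧸ O` and `L n` the preimage of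
`f n` (finite). Choose recursively Sylow `p`-subgroups `R n` of `L n` with `R n ≤ R (n + 1)`
(`exists_syl`, as `R n ≤ L n ≤ L (n + 1)`; use recursion on `n` with values in
`{R // IsSyl p (L n) R}`). By `ACC G p` the sequence `R` stabilises, and `f n` is the image of
`R n` by `IsSyl.map_eq`. -/
theorem ACC.quot {p : ℕ} (hp : p.Prime) (h : ACC G p) (O : Subgroup G) [O.Normal]
    (hO : (O : Set G).Finite) : ACC (G ⧸ O) p := by
  intro f hf hmono
  have hLf : ∀ n, (((f n).comap (QuotientGroup.mk' O) : Subgroup G) : Set G).Finite :=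
    fun n => comap_finite O hO (f n) (hf n).1
  obtain ⟨R0, -, hR0⟩ := exists_syl (hLf 0) (PSub.bot p) bot_le
  have hs : ∀ (n : ℕ) (R : {R : Subgroup G // IsSyl p ((f n).comap (QuotientGroup.mk' O)) R}),
      ∃ R' : {R : Subgroup G // IsSyl p ((f (n + 1)).comap (QuotientGroup.mk' O)) R},
        R.1 ≤ R'.1 := by
    intro n R
    obtain ⟨R', h1, h2⟩ := exists_syl (hLf (n + 1)) R.2.2.1
      (R.2.1.trans (Subgroup.comap_mono (hmono (Nat.le_succ n))))
    exact ⟨⟨R', h2⟩, h1⟩
  choose nx hnx using hs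
  let Rs : ∀ n : ℕ, {R : Subgroup G // IsSyl p ((f n).comap (QuotientGroup.mk' O)) R} :=
    fun n => Nat.rec ⟨R0, hR0⟩ (fun n R => nx n R) n
  have hRs : Monotone fun n => (Rs n).1 := monotone_nat_of_le_succ fun n => hnx n (Rs n)
  obtain ⟨n, hn⟩ := h (fun n => (Rs n).1) (fun n => (Rs n).2.2.1) hRs
  refine ⟨n, fun m hm => ?_⟩
  rw [← IsSyl.map_eq hp O hO (hf m) (Rs m).2, ← IsSyl.map_eq hp O hO (hf n) (Rs n).2]
  exact congrArg (Subgroup.map (QuotientGroup.mk' O)) (hn m hm)

end Pool.Agent.Lib.MP_032401_al_M
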