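import Pool.Agent.Lib.MP_032401_al_M.PSub

/-!
# MP_032401_al (project BFM): factor groups by finite normal subgroups, part 1
-/

set_option autoImplicit false

namespace Pool.Agent.Lib.MP_032401_al_M

open Subgroup

variable {G : Type*} [Group G]

theorem comap_finite (O : Subgroup G) [O.Normal] (hO : (O : Set G).Finite) (A : Subgroup (G ⧸ O))
    (hA : (A : Set (G ⧸ O)).Finite) :
    ((A.comap (QuotientGroup.mk' O) : Subgroup G) : Set G).Finite := by
  rw [Subgroup.coe_comap]
  refine hA.preimage' fun b _ => ?_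
  obtain ⟨g, rfl⟩ := QuotientGroup.mk'_surjective O b
  refine (hO.image (fun z => g * z)).subset ?_
  intro z hz
  refine ⟨g⁻¹ * z, ?_, by simp⟩
  have hz' : QuotientGroup.mk' O z = QuotientGroup.mk' O g := hz
  have h1 : g⁻¹ * z ∈ (QuotientGroup.mk' O).ker := by
    rw [MonoidHom.mem_ker, map_mul, map_inv, hz', inv_mul_cancel]
  rwa [QuotientGroup.ker_mk'] at h1

theorem BF.quot (h : BF G) (O : Subgroup G) [O.Normal] (hO : (O : Set G).Finite) :
    BF (G ⧸ O) := by
  intro H hH x y hx hy hxp hyq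
  obtain ⟨p, hp, hxH, hxp⟩ := hxp
  obtain ⟨q, hq, hyH, hyq⟩ := hyq
  have hf := QuotientGroup.mk'_surjective O
  obtain ⟨x, rfl⟩ := hf x
  obtain ⟨y, rfl⟩ := hf y
  have h1 := h (H.comap (QuotientGroup.mk' O)) (comap_finite O hO H hH) x y
    (Subgroup.le_normalizer_comap _ hx) (Subgroup.le_normalizer_comap _ hy)
    ⟨p, hp, hxH, by rw [Subgroup.mem_comap, map_pow]; exact hxp⟩
    ⟨q, hq, hyH, by rw [Subgroup.mem_comap, map_pow]; exact hyq⟩
  have h2 : QuotientGroup.mk' O '' (((H.comap (QuotientGroup.mk' O) : Subgroup G) : Set G) ∪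
      {x, y}) = (H : Set (G ⧸ O)) ∪ {QuotientGroup.mk' O x, QuotientGroup.mk' O y} := by
    rw [Set.image_union, Set.image_pair, Subgroup.coe_comap, Set.image_preimage_eq _ hf]
  rw [← h2, ← MonoidHom.map_closure, Subgroup.coe_map]
  exact h1.image _

end Pool.Agent.Lib.MP_032401_al_M
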