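import Pool.Agent.Lib.MP_032401_al_M.QBF

/-!
# MP_032401_al (project BFM): factor groups by finite normal subgroups, part 2
-/

set_option autoImplicit false

namespace Pool.Agent.Lib.MP_032401_al_M

open Subgroup

variable {G : Type*} [Group G]

theorem QMet_image {F : Type*} [Group F] {Fb : Type*} [Group Fb] (f : F →* Fb)
    (hf : Function.Surjective f) (N : Subgroup F) (hN : N.Normal) (h1 : Group.IsNilpotent N)
    (h2 : Group.IsNilpotent (F ⧸ N)) :
    ∃ (Nb : Subgroup Fb) (_ : Nb.Normal), Group.IsNilpotent Nb ∧ Group.IsNilpotent (Fb ⧸ Nb) := by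
  have hNb : (N.map f).Normal := hN.map f hf
  refine ⟨N.map f, hNb, ?_, ?_⟩
  · exact Group.nilpotent_of_surjective (f.subgroupMap N) (f.subgroupMap_surjective N)
  · refine Group.nilpotent_of_surjective (QuotientGroup.map N (N.map f) f
      (Subgroup.le_comap_map f N)) ?_
    intro y
    obtain ⟨z, rfl⟩ := QuotientGroup.mk'_surjective (N.map f) y
    obtain ⟨w, rfl⟩ := hf z
    exact ⟨QuotientGroup.mk' N w, rfl⟩

/-- Proof. Let `Fb` be a finite subgroup of `G ⧸ O`, `F` its preimage, finite (`comap_finite`), and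
`N` the normal subgroup of `F` with `N` and `F ⧸ N` nilpotent. The natural map `F → Fb`
(`MonoidHom.subgroupComap`) is surjective; let `Nb` be the image of `N` (normal, nilpotent as an
image of `N`: `Group.nilpotent_of_surjective`), and `Fb ⧸ Nb` is an image of `F ⧸ N`, so nilpotent
too. -/
theorem Met.quot (h : Met G) (O : Subgroup G) [O.Normal] (hO : (O : Set G).Finite) :
    Met (G ⧸ O) := by
  intro Fb hFb
  obtain ⟨N, hN, h1, h2⟩ := h (Fb.comap (QuotientGroup.mk' O)) (comap_finite O hO Fb hFb)
  exact QMet_image ((QuotientGroup.mk' O).subgroupComap Fb)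
    ((QuotientGroup.mk' O).subgroupComap_surjective_of_surjective Fb
      (QuotientGroup.mk'_surjective O)) N hN h1 h2

end Pool.Agent.Lib.MP_032401_al_M
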