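import Pool.Agent.Lib.MP_032401_al_M.KPart
import Pool.Agent.Lib.MP_032401_al_M.Parts

/-!
# MP_032401_al (project BFM): Theorem SS, conjugating elements of least order
-/

set_option autoImplicit false

namespace Pool.Agent.Lib.MP_032401_al_M

open Subgroup

variable {G : Type*} [Group G]

/-- Suppose `w0 ∈ W` satisfies `w0 T w0⁻¹ ⊆ R`, where `R` is a `k`-subgroup normalising the
`k'`-subgroup `W` (with `NilL W`). Then `w` can be chosen such that `k` acts on `j` for each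
prime `j` dividing the order of `w`.

Proof. Choose `w ∈ W` with `w T w⁻¹ ⊆ R` and `orderOf w` minimal (`orderOf w > 0` as `W` is
finite). Let `j` be a prime dividing `orderOf w`. `j ≠ k`: otherwise a power of `w` has order `k`
(`w ^ (orderOf w / k)`), against `hcop`. Suppose `¬ Act G k j`. By `exists_split`
`w = w ^ a * w ^ b` with `w ^ a` a `j`-element and `j ∤ orderOf (w ^ b)`. `w ^ a ∈ KP j W`, a
finite `j`-subgroup normalised by the `k`-elements of `R`, so `w ^ a` commutes with all elements of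
`R`. Powers of `w` commute, so `w = w ^ a * w ^ b`, and for `t ∈ T`
`w ^ b t w ^ (-b) = (w ^ a)⁻¹ (w t w⁻¹) w ^ a = w t w⁻¹ ∈ R`. So `w ^ b ∈ W` also has the property,
and `orderOf (w ^ b)` divides `orderOf w` and is not divisible by `j`, so it is smaller:
contradiction. -/
theorem exists_min_conj {k : ℕ} (hk : k.Prime) {W R : Subgroup G} (hW : (W : Set G).Finite)
    (hnil : NilL W) (hcop : ∀ w ∈ W, PElt k w → w = 1) (hR : PSub k R)
    (hRW : R ≤ normalizer (W : Set G)) (T : Set G) {w0 : G} (hw0 : w0 ∈ W)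
    (h0 : ∀ t ∈ T, w0 * t * w0⁻¹ ∈ R) :
    ∃ w ∈ W, (∀ t ∈ T, w * t * w⁻¹ ∈ R) ∧
      ∀ j : ℕ, j.Prime → j ∣ orderOf w → j ≠ k ∧ Act G k j := by
  classical
  have hfin : {w : G | w ∈ W ∧ ∀ t ∈ T, w * t * w⁻¹ ∈ R}.Finite :=
    hW.subset fun w hw => hw.1
  obtain ⟨w, ⟨hwW, hwT⟩, hmin⟩ := Set.exists_min_image _ (fun w : G => orderOf w) hfin
    ⟨w0, hw0, h0⟩
  have hwfin : IsOfFinOrder w := by
    have hf : Finite W := hW.to_subtype
    have h1 : IsOfFinOrder (⟨w, hwW⟩ : W) := isOfFinOrder_of_finite _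
    exact Submonoid.isOfFinOrder_coe.mpr h1
  refine ⟨w, hwW, hwT, fun j hj hjw => ?_⟩
  have hpos : 0 < orderOf w := hwfin.orderOf_pos
  have hjk : j ≠ k := by
    rintro rfl
    obtain ⟨n, hn⟩ := hjw
    have h1 : (w ^ n) ^ j = 1 := by
      rw [← pow_mul, mul_comm, ← hn, pow_orderOf_eq_one]
    have h2 : w ^ n = 1 := hcop _ (W.pow_mem hwW n) (PElt.of_pow_eq_one h1)
    have h3 : orderOf w ∣ n := orderOf_dvd_of_pow_eq_one h2
    have hn0 : 0 < n := by
      rcases Nat.eq_zero_or_pos n with h | h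
      · rw [h, mul_zero] at hn; omega
      · exact h
    have h4 := Nat.le_of_dvd hn0 h3
    have h5 := hj.two_le
    nlinarith
  refine ⟨hjk, ?_⟩
  by_contra hAct
  obtain ⟨a, b, hab, ha, hb⟩ := exists_split hwfin hj
  have haK : w ^ a ∈ KP j W := (mem_KP hj hnil).mpr ⟨W.pow_mem hwW a, ha⟩
  have hcomm : ∀ r ∈ R, r * w ^ a = w ^ a * r := by
    intro r hr
    by_contra hne
    exact hAct ⟨KP j W, r, KP_psub hj hnil hW, hR.2 r hr, KP_normalizer j W (hRW hr),
      w ^ a, haK, hne⟩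
  have hbT : ∀ t ∈ T, w ^ b * t * (w ^ b)⁻¹ ∈ R := by
    intro t ht
    have h1 := hwT t ht
    have h2 := hcomm _ h1
    have h3 : w * t * w⁻¹ = w ^ a * (w ^ b * t * (w ^ b)⁻¹) * (w ^ a)⁻¹ := by
      conv_lhs => rw [hab]
      group
    have h4 : w ^ b * t * (w ^ b)⁻¹ = (w ^ a)⁻¹ * (w * t * w⁻¹) * w ^ a := by
      rw [h3]; group
    rw [h4, mul_assoc, h2, ← mul_assoc, inv_mul_cancel, one_mul]
    exact h1
  have h1 := hmin (w ^ b) ⟨W.pow_mem hwW b, hbT⟩
  have h2 : orderOf (w ^ b) ∣ orderOf w := orderOf_pow_dvd b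
  have h3 := Nat.le_of_dvd hpos h2
  have h4 : orderOf (w ^ b) = orderOf w := le_antisymm h3 h1
  rw [h4] at hb
  exact hb hjw

end Pool.Agent.Lib.MP_032401_al_M
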