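import Pool.Agent.Lib.MP_032401_al_M.Knw
import Pool.Agent.Lib.MP_032401_al_M.LemY
import Pool.Agent.Lib.MP_032401_al_M.SSw

/-!
# MP_032401_al (project BFM): Theorem SS, case B
-/

set_option autoImplicit false

namespace Pool.Agent.Lib.MP_032401_al_M

open Subgroup

variable {G : Type*} [Group G]

/-- If `x` centralises `⟨B, a, b⟩` modulo `B`, one can move `b` into a Sylow subgroup containing
`B` and `a` by an element commuting with `x` and with all of `CC k x`.

Proof. `K = closure (B ∪ {a, b})`. (1) For all `t ∈ K`, `x t x⁻¹ t⁻¹ ∈ B`: true for the generators,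
and the property passes to products and inverses because `K` normalises `B` and `x` normalises `B`
(`Subgroup.closure_induction`). So `x` normalises each subgroup `R` with `B ≤ R ≤ K`
(`mem_normalizer_of_finite`).
(2) `K` is generated by `k`-elements, so `exists_hallC` gives `W` with `HallC k K W`. `x`
normalises `K`, and `W` consists of the elements of `K` with an order prime to `k` (`HallC.max`,
`HallC.cop`: an element of `W` of order divisible by `k` has a power of order `k`), so `x`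
normalises `W`. For `w ∈ W`: `x w x⁻¹ w⁻¹ ∈ B ∩ W = 1` (`HallC.cop`), so `x * w = w * x`.
(3) Let `R0 = closure (B ∪ {a})`, a finite `k`-subgroup (`PSub.closure_insert`), and `R ≥ R0` a
Sylow `k`-subgroup of `K` (`exists_syl`); `x` normalises `R` by (1). `T0 = closure (B ∪ {b})` is a
finite `k`-subgroup of `K`, so there is `d ∈ K` with `d T0 d⁻¹ ⊆ R` (`IsSyl.conj_mem`). Write
`d⁻¹ = w1 * r` with `w1 ∈ W`, `r ∈ R` (`HallC.fac`), so `d = r⁻¹ * w1⁻¹` and
`w1⁻¹ T0 w1 ⊆ r R r⁻¹ = R`. Put `w0 = w1⁻¹`.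
(4) `exists_min_conj` with `T = B ∪ {b}` gives `w ∈ W` with `w T w⁻¹ ⊆ R` and `j ≠ k`,
`Act G k j`, hence `¬ Act G j k`, for all primes `j ∣ orderOf w`.
(5) Let `v ∈ CC k x`. Then `w * v = v * w` by `mem_of_parts` for the centraliser of `v`
(`Subgroup.centralizer {v}`): if `w ^ s` is a `j`-element then either `w ^ s = 1`, or
`j ∣ orderOf (w ^ s) ∣ orderOf w`, and `lemY` applies to `n = w ^ s`, which commutes with `x`. -/
theorem ss_caseB (hG : Cls G) {l k : ℕ} (hl : l.Prime) (hk : k.Prime) (hlk : l ≠ k)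
    (hβ : ∀ j : ℕ, j.Prime → j ≠ k → Act G k j → ¬ Act G j k) {x : G} (hx : x ^ l = 1)
    {B : Subgroup G} (hB : PSub k B) {a b : G} (ha : PElt k a)
    (haB : a ∈ normalizer (B : Set G)) (hb : PElt k b) (hbB : b ∈ normalizer (B : Set G))
    (hfin : ((Subgroup.closure ((B : Set G) ∪ {a, b}) : Subgroup G) : Set G).Finite)
    (hxB : x ∈ normalizer (B : Set G)) (hxa : x * a * x⁻¹ * a⁻¹ ∈ B)
    (hxb : x * b * x⁻¹ * b⁻¹ ∈ B) :
    ∃ (R : Subgroup G) (w : G), PSub k R ∧ B ≤ R ∧ a ∈ R ∧ x ∈ normalizer (R : Set G) ∧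
      w * x = x * w ∧ (∀ t ∈ B, w * t * w⁻¹ ∈ R) ∧ w * b * w⁻¹ ∈ R ∧
      ∀ v ∈ CC k x, w * v = v * w := by
  set K : Subgroup G := Subgroup.closure ((B : Set G) ∪ {a, b}) with hK
  have hBK : B ≤ K := fun t ht => subset_closure (Or.inl ht)
  have haK : a ∈ K := subset_closure (Or.inr (Or.inl rfl))
  have hbK : b ∈ K := subset_closure (Or.inr (Or.inr rfl))
  have hKB : K ≤ normalizer (B : Set G) := by
    rw [hK, closure_le]
    rintro t (ht | ht | ht)
    · exact le_normalizer ht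
    · rw [ht]
      exact haB
    · rw [Set.mem_singleton_iff] at ht
      rw [ht]
      exact hbB
  have hnB : ∀ {g t : G}, g ∈ normalizer (B : Set G) → t ∈ B → g * t * g⁻¹ ∈ B := by
    intro g t hg ht
    exact (mem_normalizer_iff.1 hg t).1 ht
  -- (1)
  have h1 : ∀ t ∈ K, x * t * x⁻¹ * t⁻¹ ∈ B := by
    intro t ht
    have key : t ∈ K ∧ x * t * x⁻¹ * t⁻¹ ∈ B := by
      refine closure_induction (p := fun t _ => t ∈ K ∧ x * t * x⁻¹ * t⁻¹ ∈ B) ?_ ?_ ?_ ?_ ht
      · rintro s (hs | hs | hs)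
        · exact ⟨hBK hs, B.mul_mem (hnB hxB hs) (B.inv_mem hs)⟩
        · rw [hs]
          exact ⟨haK, hxa⟩
        · rw [Set.mem_singleton_iff] at hs
          rw [hs]
          exact ⟨hbK, hxb⟩
      · refine ⟨K.one_mem, ?_⟩
        simp
      · rintro s t _ _ ⟨hs, hs'⟩ ⟨ht, ht'⟩
        refine ⟨K.mul_mem hs ht, ?_⟩
        have e : x * (s * t) * x⁻¹ * (s * t)⁻¹ =
            (x * s * x⁻¹ * s⁻¹) * (s * (x * t * x⁻¹ * t⁻¹) * s⁻¹) := by group
        rw [e]
        exact B.mul_mem hs' (hnB (hKB hs) ht')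
      · rintro s _ ⟨hs, hs'⟩
        refine ⟨K.inv_mem hs, ?_⟩
        have e : x * s⁻¹ * x⁻¹ * s⁻¹⁻¹ = s⁻¹ * (x * s * x⁻¹ * s⁻¹)⁻¹ * s⁻¹⁻¹ := by group
        rw [e]
        exact hnB (hKB (K.inv_mem hs)) (B.inv_mem hs')
    exact key.2
  have h1' : ∀ R : Subgroup G, B ≤ R → R ≤ K → x ∈ normalizer (R : Set G) := by
    intro R hBR hRK
    refine mem_normalizer_of_finite (hfin.subset hRK) fun t ht => ?_
    have e : x * t * x⁻¹ = (x * t * x⁻¹ * t⁻¹) * t := by group
    rw [e]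
    exact R.mul_mem (hBR (h1 t (hRK ht))) ht
  have hxK : x ∈ normalizer (K : Set G) := h1' K hBK le_rfl
  -- (2)
  obtain ⟨W, hW⟩ := exists_hallC (S := (B : Set G) ∪ {a, b}) hG.met hk hfin (by
    rintro s (hs | hs | hs)
    · exact hB.2 s hs
    · rw [hs]
      exact ha
    · rw [Set.mem_singleton_iff] at hs
      rw [hs]
      exact hb) hK.symm
  have hWfin : (W : Set G).Finite := hfin.subset hW.le
  have hkW : ∀ w ∈ W, ¬ k ∣ orderOf w := by
    intro w hw hdvd
    have hpos : 0 < orderOf w := (hG.per w).orderOf_pos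
    have h2 : orderOf (w ^ (orderOf w / k)) = k := by
      rw [orderOf_pow_of_dvd (Nat.div_pos (Nat.le_of_dvd hpos hdvd) hk.pos).ne'
        (Nat.div_dvd_of_dvd hdvd), Nat.div_div_self hdvd hpos.ne']
    have h3 : w ^ (orderOf w / k) = 1 := by
      refine hW.cop _ (W.pow_mem hw _) (PElt.of_pow_eq_one ?_)
      have h4 := pow_orderOf_eq_one (w ^ (orderOf w / k))
      rw [h2] at h4
      exact h4
    rw [h3, orderOf_one] at h2
    exact hk.one_lt.ne h2
  have hxw : ∀ w ∈ W, x * w = w * x := by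
    intro w hw
    have h2 : x * w * x⁻¹ ∈ W := by
      refine hW.max _ ((mem_normalizer_iff.1 hxK w).1 (hW.le hw)) (orderOf w) (hkW w hw) ?_
      rw [conj_pow, pow_orderOf_eq_one]
      group
    have h3 : x * w * x⁻¹ * w⁻¹ = 1 :=
      hW.cop _ (W.mul_mem h2 (W.inv_mem hw)) (hB.2 _ (h1 w (hW.le hw)))
    rw [mul_inv_eq_one] at h3
    rw [mul_inv_eq_iff_eq_mul] at h3
    exact h3
  -- (3)
  have hR0 := hB.closure_insert hk ha haB
  have hR0K : Subgroup.closure ((B : Set G) ∪ {a}) ≤ K := by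
    rw [closure_le]
    rintro t (ht | ht)
    · exact hBK ht
    · rw [Set.mem_singleton_iff] at ht
      rw [ht]
      exact haK
  obtain ⟨R, hR0R, hR⟩ := exists_syl hfin hR0 hR0K
  have hT0 := hB.closure_insert hk hb hbB
  have hT0K : Subgroup.closure ((B : Set G) ∪ {b}) ≤ K := by
    rw [closure_le]
    rintro t (ht | ht)
    · exact hBK ht
    · rw [Set.mem_singleton_iff] at ht
      rw [ht]
      exact hbK
  obtain ⟨d, hdK, hd⟩ := hR.conj_mem hk hfin hT0 hT0K
  obtain ⟨w1, hw1, r, hr, hdr⟩ := hW.fac R hR d⁻¹ (K.inv_mem hdK)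
  have hd' : d = r⁻¹ * w1⁻¹ := by
    rw [← inv_inv d, hdr, mul_inv_rev]
  have hBR : B ≤ R := fun t ht => hR0R (subset_closure (Or.inl ht))
  have haR : a ∈ R := hR0R (subset_closure (Or.inr rfl))
  -- (4)
  obtain ⟨w, hw, hwT, hwj⟩ := exists_min_conj (W := W) (R := R) hk hWfin hW.nil hW.cop hR.2.1
    (hR.1.trans hW.norm) ((B : Set G) ∪ {b}) (W.inv_mem hw1) (by
      intro t ht
      have h2 := hd t (subset_closure ht)
      rw [hd'] at h2
      have h3 : w1⁻¹ * t * w1⁻¹⁻¹ = r * (r⁻¹ * w1⁻¹ * t * (r⁻¹ * w1⁻¹)⁻¹) * r⁻¹ := by group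
      rw [h3]
      exact R.mul_mem (R.mul_mem hr h2) (R.inv_mem hr))
  refine ⟨R, w, hR.2.1, hBR, haR, h1' R hBR hR.1, (hxw w hw).symm,
    fun t ht => hwT t (Or.inl ht), hwT b (Or.inr rfl), fun v hv => ?_⟩
  -- (5)
  have h2 : w ∈ Subgroup.centralizer ({v} : Set G) := by
    refine mem_of_parts (hG.per w) _ fun j hj s hs => ?_
    rw [mem_centralizer_iff]
    rintro v' hv'
    rw [Set.mem_singleton_iff] at hv'
    rw [hv']
    by_cases h3 : w ^ s = 1
    · rw [h3, mul_one, one_mul]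
    · obtain ⟨m, hm⟩ := hs
      have h4 : orderOf (w ^ s) ∣ j ^ m := orderOf_dvd_of_pow_eq_one hm
      have h5 : j ∣ orderOf (w ^ s) := by
        obtain ⟨i, -, hi⟩ := (Nat.dvd_prime_pow hj).1 h4
        rw [hi]
        rcases Nat.eq_zero_or_pos i with h6 | h6
        · rw [h6, pow_zero, orderOf_eq_one_iff] at hi
          exact absurd hi h3
        · exact dvd_pow_self j h6.ne'
      have h6 : j ∣ orderOf w := h5.trans (orderOf_pow_dvd s)
      obtain ⟨h7, h8⟩ := hwj j hj h6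
      exact lemY hG.bf hG.met hl hk hj hlk (hβ j hj h7 h8) (PElt.of_pow_eq_one hx) hv ⟨m, hm⟩
        (hxw _ (W.pow_mem hw s))
  have h3 := mem_centralizer_iff.1 h2 v (Set.mem_singleton v)
  exact h3.symm

end Pool.Agent.Lib.MP_032401_al_M
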