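import Pool.Agent.Lib.MP_032401_al_M.SSa
import Pool.Agent.Lib.MP_032401_al_M.SSb
import Pool.Agent.Lib.MP_032401_al_M.SSm
import Pool.Agent.Lib.MP_032401_al_M.EvS
import Pool.Agent.Lib.MP_032401_al_M.Cj

/-!
# MP_032401_al (project BFM): Theorem SS
-/

set_option autoImplicit false

namespace Pool.Agent.Lib.MP_032401_al_M

open Subgroup

variable {G : Type*} [Group G]

theorem SS_conj_mem {B K : Subgroup G} (hBK : B ≤ K) {x a : G} (haK : a ∈ K)
    (h : ∃ c : ℕ, x * a * x⁻¹ * (a ^ c)⁻¹ ∈ B) : x * a * x⁻¹ ∈ K := by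
  obtain ⟨c, hc⟩ := h
  have h1 : x * a * x⁻¹ = (x * a * x⁻¹ * (a ^ c)⁻¹) * a ^ c := by group
  rw [h1]
  exact K.mul_mem (hBK hc) (K.pow_mem haK c)

/-- **Theorem SS.** -/
theorem ss (hG : Cls G) {l k : ℕ} (hl : l.Prime) (hk : k.Prime) (hlk : l ≠ k) (hd : l ∣ k - 1)
    (hβ : ∀ j : ℕ, j.Prime → j ≠ k → Act G k j → ¬ Act G j k) {x : G} (hx : x ^ l = 1) :
    PSub k (Subgroup.closure (CC k x)) := by
  classical
  let F : Set (Subgroup G) := {P | PSub k P ∧ x ∈ normalizer (P : Set G)}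
  let M : Set (Subgroup G) := {P | P ∈ F ∧ ∀ Q ∈ F, P ≤ Q → Q = P}
  have hacc := hG.acc k hk
  have hmax : ∀ P0 ∈ F, ∃ P ∈ M, P0 ≤ P := by
    intro P0 h0
    obtain ⟨P, hP, hle, hm⟩ := hacc.exists_maximal F (fun P hP => hP.1) h0
    exact ⟨P, ⟨hP, hm⟩, hle⟩
  have hkey : ∀ P ∈ M, ∀ Q ∈ M, ∀ v ∈ CC k x, v ∈ P ↔ v ∈ Q := by
    by_contra hcon
    push Not at hcon
    obtain ⟨P, hP, Q, hQ, v, hv, hvPQ⟩ := hcon
    obtain ⟨P1, hP1, P2, hP2, hb, hmx⟩ := exists_bad hacc M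
      (fun P Q => ¬ ∀ v ∈ CC k x, v ∈ P ↔ v ∈ Q) (fun P Q => P ⊓ Q)
      (fun P hP Q _ => hP.1.1.mono inf_le_left) hP hQ (by
        intro h
        have h1 := h v hv
        tauto)
    set B : Subgroup G := P1 ⊓ P2 with hBdef
    have hne12 : P1 ≠ P2 := by
      rintro rfl
      exact hb fun _ _ => Iff.rfl
    have hBP1 : B ≤ P1 := inf_le_left
    have hBP2 : B ≤ P2 := inf_le_right
    have hB1 : B ≠ P1 := by
      intro h
      have h1 : P1 ≤ P2 := inf_eq_left.1 h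
      exact hne12 (hP1.2 P2 hP2.1 h1).symm
    have hB2 : B ≠ P2 := by
      intro h
      have h1 : P2 ≤ P1 := inf_eq_right.1 h
      exact hne12 (hP2.2 P1 hP1.1 h1)
    have hBk : PSub k B := hP1.1.1.mono hBP1
    have hxB : x ∈ normalizer (B : Set G) := by
      rw [mem_normalizer_iff]
      intro t
      have h1 := (mem_normalizer_iff.1 hP1.1.2) t
      have h2 := (mem_normalizer_iff.1 hP2.1.2) t
      exact ⟨fun ht => ⟨h1.1 ht.1, h2.1 ht.2⟩, fun ht => ⟨h1.2 ht.1, h2.2 ht.2⟩⟩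
    obtain ⟨a1, ha1P, ha1B, ha1n, ha1k, hxa1⟩ :=
      ev_section hk hd hP1.1.1 hBP1 hB1 hx hxB hP1.1.2
    obtain ⟨a2, ha2P, ha2B, ha2n, ha2k, hxa2⟩ :=
      ev_section hk hd hP2.1.1 hBP2 hB2 hx hxB hP2.1.2
    have hKf : ((Subgroup.closure ((B : Set G) ∪ {a1, a2}) : Subgroup G) : Set G).Finite :=
      hG.bf B hBk.1 a1 a2 ha1n ha2n ⟨k, hk, ha1B, ha1k⟩ ⟨k, hk, ha2B, ha2k⟩
    set K : Subgroup G := Subgroup.closure ((B : Set G) ∪ {a1, a2}) with hKdef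
    have hBK : B ≤ K := fun t ht => subset_closure (Or.inl ht)
    have ha1K : a1 ∈ K := subset_closure (Or.inr (Or.inl rfl))
    have ha2K : a2 ∈ K := subset_closure (Or.inr (Or.inr rfl))
    have hcmp1 : ∀ P ∈ M, B ≤ P → a1 ∈ P → ∀ v ∈ CC k x, v ∈ P1 ↔ v ∈ P := by
      intro P hP hBP haP
      by_contra hcon
      have h1 : P1 ⊓ P = B := hmx P1 hP1 P hP (le_inf hBP1 hBP) hcon
      apply ha1B
      rw [← h1]
      exact ⟨ha1P, haP⟩
    have hcmp2 : ∀ P ∈ M, B ≤ P → a2 ∈ P → ∀ v ∈ CC k x, v ∈ P2 ↔ v ∈ P := by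
      intro P hP hBP haP
      by_contra hcon
      have h1 : P2 ⊓ P = B := hmx P2 hP2 P hP (le_inf hBP2 hBP) hcon
      apply ha2B
      rw [← h1]
      exact ⟨ha2P, haP⟩
    have hcaseA : PSub k K → False := by
      intro hKk
      have hxK : x ∈ normalizer (K : Set G) := by
        refine mem_normalizer_closure hKf ?_
        rintro s (hs | hs | hs)
        · exact hBK ((mem_normalizer_iff.1 hxB s).1 hs)
        · rw [hs]
          exact SS_conj_mem hBK ha1K hxa1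
        · rw [Set.mem_singleton_iff] at hs
          rw [hs]
          exact SS_conj_mem hBK ha2K hxa2
      obtain ⟨P3, hP3, hKP3⟩ := hmax K ⟨hKk, hxK⟩
      apply hb
      intro v hv
      rw [hcmp1 P3 hP3 (hBK.trans hKP3) (hKP3 ha1K) v hv,
        hcmp2 P3 hP3 (hBK.trans hKP3) (hKP3 ha2K) v hv]
    by_cases h1 : x * a1 * x⁻¹ * a1⁻¹ ∈ B
    · by_cases h2 : x * a2 * x⁻¹ * a2⁻¹ ∈ B
      · obtain ⟨R, w, hRk, hBR, haR, hxR, hwx, hwB, hwb, hwC⟩ := ss_caseB hG hl hk hlk hβ hx hBk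
          (hP1.1.1.2 a1 ha1P) ha1n (hP2.1.1.2 a2 ha2P) ha2n hKf hxB h1 h2
        obtain ⟨P, hP, hRP⟩ := hmax R ⟨hRk, hxR⟩
        have hwx' : ∀ t : G, w * (x * t * x⁻¹) * w⁻¹ = x * (w * t * w⁻¹) * x⁻¹ := by
          intro t
          have h3 : x⁻¹ * w⁻¹ = w⁻¹ * x⁻¹ := by
            rw [← mul_inv_rev, ← mul_inv_rev, hwx]
          calc w * (x * t * x⁻¹) * w⁻¹ = (w * x) * t * (x⁻¹ * w⁻¹) := by group
            _ = (x * w) * t * (w⁻¹ * x⁻¹) := by rw [hwx, h3]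
            _ = x * (w * t * w⁻¹) * x⁻¹ := by group
        have hwxi' : ∀ t : G, w⁻¹ * (x * t * x⁻¹) * w⁻¹⁻¹ = x * (w⁻¹ * t * w⁻¹⁻¹) * x⁻¹ := by
          intro t
          have h4 := hwx' (w⁻¹ * t * w)
          have h5 : w * (w⁻¹ * t * w) * w⁻¹ = t := by group
          rw [h5] at h4
          rw [← h4]
          group
        have hcjF : ∀ Q ∈ F, cj w Q ∈ F := by
          intro Q hQ
          refine ⟨hQ.1.cj w, ?_⟩
          rw [mem_normalizer_iff]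
          intro t
          rw [mem_cj, mem_cj, hwx' t]
          exact (mem_normalizer_iff.1 hQ.2) _
        have hcjF' : ∀ Q ∈ F, cj w⁻¹ Q ∈ F := by
          intro Q hQ
          refine ⟨hQ.1.cj w⁻¹, ?_⟩
          rw [mem_normalizer_iff]
          intro t
          rw [mem_cj, mem_cj, hwxi' t]
          exact (mem_normalizer_iff.1 hQ.2) _
        have hP' : cj w P ∈ M := by
          refine ⟨hcjF P hP.1, fun Q hQ hle => ?_⟩
          have h3 : cj w⁻¹ Q = P := by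
            refine hP.2 _ (hcjF' Q hQ) ?_
            have h4 := cj_mono w⁻¹ hle
            rwa [cj_inv_cj] at h4
          rw [← h3, cj_cj_inv]
        apply hb
        intro v hv
        have hBP' : B ≤ cj w P := fun t ht => mem_cj.2 (hRP (hwB t ht))
        have h3 := hcmp1 P hP (hBR.trans hRP) (hRP haR) v hv
        have h4 := hcmp2 (cj w P) hP' hBP' (mem_cj.2 (hRP hwb)) v hv
        rw [h3, h4, mem_cj, hwC v hv, mul_inv_cancel_right]
      · refine hcaseA ?_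
        have h3 : PSub k (Subgroup.closure ((B : Set G) ∪ {a2, a1})) := by
          refine ss_caseA hG.met hl hk hlk hx hP2.1.1 hBP2 ha2P ha2n ha2k
            (hP1.1.1.2 a1 ha1P) ha1n ?_ hxB hxa2 hxa1 h2
          rw [Set.pair_comm]
          exact hKf
        rw [Set.pair_comm] at h3
        exact h3
    · exact hcaseA (ss_caseA hG.met hl hk hlk hx hP1.1.1 hBP1 ha1P ha1n ha1k
        (hP2.1.1.2 a2 ha2P) ha2n hKf hxB hxa1 hxa2 h1)
  obtain ⟨P0, hP0, -⟩ := hmax ⊥ ⟨PSub.bot k, by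
    rw [Subgroup.normalizer_eq_top]
    exact Subgroup.mem_top x⟩
  refine hP0.1.1.mono ?_
  rw [closure_le]
  intro v hv
  obtain ⟨hvk, ⟨c, hc⟩, hne⟩ := hv
  have hvz : x ∈ normalizer ((Subgroup.zpowers v : Subgroup G) : Set G) := by
    refine mem_normalizer_of_finite (PSub.zpowers hk (PElt.of_pow_eq_one hvk)).1 ?_
    rintro _ ⟨n, rfl⟩
    refine ⟨(c : ℤ) * n, ?_⟩
    show v ^ ((c : ℤ) * n) = x * v ^ n * x⁻¹
    rw [← conj_zpow, hc, zpow_mul, zpow_natCast]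
  obtain ⟨P, hP, hvP⟩ := hmax (Subgroup.zpowers v) ⟨PSub.zpowers hk (PElt.of_pow_eq_one hvk), hvz⟩
  exact (hkey P hP P0 hP0 v ⟨hvk, ⟨c, hc⟩, hne⟩).1 (hvP (mem_zpowers v))

end Pool.Agent.Lib.MP_032401_al_M
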