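import Pool.Agent.Lib.MP_032401_al_M.MetN
import Pool.Agent.Lib.MP_032401_al_M.KPart

/-!
# MP_032401_al (project BFM): Theorem SS, case A
-/

set_option autoImplicit false

namespace Pool.Agent.Lib.MP_032401_al_M

open Subgroup

variable {G : Type*} [Group G]

private theorem SSa_bezout {k : ℕ} (hk : k.Prime) {a : G} {c : ℕ} {B M : Subgroup G}
    (hBM : B ≤ M) (hak : a ^ k ∈ B) (hc : a ^ c * a⁻¹ ∈ M) (hn : a ^ c * a⁻¹ ∉ B) : a ∈ M := by
  have h1 : a ^ c * a⁻¹ = a ^ ((c : ℤ) - 1) := by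
    rw [zpow_sub, zpow_natCast, zpow_one]
  have h2 : ¬ (k : ℤ) ∣ (c : ℤ) - 1 := by
    rintro ⟨t, ht⟩
    apply hn
    rw [h1, ht, zpow_mul, zpow_natCast]
    exact B.zpow_mem hak t
  have h3 : IsCoprime (k : ℤ) ((c : ℤ) - 1) :=
    (Prime.coprime_iff_not_dvd (Nat.prime_iff_prime_int.1 hk)).2 h2
  obtain ⟨u, v, huv⟩ := h3
  have h4 : a = (a ^ k) ^ u * (a ^ c * a⁻¹) ^ v := by
    rw [h1, ← zpow_natCast a k, ← zpow_mul, ← zpow_mul, ← zpow_add]
    conv_lhs => rw [← zpow_one a, ← huv]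
    congr 1
    ring
  rw [h4]
  exact M.mul_mem (M.zpow_mem (hBM hak) u) (M.zpow_mem hc v)

/-- If `x` moves `a` modulo `B`, then `⟨B, a, b⟩` is a `k`-group.

Proof. Write `K = closure (B ∪ {a, b})` (finite), normalised by `x` (`mem_normalizer_closure`:
`x a x⁻¹ ∈ a ^ c * B`-type relations, i.e. `x a x⁻¹ = β * a ^ c` with `β ∈ B`, and
`x B x⁻¹ ⊆ B`). `X = K ⊔ zpowers x` is finite (`x ^ l = 1`); take `N` with `MetN X N` and
`O = KP k N`, a finite `k`-subgroup normalised by `X` (`KP_psub`, `KP_normalizer`). `a ∈ P` is a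
`k`-element and `x` an `l`-element, so `x a x⁻¹ a⁻¹ ∈ N`. Here `x a x⁻¹ a⁻¹ = β * a ^ (c - 1)`
(integer exponent) lies in `P` (a `k`-group containing `B` and `a`), so it is in `O`. Hence
`a ^ (c - 1) ∈ B ⊔ O`. If `k ∣ c - 1` then `a ^ (c - 1) ∈ B`, so `x a x⁻¹ a⁻¹ ∈ B`, which is
excluded; so `c - 1` and `k` are coprime, and with `a ^ k ∈ B` we get `a ∈ B ⊔ O` (Bezout).
`B ⊔ O` is a finite `k`-group (`PSub.sup`, `B ≤ X ≤ normalizer O`), normalised by `b` (`b`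
normalises `B` and `O`), so `zpowers b ⊔ (B ⊔ O)` is a finite `k`-group (`PSub.insert`), and it
contains `K`. -/
theorem ss_caseA (hmet : Met G) {l k : ℕ} (hl : l.Prime) (hk : k.Prime) (hlk : l ≠ k) {x : G}
    (hx : x ^ l = 1) {B P : Subgroup G} (hP : PSub k P) (hBP : B ≤ P) {a b : G} (ha : a ∈ P)
    (haB : a ∈ normalizer (B : Set G)) (hak : a ^ k ∈ B) (hb : PElt k b)
    (hbB : b ∈ normalizer (B : Set G))
    (hfin : ((Subgroup.closure ((B : Set G) ∪ {a, b}) : Subgroup G) : Set G).Finite)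
    (hxB : x ∈ normalizer (B : Set G)) (hxa : ∃ c : ℕ, x * a * x⁻¹ * (a ^ c)⁻¹ ∈ B)
    (hxb : ∃ c : ℕ, x * b * x⁻¹ * (b ^ c)⁻¹ ∈ B) (hmov : x * a * x⁻¹ * a⁻¹ ∉ B) :
    PSub k (Subgroup.closure ((B : Set G) ∪ {a, b})) := by
  set K := Subgroup.closure ((B : Set G) ∪ {a, b}) with hKdef
  have hBK : B ≤ K := fun s hs => subset_closure (Or.inl hs)
  have haK : a ∈ K := subset_closure (Or.inr (by simp))
  have hbK : b ∈ K := subset_closure (Or.inr (by simp))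
  have hxB' : ∀ s ∈ B, x * s * x⁻¹ ∈ B := fun s hs => (mem_normalizer_iff.1 hxB s).1 hs
  have hxK : x ∈ normalizer (K : Set G) := by
    rw [hKdef]
    refine mem_normalizer_closure hfin ?_
    rintro s (hs | hs)
    · exact hBK (hxB' s hs)
    · rcases hs with hs | hs
      · subst hs
        obtain ⟨c, hc⟩ := hxa
        have h1 : x * s * x⁻¹ = (x * s * x⁻¹ * (s ^ c)⁻¹) * s ^ c := by group
        rw [h1]
        exact K.mul_mem (hBK hc) (K.pow_mem haK c)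
      · rw [Set.mem_singleton_iff] at hs
        subst hs
        obtain ⟨c, hc⟩ := hxb
        have h1 : x * s * x⁻¹ = (x * s * x⁻¹ * (s ^ c)⁻¹) * s ^ c := by group
        rw [h1]
        exact K.mul_mem (hBK hc) (K.pow_mem hbK c)
  have hxl : PElt l x := PElt.of_pow_eq_one hx
  have hXfin : ((K ⊔ zpowers x : Subgroup G) : Set G).Finite := by
    refine sup_finite hfin (PSub.zpowers hl hxl).1 ?_
    rw [Subgroup.zpowers_le]
    exact hxK
  obtain ⟨N, hN⟩ := exists_metN hmet hXfin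
  have hKX : K ≤ K ⊔ zpowers x := le_sup_left
  have hxX : x ∈ K ⊔ zpowers x := (le_sup_right : zpowers x ≤ K ⊔ zpowers x) (mem_zpowers x)
  have hNfin : (N : Set G).Finite := hXfin.subset hN.le
  have hO : PSub k (KP k N) := KP_psub hk hN.nil hNfin
  have hXO : K ⊔ zpowers x ≤ normalizer ((KP k N : Subgroup G) : Set G) :=
    hN.norm.trans (KP_normalizer k N)
  have hcomm : x * a * x⁻¹ * a⁻¹ ∈ N :=
    hN.comm l k hl hk hlk x hxX a (hKX haK) hxl (hP.2 a ha)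
  obtain ⟨c, hc⟩ := hxa
  have h2 : x * a * x⁻¹ * a⁻¹ = (x * a * x⁻¹ * (a ^ c)⁻¹) * (a ^ c * a⁻¹) := by group
  have h3 : x * a * x⁻¹ * a⁻¹ ∈ P := by
    rw [h2]
    exact P.mul_mem (hBP hc) (P.mul_mem (P.pow_mem ha c) (P.inv_mem ha))
  have h4 : x * a * x⁻¹ * a⁻¹ ∈ KP k N := (mem_KP hk hN.nil).2 ⟨hcomm, hP.2 _ h3⟩
  have hBM : B ≤ B ⊔ KP k N := le_sup_left
  have hOM : KP k N ≤ B ⊔ KP k N := le_sup_right
  have h5 : a ^ c * a⁻¹ ∈ B ⊔ KP k N := by
    have h6 : a ^ c * a⁻¹ = (x * a * x⁻¹ * (a ^ c)⁻¹)⁻¹ * (x * a * x⁻¹ * a⁻¹) := by group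
    rw [h6]
    exact (B ⊔ KP k N).mul_mem ((B ⊔ KP k N).inv_mem (hBM hc)) (hOM h4)
  have h7 : a ^ c * a⁻¹ ∉ B := by
    intro h8
    apply hmov
    rw [h2]
    exact B.mul_mem hc h8
  have haM : a ∈ B ⊔ KP k N := SSa_bezout hk hBM hak h5 h7
  have hM : PSub k (B ⊔ KP k N) :=
    PSub.sup hk (hP.mono hBP) hO ((hBK.trans hKX).trans hXO)
  have hbM : b ∈ normalizer ((B ⊔ KP k N : Subgroup G) : Set G) := by
    refine mem_normalizer_of_finite hM.1 ?_
    have h9 : B ⊔ KP k N ≤ (B ⊔ KP k N).comap (MulAut.conj b).toMonoidHom := by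
      refine sup_le ?_ ?_
      · intro s hs
        exact hBM ((mem_normalizer_iff.1 hbB s).1 hs)
      · intro s hs
        exact hOM ((mem_normalizer_iff.1 (hXO (hKX hbK)) s).1 hs)
    exact fun t ht => h9 ht
  refine (PSub.insert hk hM hb hbM).mono ?_
  rw [hKdef, closure_le]
  rintro s (hs | hs)
  · exact (le_sup_right : B ⊔ KP k N ≤ zpowers b ⊔ (B ⊔ KP k N)) (hBM hs)
  · rcases hs with hs | hs
    · subst hs
      exact (le_sup_right : B ⊔ KP k N ≤ zpowers b ⊔ (B ⊔ KP k N)) haM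
    · rw [Set.mem_singleton_iff] at hs
      rw [hs]
      exact (le_sup_left : zpowers b ≤ zpowers b ⊔ (B ⊔ KP k N)) (mem_zpowers b)

end Pool.Agent.Lib.MP_032401_al_M
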