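import Pool.Agent.Lib.MP_032401_al_M.PSub

/-!
# MP_032401_al (project BFM): supersolvable finite subgroups
-/

set_option autoImplicit false

namespace Pool.Agent.Lib.MP_032401_al_M

open Subgroup

variable {G : Type*} [Group G]

/-- `F` is supersolvable: it has a finite series of normal subgroups with cyclic factors -/
def IsSsv (F : Subgroup G) : Prop :=
  ∃ (n : ℕ) (s : ℕ → Subgroup G), s 0 = ⊥ ∧ s n = F ∧
    (∀ i : ℕ, i ≤ n → F ≤ Subgroup.normalizer ((s i : Subgroup G) : Set G)) ∧
    ∀ i : ℕ, i < n → ∃ g : G, s (i + 1) = s i ⊔ Subgroup.zpowers g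

end Pool.Agent.Lib.MP_032401_al_M
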