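import Pool.Agent.Lib.MP_032401_al_M.Knw

/-!
# MP_032401_al (project BFM): finite groups generated by `XL`-elements
-/

set_option autoImplicit false

namespace Pool.Agent.Lib.MP_032401_al_M

open Subgroup

variable {G : Type*} [Group G]

/-- `XL l` is invariant under conjugation. Proof: `(g z g⁻¹) ^ l = 1`; if `g z g⁻¹` normalises the
finite `k`-subgroup `T` then `z` normalises `g⁻¹ T g`, which is a finite `k`-subgroup
(`T.map (MulAut.conj g⁻¹).toMonoidHom`), so it centralises it. -/
theorem XL.conj {l : ℕ} {z : G} (hz : XL l z) (g : G) : XL l (g * z * g⁻¹) := by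
  refine ⟨by rw [conj_pow, hz.1, mul_one, mul_inv_cancel], ?_⟩
  intro k hk hkl T hT hn t ht
  have hT' : PSub k (T.map (MulAut.conj g⁻¹).toMonoidHom) := hT.conj g⁻¹
  have hmem : ∀ u ∈ T, g⁻¹ * u * g ∈ T.map (MulAut.conj g⁻¹).toMonoidHom := by
    intro u hu
    refine ⟨u, hu, ?_⟩
    show g⁻¹ * u * g⁻¹⁻¹ = _
    rw [inv_inv]
  have hz' : z ∈ normalizer ((T.map (MulAut.conj g⁻¹).toMonoidHom : Subgroup G) : Set G) := by
    refine mem_normalizer_of_finite hT'.1 ?_
    rintro _ ⟨u, hu, rfl⟩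
    show z * (g⁻¹ * u * g⁻¹⁻¹) * z⁻¹ ∈ T.map (MulAut.conj g⁻¹).toMonoidHom
    have h1 : z * (g⁻¹ * u * g⁻¹⁻¹) * z⁻¹ =
        g⁻¹ * ((g * z * g⁻¹) * u * (g * z * g⁻¹)⁻¹) * g := by group
    rw [h1]
    exact hmem _ ((mem_normalizer_iff.1 hn u).1 hu)
  have h2 := hz.2 k hk hkl _ hT' hz' _ (hmem t ht)
  calc g * z * g⁻¹ * t = g * (z * (g⁻¹ * t * g)) * g⁻¹ := by group
    _ = g * (g⁻¹ * t * g * z) * g⁻¹ := by rw [h2]
    _ = t * (g * z * g⁻¹) := by group

/-- Proof. `exists_hallC` (all elements of `S` are `l`-elements) gives `W` with `HallC l D W`. Let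
`s ∈ S` and `w ∈ W`: `s` commutes with `w` by `mem_of_parts` (for the centraliser of `s`), since a
power of `w` which is a `j`-element is `1` if `j = l` (`HallC.cop`), and if `j ≠ l` it lies in
`KP j W`, a finite `j`-subgroup normalised by `s ∈ D`, and `XL l s` applies. So `D = closure S`
centralises `W`. Let `R` be a Sylow `l`-subgroup of `D` (`exists_syl` with `P = ⊥`). Every `d ∈ D`
is `w * r`, `w ∈ W` and `r ∈ R` (`HallC.fac`), so `D` normalises `R`. For `s ∈ S` there is
`d ∈ D` with `d s d⁻¹ ∈ R` (`IsSyl.conj_mem` for `zpowers s`), so `s ∈ R`. Hence `D ≤ R`. -/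
theorem xl_psub (hper : ∀ g : G, IsOfFinOrder g) (hmet : Met G) {l : ℕ} (hl : l.Prime)
    {D : Subgroup G} (hD : (D : Set G).Finite) {S : Set G} (hS : ∀ s ∈ S, XL l s)
    (hDS : Subgroup.closure S = D) : PSub l D := by
  have hSD : ∀ s ∈ S, s ∈ D := fun s hs => by
    rw [← hDS]
    exact subset_closure hs
  have hSl : ∀ s ∈ S, PElt l s := fun s hs => PElt.of_pow_eq_one (hS s hs).1
  obtain ⟨W, hW⟩ := exists_hallC hmet hl hD hSl hDS
  have hWfin : (W : Set G).Finite := hD.subset hW.le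
  have hsw : ∀ s ∈ S, ∀ w ∈ W, s * w = w * s := by
    intro s hs w hw
    have h1 : w ∈ Subgroup.centralizer {s} := by
      refine mem_of_parts (hper w) _ ?_
      intro j hj n hn
      by_cases hjl : j = l
      · subst hjl
        rw [hW.cop _ (W.pow_mem hw n) hn]
        exact Subgroup.one_mem _
      · rw [Subgroup.mem_centralizer_singleton_iff]
        have h2 : w ^ n ∈ KP j W := (mem_KP hj hW.nil).2 ⟨W.pow_mem hw n, hn⟩
        have h3 : s ∈ normalizer ((KP j W : Subgroup G) : Set G) :=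
          KP_normalizer j W (hW.norm (hSD s hs))
        have h4 := (hS s hs).2 j hj hjl (KP j W) (KP_psub hj hW.nil hWfin) h3 _ h2
        first
          | exact h4
          | exact h4.symm
    have h5 := Subgroup.mem_centralizer_singleton_iff.1 h1
    first
      | exact h5
      | exact h5.symm
  have hDW : ∀ w ∈ W, ∀ d ∈ D, w * d = d * w := by
    intro w hw d hd
    have h1 : D ≤ Subgroup.centralizer {w} := by
      rw [← hDS, closure_le]
      intro s hs
      have h2 := hsw s hs w hw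
      exact Subgroup.mem_centralizer_singleton_iff.2 h2
    have h3 := Subgroup.mem_centralizer_singleton_iff.1 (h1 hd)
    first
      | exact h3
      | exact h3.symm
  obtain ⟨R, -, hR⟩ := exists_syl (p := l) hD (PSub.bot l) (bot_le : (⊥ : Subgroup G) ≤ D)
  have hnorm : ∀ d ∈ D, d ∈ normalizer (R : Set G) := by
    intro d hd
    obtain ⟨w, hw, r, hr, rfl⟩ := hW.fac R hR d hd
    refine (normalizer (R : Set G)).mul_mem ?_ (le_normalizer hr)
    refine mem_normalizer_of_finite hR.2.1.1 ?_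
    intro t ht
    rw [hDW w hw t (hR.1 ht), mul_inv_cancel_right]
    exact ht
  refine hR.2.1.mono ?_
  rw [← hDS, closure_le]
  intro s hs
  obtain ⟨d, hd, hx⟩ := hR.conj_mem hl hD (PSub.zpowers hl (hSl s hs))
    ((Subgroup.zpowers_le).2 (hSD s hs))
  have h6 := hx s (mem_zpowers s)
  exact (mem_normalizer_iff.1 (hnorm d hd) s).2 h6

end Pool.Agent.Lib.MP_032401_al_M
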